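import Mathlib

/-!
# The image of a hypersurface under a polynomial map lies in a hypersurface
-/

namespace Pool.Agent.DMM

open MvPolynomial

variable {K : Type*} [Field K]

/-- six polynomials in five variables are algebraically dependent -/
lemma exists_rel (y : Option (Fin 5) → MvPolynomial (Fin 5) K) :
    ∃ G : MvPolynomial (Option (Fin 5)) K, G ≠ 0 ∧ aeval y G = 0 := by
  by_contra hcon
  push Not at hcon
  have hind : AlgebraicIndependent K y := by
    rw [algebraicIndependent_iff]
    intro p hp
    by_contra h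
    exact hcon p h hp
  have h1 := hind.lift_cardinalMk_le_trdeg
  rw [MvPolynomial.trdeg_of_isDomain] at h1
  simp at h1
  norm_num at h1

lemma eval_option (z : Option (Fin 5) → K) (G : MvPolynomial (Option (Fin 5)) K) :
    eval z G = Polynomial.eval (z none)
      ((optionEquivLeft K (Fin 5) G).map (eval fun i => z (some i))) := by
  induction G using MvPolynomial.induction_on with
  | C a => simp
  | add p q hp hq => simp only [map_add, Polynomial.map_add, Polynomial.eval_add, hp, hq]
  | mul_X p i hp => cases i <;> simp [hp]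

lemma eval_aeval_mv {σ τ : Type*} (x : τ → K) (y : σ → MvPolynomial τ K) (G : MvPolynomial σ K) :
    eval x (aeval y G) = eval (fun o => eval x (y o)) G := by
  induction G using MvPolynomial.induction_on with
  | C a => simp
  | add p q hp hq => rw [map_add, map_add, map_add, hp, hq]
  | mul_X p i hp => rw [map_mul, map_mul, map_mul, hp, aeval_X, eval_X]

theorem exists_image_relation [Infinite K] {P₁ : MvPolynomial (Fin 5) K} (hP : P₁ ≠ 0)
    (ψ : Fin 5 → MvPolynomial (Fin 5) K) :
    ∃ P' : MvPolynomial (Fin 5) K, P' ≠ 0 ∧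
      ∀ x, eval x P₁ = 0 → eval (fun i => eval x (ψ i)) P' = 0 := by
  obtain ⟨G, hG, hGy⟩ := exists_rel (fun o => Option.elim o P₁ ψ)
  set G' := optionEquivLeft K (Fin 5) G with hG'
  have hG'0 : G' ≠ 0 := by
    intro h0
    apply hG
    exact (EmbeddingLike.map_eq_zero_iff).mp h0
  obtain ⟨G₁, hG₁, hndvd⟩ := Polynomial.exists_eq_pow_rootMultiplicity_mul_and_not_dvd G' hG'0 0
  rw [Polynomial.C_0, sub_zero] at hG₁ hndvd
  set δ := Polynomial.rootMultiplicity 0 G' with hδ
  refine ⟨G₁.coeff 0, fun h => hndvd (Polynomial.X_dvd_iff.mpr h), ?_⟩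
  set Φ : MvPolynomial (Fin 5) K :=
    Polynomial.eval₂ (aeval ψ : MvPolynomial (Fin 5) K →ₐ[K] _).toRingHom P₁ G₁ with hΦ
  have hΦe : ∀ x, eval x Φ =
      Polynomial.eval (eval x P₁) (G₁.map (eval fun i => eval x (ψ i))) := by
    intro x
    rw [hΦ, Polynomial.hom_eval₂, Polynomial.eval₂_eq_eval_map]
    congr 2
    apply MvPolynomial.ringHom_ext
    · intro r; simp
    · intro i; simp
  have hΦ0 : Φ * P₁ ^ (δ + 1) = 0 := by
    apply MvPolynomial.funext
    intro x
    have h1 := eval_option (fun o => eval x (Option.elim o P₁ ψ)) G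
    have h2 : eval (fun o => eval x (Option.elim o P₁ ψ)) G = 0 := by
      rw [← eval_aeval_mv, hGy, map_zero]
    rw [h2, ← hG', hG₁] at h1
    simp only [Option.elim, Polynomial.map_mul, Polynomial.map_pow, Polynomial.map_X,
      Polynomial.eval_mul, Polynomial.eval_pow, Polynomial.eval_X] at h1
    rw [← hΦe] at h1
    rw [map_mul, map_pow, pow_succ, map_zero]
    linear_combination (-(eval x P₁)) * h1
  have hΦ00 : Φ = 0 := by
    rcases mul_eq_zero.mp hΦ0 with h | h
    · exact h
    · exact absurd h (pow_ne_zero _ hP)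
  intro x hx
  have h1 := hΦe x
  rw [hΦ00, map_zero, hx, ← Polynomial.coeff_zero_eq_eval_zero, Polynomial.coeff_map] at h1
  exact h1.symm

end Pool.Agent.DMM
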