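import Pool.Agent.DMM.Split
import Pool.Agent.DMM.Relation

/-!
# The cone over the threefold is not preperiodic
-/

namespace Pool.Agent.DMM

open Polynomial

variable {K : Type*} [Field K]

/-- the cone over the hypersurface `X` -/
def Xcone (K : Type*) [Field K] : Set (Pt K) :=
  {v | v.1.1 * v.2.1.2 + v.1.2 * v.2.1.1 - v.1.2 * v.2.1.2 = 0}

lemma mem_Xcone (t t' w z : K) :
    ((t • ((1, z) : K × K), t' • ((z - 1, z) : K × K), w) : Pt K) ∈ Xcone K := by
  simp only [Xcone, Set.mem_ofPred_eq, Prod.smul_mk, smul_eq_mul]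
  ring

/-- iterates of a polynomial map are polynomial maps -/
lemma exists_iter (P : Fin 5 → MvPolynomial (Fin 5) K) (i : ℕ) :
    ∃ ψ : Fin 5 → MvPolynomial (Fin 5) K, ∀ v, (Psi P)^[i] v = Psi ψ v := by
  induction i with
  | zero =>
    refine ⟨MvPolynomial.X, fun v => ?_⟩
    simp only [Psi, MvPolynomial.eval_X]
    rfl
  | succ i ih =>
    obtain ⟨ψ, hψ⟩ := ih
    refine ⟨fun k => MvPolynomial.aeval ψ (P k), fun v => ?_⟩
    rw [Function.iterate_succ_apply', hψ]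
    simp only [Psi, coords_ofFun, eval_aeval_mv]

lemma iter_hom {H : K × K → K × K} {q : ℕ} (hom : ∀ (t : K) (x : K × K), H (t • x) = t ^ q • H x)
    (N : ℕ) (t : K) (x : K × K) : H^[N] (t • x) = t ^ (q ^ N) • H^[N] x := by
  induction N with
  | zero => simp
  | succ N ih =>
    rw [Function.iterate_succ_apply', Function.iterate_succ_apply', ih, hom, ← pow_mul, pow_succ]

lemma iter_surj {Φ : Pt K → Pt K} {H H' : K × K → K × K}
    (hs : ∀ (x y : K × K) (w' : K), ∃ w, Φ (x, y, w) = (H x, H' y, w')) (N : ℕ) :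
    ∀ (x y : K × K) (w' : K), ∃ w, Φ^[N] (x, y, w) = (H^[N] x, H'^[N] y, w') := by
  induction N with
  | zero => intro x y w'; exact ⟨w', rfl⟩
  | succ N ih =>
    intro x y w'
    obtain ⟨w₁, hw₁⟩ := ih (H x) (H' y) w'
    obtain ⟨w, hw⟩ := hs x y w₁
    exact ⟨w, by rw [Function.iterate_succ_apply, hw, hw₁]; rfl⟩

/-- a common lemma for the two applications -/
lemma orbit_contradiction [CharZero K] [IsAlgClosed K] {a b c h₀ h₀' : K}
    (ha : a ^ 2 - a + 2 = 0) (hab : a + b = 1) {m : ℕ} (hm : 1 ≤ m) (hc : c ≠ 0)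
    {H H' : K × K → K × K} (hH : Good a c h₀ m H) (hH' : Good b c h₀' m H') {D : ℕ} (hD : 2 ≤ D)
    (hh : h₀ ^ D = h₀) (hh' : h₀' ^ D = h₀') {Φ : Pt K → Pt K}
    (hs : ∀ (x y : K × K) (w' : K), ∃ w, Φ (x, y, w) = (H x, H' y, w'))
    {P : MvPolynomial (Fin 5) K} (hP : P ≠ 0) {i j : ℕ} (hj : 1 ≤ j)
    (hvan : ∀ (l : ℕ), ∀ v ∈ Xcone K, MvPolynomial.eval (coords (Φ^[i + j * l] v)) P = 0) :
    False := by
  apply pair_contradiction ha hab hm hc hH hH' hD hh hh' hP hj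
  intro l t t' w z
  obtain ⟨s, hs1⟩ := IsAlgClosed.exists_pow_nat_eq t (n := (2 ^ m) ^ (i + j * l)) (by positivity)
  obtain ⟨s', hs1'⟩ := IsAlgClosed.exists_pow_nat_eq t' (n := (2 ^ m) ^ (i + j * l)) (by positivity)
  obtain ⟨w₁, hw₁⟩ := iter_surj hs (i + j * l) (s • ((1, z) : K × K)) (s' • ((z - 1, z) : K × K)) w
  have h1 := hvan l _ (mem_Xcone s s' w₁ z)
  rw [hw₁, iter_hom hH.hom, iter_hom hH'.hom, hs1, hs1'] at h1
  exact h1

/-- The cone over `X` is not contained in a proper closed cone which is preperiodic under a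
commuting endomorphism. -/
theorem cone_contradiction [CharZero K] [IsAlgClosed K] {a b : K} (ha : a ^ 2 - a + 2 = 0)
    (hab : a + b = 1) {n q : ℕ} {P : Fin 5 → MvPolynomial (Fin 5) K} (h : Com a b n q P)
    (hn : 1 ≤ n) (hq : 2 ≤ q) (hqn : q < n) {CY : Set (Pt K)} (hX : Xcone K ⊆ CY)
    {P₁ : MvPolynomial (Fin 5) K} (hP₁ : P₁ ≠ 0)
    (hvan : ∀ v ∈ CY, MvPolynomial.eval (coords v) P₁ = 0) {i j : ℕ} (hj : 1 ≤ j)
    (hpre : ∀ v ∈ CY, ∃ v' ∈ CY, (Psi P)^[i + j] v = (Psi P)^[i] v') : False := by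
  obtain ⟨m, c, h₀, h₀', H, H', hm, hc, _, hH, hH', hh, hh', hs⟩ := h.split ha hab hn hq hqn
  obtain ⟨ψ, hψ⟩ := exists_iter P i
  obtain ⟨P', hP', hP'v⟩ := exists_image_relation hP₁ ψ
  have h1 : ∀ v ∈ CY, MvPolynomial.eval (coords ((Psi P)^[i] v)) P' = 0 := by
    intro v hv
    have h2 := hP'v (coords v) (hvan v hv)
    rw [hψ, Psi, coords_ofFun]
    exact h2
  have h2 : ∀ (l : ℕ), ∀ v ∈ CY, ∃ v' ∈ CY, (Psi P)^[i + j * l] v = (Psi P)^[i] v' := by
    intro l
    induction l with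
    | zero => intro v hv; exact ⟨v, hv, rfl⟩
    | succ l ih =>
      intro v hv
      obtain ⟨v', hv', e1⟩ := hpre v hv
      obtain ⟨v'', hv'', e2⟩ := ih v' hv'
      refine ⟨v'', hv'', ?_⟩
      have e3 : i + j * (l + 1) = j * l + (i + j) := by ring
      rw [e3, Function.iterate_add_apply, e1, ← Function.iterate_add_apply, add_comm (j * l) i, e2]
  apply orbit_contradiction ha hab hm hc hH hH' (D := 2 ^ n) _ hh hh' hs hP' hj
  · intro l v hv
    obtain ⟨v', hv', e1⟩ := h2 l v (hX hv)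
    rw [e1]
    exact h1 v' hv'
  · calc 2 = 2 ^ 1 := by norm_num
      _ ≤ 2 ^ n := Nat.pow_le_pow_right (by norm_num) hn

lemma good_iter {e : K} (n : ℕ) : Good e 1 1 n (F e)^[n] := by
  refine ⟨?_, ?_, ?_, one_ne_zero, ?_⟩
  · intro u
    exact ⟨(F (C e))^[n] u, fun t => (eval_F_iter e u n t).symm⟩
  · intro t x; exact F_iter_smul e t n x
  · rw [F_iter_one_zero, one_pow]
  · intro x; ring

lemma g_fibre_surj [IsAlgClosed K] {a b : K} (x y : K × K) (w' : K) :
    ∃ w, g a b (x, y, w) = (F a x, F b y, w') := by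
  obtain ⟨w, hw⟩ := IsAlgClosed.exists_pow_nat_eq (w' - Rho x y) (n := 2) (by norm_num)
  refine ⟨w, ?_⟩
  simp only [g, hw]
  simp

/-- The cone over `X` is not contained in a proper closed cone invariant under `g ^ n`. -/
theorem cone_contradiction' [CharZero K] [IsAlgClosed K] {a b : K} (ha : a ^ 2 - a + 2 = 0)
    (hab : a + b = 1) {n : ℕ} (hn : 1 ≤ n) {CY : Set (Pt K)} (hX : Xcone K ⊆ CY)
    {P₁ : MvPolynomial (Fin 5) K} (hP₁ : P₁ ≠ 0)
    (hvan : ∀ v ∈ CY, MvPolynomial.eval (coords v) P₁ = 0)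
    (hinv : ∀ v ∈ CY, (g a b)^[n] v ∈ CY) : False := by
  apply orbit_contradiction ha hab hn one_ne_zero (good_iter (e := a) n) (good_iter (e := b) n)
    (D := 2) le_rfl (by norm_num) (by norm_num) (Φ := (g a b)^[n])
    (iter_surj g_fibre_surj n) hP₁ (i := 0) (j := 1) le_rfl
  intro l v hv
  apply hvan
  rw [zero_add, one_mul]
  induction l with
  | zero => exact hX hv
  | succ l ih => rw [Function.iterate_succ_apply']; exact hinv _ ih

end Pool.Agent.DMM
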