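import Mathlib

/-!
# Endomorphisms of projective space and special subvarieties

Classical language over an algebraically closed field `K`: a projective variety is identified with
its set of `K`-points.
-/

namespace Pool.Agent.DMM

open MvPolynomial

variable {K : Type*} [Field K] {m : ℕ}

/-- The projective space with `m` homogeneous coordinates, that is, of dimension `m - 1`. -/
abbrev PSpace (K : Type*) [Field K] (m : ℕ) : Type _ := Projectivization K (Fin m → K)

/-- The vector of values at `v` of a tuple of polynomials. -/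
noncomputable def vals (P : Fin m → MvPolynomial (Fin m) K) (v : Fin m → K) : Fin m → K :=
  fun i => eval v (P i)

/-- `Z` is Zariski closed: it is the common zero locus of a set of homogeneous polynomials. -/
def ZClosed (Z : Set (PSpace K m)) : Prop :=
  ∃ S : Set (MvPolynomial (Fin m) K), (∀ P ∈ S, ∃ d : ℕ, P.IsHomogeneous d) ∧
    Z = {p | ∀ P ∈ S, eval p.rep P = 0}

/-- `Z` is an irreducible closed subset. -/
def ZIrreducible (Z : Set (PSpace K m)) : Prop :=
  ZClosed Z ∧ Z.Nonempty ∧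
    ∀ C₁ C₂ : Set (PSpace K m), ZClosed C₁ → ZClosed C₂ → Z ⊆ C₁ ∪ C₂ → Z ⊆ C₁ ∨ Z ⊆ C₂

/-- An endomorphism of degree `d` of the projective space: a tuple of homogeneous polynomials
of degree `d` without common zero. -/
structure Endo (K : Type*) [Field K] (m d : ℕ) where
  /-- the homogeneous polynomials -/
  poly : Fin m → MvPolynomial (Fin m) K
  homogeneous : ∀ i, (poly i).IsHomogeneous d
  no_zero : ∀ v : Fin m → K, v ≠ 0 → vals poly v ≠ 0

/-- The self-map of the projective space given by an endomorphism. -/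
noncomputable def Endo.map {d : ℕ} (f : Endo K m d) (p : PSpace K m) : PSpace K m :=
  Projectivization.mk K (vals f.poly p.rep) (f.no_zero _ p.rep_nonzero)

/-- `ψ` is a morphism on the closed set `Z`: around every point of `Z` it is given by homogeneous
polynomials of the same degree without common zero. -/
def IsMorphismOn (Z : Set (PSpace K m)) (ψ : PSpace K m → PSpace K m) : Prop :=
  ∀ z ∈ Z, ∃ (U : Set (PSpace K m)) (e : ℕ) (P : Fin m → MvPolynomial (Fin m) K),
    ZClosed Uᶜ ∧ z ∈ U ∧ (∀ i, (P i).IsHomogeneous e) ∧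
      ∀ z' ∈ Z ∩ U, ∃ h : vals P z'.rep ≠ 0, ψ z' = Projectivization.mk K (vals P z'.rep) h

/-- A point is preperiodic if its forward orbit is finite. -/
def IsPreperiodic {T : Type*} (f : T → T) (p : T) : Prop :=
  ∃ i j : ℕ, i < j ∧ f^[i] p = f^[j] p

/-- `Y` is weakly special for `f`: there are a closed set `Z` containing `Y` and an integer `n ≥ 1`
with `f ^ n (Z) = Z`, and a morphism `ψ : Z → Z`, neither constant nor injective, which commutes
with `f ^ n` on `Z` and for which `Y` is preperiodic, that is, `ψ ^ (i + j) (Y) = ψ ^ i (Y)` for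
some `i ≥ 0` and `j ≥ 1`.

Every special subvariety of positive dimension is weakly special: a polarizable endomorphism `ψ`
(`ψ^* L ≅ L ^ q` with `L` ample and `q > 1`) of a projective variety of positive dimension is
finite, so not constant, and restricts, after iteration, to an endomorphism of degree
`q ^ (k dim) > 1` of a component, so it is not injective in characteristic zero. -/
def WeaklySpecial {d : ℕ} (f : Endo K m d) (Y : Set (PSpace K m)) : Prop :=
  ∃ (Z : Set (PSpace K m)) (n : ℕ) (ψ : PSpace K m → PSpace K m),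
    ZClosed Z ∧ Y ⊆ Z ∧ 1 ≤ n ∧ f.map^[n] '' Z = Z ∧
    IsMorphismOn Z ψ ∧ Set.MapsTo ψ Z Z ∧
    (∃ z ∈ Z, ∃ z' ∈ Z, ψ z ≠ ψ z') ∧ ¬ Set.InjOn ψ Z ∧
    (∀ z ∈ Z, ψ (f.map^[n] z) = f.map^[n] (ψ z)) ∧
    ∃ i j : ℕ, 1 ≤ j ∧ ψ^[i + j] '' Y = ψ^[i] '' Y

/-- The five quadratic forms
`(x₀ - (a + 1) x₁) ^ 2, a ^ 2 x₀ x₁, (y₀ - (b + 1) y₁) ^ 2, b ^ 2 y₀ y₁, w ^ 2 + x₁ ^ 2 + y₁ ^ 2`
in the homogeneous coordinates `x₀, x₁, y₀, y₁, w` of `ℙ⁴`. -/
noncomputable def fPoly (a b : K) : Fin 5 → MvPolynomial (Fin 5) K :=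
  ![(X 0 - C (a + 1) * X 1) ^ 2, C (a ^ 2) * (X 0 * X 1),
    (X 2 - C (b + 1) * X 3) ^ 2, C (b ^ 2) * (X 2 * X 3),
    X 4 ^ 2 + (X 1 ^ 2 + X 3 ^ 2)]

/-- The quadratic form `x₀ y₁ + x₁ y₀ - x₁ y₁`. -/
noncomputable def qPoly (K : Type*) [Field K] : MvPolynomial (Fin 5) K :=
  X 0 * X 3 + X 1 * X 2 - X 1 * X 3

/-- The quadric hypersurface `x₀ y₁ + x₁ y₀ = x₁ y₁` of `ℙ⁴`. -/
noncomputable def Xset (K : Type*) [Field K] : Set (PSpace K 5) := {p | eval p.rep (qPoly K) = 0}

end Pool.Agent.DMM
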