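import Pool.Agent.DMM.Lattes

/-!
# Density of the backward orbit of the fixed vector
-/

namespace Pool.Agent.DMM

open Polynomial

variable {K : Type*} [Field K]

/-- the fixed vector -/
def xi (a : K) : K × K := ((a ^ 2)⁻¹, (a ^ 2)⁻¹)

lemma F_xi {a : K} (h0 : a ≠ 0) : F a (xi a) = xi a := by
  simp only [F, xi, Prod.mk.injEq]
  constructor
  · field_simp; ring
  · field_simp

lemma F_iter_xi {a : K} (h0 : a ≠ 0) (n : ℕ) : (F a)^[n] (xi a) = xi a := by
  induction n with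
  | zero => rfl
  | succ n ih => rw [Function.iterate_succ_apply', ih, F_xi h0]

/-- the backward orbit of the fixed vector -/
def BO (a : K) : Set (K × K) := {x | ∃ j, (F a)^[j] x = xi a}

/-- `φ` is polynomial on every line -/
def LinePoly (φ : K × K → K) : Prop := ∀ x y : K × K, ∃ p : K[X], ∀ t : K, φ (x + t • y) = p.eval t

/-- roots of unity of `2`-power order -/
def mu2 (K : Type*) [Field K] : Set K := {z | ∃ j : ℕ, z ^ (2 ^ j) = 1}

lemma mu2_infinite [CharZero K] [IsAlgClosed K] : (mu2 K).Infinite := by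
  intro hfin
  have hsurj : Function.Surjective (fun z : K => z ^ 2) := fun y =>
    IsAlgClosed.exists_pow_nat_eq y (by norm_num)
  have hinv : ∀ z : K, z ∈ mu2 K ↔ z ^ 2 ∈ mu2 K := by
    intro z
    constructor
    · rintro ⟨j, hj⟩
      exact ⟨j, by rw [← pow_mul, mul_comm, pow_mul, hj, one_pow]⟩
    · rintro ⟨j, hj⟩
      exact ⟨j + 1, by rw [pow_succ', pow_mul, hj]⟩
  have hinj := injOn_of_totally_invariant hsurj hfin hinv
  have h1 : (1 : K) ∈ mu2 K := ⟨0, by simp⟩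
  have h2 : (-1 : K) ∈ mu2 K := ⟨1, by norm_num⟩
  have h3 : (1 : K) = -1 := hinj h1 h2 (by norm_num)
  have h4 : (2 : K) = 0 := by linear_combination h3
  norm_num at h4

lemma poly_eq_zero_of_infinite {p : K[X]} {S : Set K} (hS : S.Infinite)
    (h : ∀ t ∈ S, p.eval t = 0) : p = 0 :=
  Polynomial.eq_zero_of_infinite_isRoot p (hS.mono fun t ht => h t ht)

/-- affine directions of the backward orbit -/
def Dir (a : K) : Set K := {z | ∃ j, ((F a)^[j] (z, 1)).1 = ((F a)^[j] (z, 1)).2}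

lemma F_affine {a : K} (h0 : a ≠ 0) {z : K} (hz : z ≠ 0) :
    F a (z, 1) = (a ^ 2 * z) • ((z - (a + 1)) ^ 2 / (a ^ 2 * z), (1 : K)) := by
  simp only [F, Prod.smul_mk, smul_eq_mul, Prod.mk.injEq]
  constructor
  · field_simp
  · ring

lemma exists_preimage_z [CharZero K] [IsAlgClosed K] {a : K} (ha : a ^ 2 - a + 2 = 0) (z' : K) :
    ∃ z : K, z ≠ 0 ∧ (z - (a + 1)) ^ 2 / (a ^ 2 * z) = z' := by
  obtain ⟨h0, h1, _, _⟩ := ne_facts ha
  set b := 2 * (a + 1) + a ^ 2 * z' with hb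
  obtain ⟨D, hD⟩ := IsAlgClosed.exists_pow_nat_eq (b ^ 2 - 4 * (a + 1) ^ 2) (n := 2) (by norm_num)
  have hroot : ((b + D) / 2) ^ 2 - b * ((b + D) / 2) + (a + 1) ^ 2 = 0 := by
    have : ((b + D) / 2) ^ 2 - b * ((b + D) / 2) + (a + 1) ^ 2 =
      (D ^ 2 - (b ^ 2 - 4 * (a + 1) ^ 2)) / 4 := by ring
    rw [this, hD]; ring
  set z := (b + D) / 2 with hz
  have hz0 : z ≠ 0 := by
    intro h
    rw [h] at hroot
    have : (a + 1) ^ 2 = 0 := by linear_combination hroot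
    exact h1 (by simpa using this)
  refine ⟨z, hz0, ?_⟩
  rw [div_eq_iff (mul_ne_zero (pow_ne_zero 2 h0) hz0)]
  rw [hb] at hroot
  linear_combination hroot

lemma mem_Dir_iff [CharZero K] {a : K} (ha : a ^ 2 - a + 2 = 0) {z : K} (hz : z ≠ 0) :
    z ∈ Dir a ↔ (z - (a + 1)) ^ 2 / (a ^ 2 * z) ∈ Dir a := by
  obtain ⟨h0, h1, _, _⟩ := ne_facts ha
  have hne : ∀ j : ℕ, (a ^ 2 * z) ^ (2 ^ j) ≠ 0 := fun j =>
    pow_ne_zero _ (mul_ne_zero (pow_ne_zero 2 h0) hz)
  have key : ∀ j : ℕ, ((F a)^[j + 1] (z, 1)).1 = ((F a)^[j + 1] (z, 1)).2 ↔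
      ((F a)^[j] ((z - (a + 1)) ^ 2 / (a ^ 2 * z), 1)).1 =
      ((F a)^[j] ((z - (a + 1)) ^ 2 / (a ^ 2 * z), 1)).2 := by
    intro j
    rw [Function.iterate_succ_apply, F_affine h0 hz, F_iter_smul]
    simp only [Prod.smul_fst, Prod.smul_snd, smul_eq_mul]
    exact mul_right_inj' (hne j)
  constructor
  · rintro ⟨j, hj⟩
    cases j with
    | zero =>
      have hz1 : z = 1 := hj
      refine ⟨0, ?_⟩
      simp only [Function.iterate_zero_apply]
      rw [hz1]
      field_simp; ring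
    | succ j => exact ⟨j, (key j).mp hj⟩
  · rintro ⟨j, hj⟩
    exact ⟨j + 1, (key j).mpr hj⟩

lemma zero_notMem_Dir [CharZero K] {a : K} (ha : a ^ 2 - a + 2 = 0) : (0 : K) ∉ Dir a := by
  obtain ⟨h0, h1, _, _⟩ := ne_facts ha
  rintro ⟨j, hj⟩
  cases j with
  | zero => simp at hj
  | succ j =>
    rw [Function.iterate_succ_apply] at hj
    have h2 : F a ((0 : K), (1 : K)) = ((a + 1) ^ 2, 0) := by
      simp only [F, Prod.mk.injEq]
      constructor <;> ring
    rw [h2] at hj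
    have h3 := F_iter_line1 a ((a + 1) ^ 2) j
    rw [h3] at hj
    have h4 : (F a)^[j] ((a + 1) ^ 2, 0) = 0 := Prod.ext hj h3
    have h5 := F_iter_eq_zero ha j h4
    rw [Prod.ext_iff] at h5
    have : (a + 1) ^ 2 = 0 := h5.1
    exact h1 (by simpa using this)

lemma Dir_infinite [CharZero K] [IsAlgClosed K] {a : K} (ha : a ^ 2 - a + 2 = 0) :
    (Dir a).Infinite := by
  intro hfin
  obtain ⟨h0, h1, _, h3⟩ := ne_facts ha
  set θ : K → K := fun z => (z - (a + 1)) ^ 2 / (a ^ 2 * z) with hθ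
  have hne : ∀ z ∈ Dir a, z ≠ 0 := fun z hz h => zero_notMem_Dir ha (h ▸ hz)
  have hm : Set.MapsTo θ (Dir a) (Dir a) := fun z hz => (mem_Dir_iff ha (hne z hz)).mp hz
  have hs : Set.SurjOn θ (Dir a) (Dir a) := by
    intro z' hz'
    obtain ⟨z, hz0, hz⟩ := exists_preimage_z ha z'
    exact ⟨z, (mem_Dir_iff ha hz0).mpr (hz.symm ▸ hz'), hz⟩
  have hinj : Set.InjOn θ (Dir a) := hfin.injOn_of_encard_image_eq (by
    rw [hs.image_eq_of_mapsTo hm])
  have m1 : (1 : K) ∈ Dir a := ⟨0, rfl⟩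
  have hk0 : (a + 1) ^ 2 ≠ 0 := pow_ne_zero 2 h1
  have e1 : θ ((a + 1) ^ 2) = 1 := by
    simp only [hθ]
    field_simp
    ring
  have e2 : θ 1 = 1 := by
    simp only [hθ]
    field_simp
    ring
  have m2 : (a + 1) ^ 2 ∈ Dir a := (mem_Dir_iff ha hk0).mpr (by
    change θ ((a + 1) ^ 2) ∈ Dir a
    rw [e1]; exact m1)
  exact h3 (hinj m2 m1 (by rw [e1, e2]))

/-- every direction in `Dir` is represented in the backward orbit -/
lemma exists_scale_mem_BO [CharZero K] [IsAlgClosed K] {a : K} (ha : a ^ 2 - a + 2 = 0) {z : K}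
    (hz : z ∈ Dir a) : ∃ s : K, s ≠ 0 ∧ s • (z, (1 : K)) ∈ BO a := by
  obtain ⟨h0, h1, _, h3⟩ := ne_facts ha
  obtain ⟨j, hj⟩ := hz
  set r := ((F a)^[j] (z, 1)).2 with hr
  have hr0 : r ≠ 0 := by
    intro h
    have h4 : (F a)^[j] (z, 1) = 0 := Prod.ext (by rw [hj, h]; rfl) (by rw [← hr, h]; rfl)
    have h5 := F_iter_eq_zero ha j h4
    rw [Prod.ext_iff] at h5
    have : (1 : K) = 0 := h5.2
    exact one_ne_zero this
  obtain ⟨s, hs⟩ := IsAlgClosed.exists_pow_nat_eq ((a ^ 2)⁻¹ / r) (n := 2 ^ j) (by positivity)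
  have ha2 : (a ^ 2)⁻¹ ≠ 0 := inv_ne_zero (pow_ne_zero 2 h0)
  refine ⟨s, ?_, j, ?_⟩
  · rintro rfl
    rw [zero_pow (by positivity)] at hs
    exact (div_ne_zero ha2 hr0) hs.symm
  · rw [F_iter_smul, hs]
    apply Prod.ext
    · simp only [Prod.smul_fst, smul_eq_mul, xi]
      rw [hj, div_mul_cancel₀ _ hr0]
    · simp only [Prod.smul_snd, smul_eq_mul, xi]
      rw [← hr, div_mul_cancel₀ _ hr0]

lemma smul_mem_BO {a : K} (h0 : a ≠ 0) {x : K × K} (hx : x ∈ BO a) {t : K} (ht : t ∈ mu2 K) :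
    t • x ∈ BO a := by
  obtain ⟨j, hj⟩ := hx
  obtain ⟨i, hi⟩ := ht
  refine ⟨i + j, ?_⟩
  rw [F_iter_smul, pow_add, pow_mul, hi, one_pow, one_smul, Function.iterate_add_apply, hj,
    F_iter_xi h0]

/-- The backward orbit of the fixed vector is Zariski dense in the plane. -/
theorem BO_dense [CharZero K] [IsAlgClosed K] {a : K} (ha : a ^ 2 - a + 2 = 0) {φ : K × K → K}
    (hφ : LinePoly φ) (h : ∀ x ∈ BO a, φ x = 0) : ∀ x, φ x = 0 := by
  obtain ⟨h0, h1, _, h3⟩ := ne_facts ha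
  -- whole lines through the origin
  have hl : ∀ x ∈ BO a, ∀ t : K, φ (t • x) = 0 := by
    intro x hx t
    obtain ⟨p, hp⟩ := hφ 0 x
    have : p = 0 := by
      apply poly_eq_zero_of_infinite (mu2_infinite (K := K))
      intro s hs
      rw [← hp, zero_add]
      exact h _ (smul_mem_BO h0 hx hs)
    have h2 := hp t
    rw [zero_add, this, eval_zero] at h2
    exact h2
  have hl2 : ∀ z ∈ Dir a, ∀ t : K, φ (t * z, t) = 0 := by
    intro z hz t
    obtain ⟨s, hs0, hs⟩ := exists_scale_mem_BO ha hz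
    have := hl _ hs (t / s)
    rw [smul_smul, div_mul_cancel₀ _ hs0] at this
    simpa using this
  have hl3 : ∀ z t : K, φ (t * z, t) = 0 := by
    intro z t
    obtain ⟨p, hp⟩ := hφ (0, t) (t, 0)
    have hp' : ∀ z, φ (t * z, t) = p.eval z := by
      intro z
      rw [← hp z]
      congr 1
      simp [mul_comm]
    have : p = 0 := by
      apply poly_eq_zero_of_infinite (Dir_infinite ha)
      intro z hz
      rw [← hp', hl2 z hz t]
    rw [hp', this, eval_zero]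
  have hl4 : ∀ x : K × K, x.2 ≠ 0 → φ x = 0 := by
    intro x hx
    have := hl3 (x.1 / x.2) x.2
    rwa [mul_div_cancel₀ _ hx] at this
  intro x
  obtain ⟨p, hp⟩ := hφ (x.1, 0) (0, 1)
  have hp' : ∀ t, φ (x.1, t) = p.eval t := by
    intro t
    rw [← hp t]; congr 1; simp
  have hinf : {t : K | t ≠ 0}.Infinite := by
    have : ({0}ᶜ : Set K).Infinite := (Set.finite_singleton (0 : K)).infinite_compl
    exact this
  have : p = 0 := by
    apply poly_eq_zero_of_infinite hinf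
    intro t ht
    rw [← hp']; exact hl4 _ ht
  have h2 := hp' x.2
  rw [this, eval_zero] at h2
  exact h2

/-- a polynomial curve in a scaled finite fibre is monomial -/
lemma curve_of_finite_image [CharZero K] [IsAlgClosed K] {a : K} (ha : a ^ 2 - a + 2 = 0)
    {v : K[X] × K[X]} {N k : ℕ} {v₀ : K × K}
    (h : ∀ t : K, (F a)^[N] (v.1.eval t, v.2.eval t) = (t ^ k) ^ (2 ^ N) • v₀) :
    ∃ v₁ : K × K, v = (C v₁.1 * X ^ k, C v₁.2 * X ^ k) := by
  set S : Set (K × K) := {u | (F a)^[N] u = v₀} with hS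
  have hSfin : S.Finite := F_iter_fibre_finite ha N v₀
  have hmem : ∀ t : K, t ≠ 0 → (t ^ k)⁻¹ • ((v.1.eval t, v.2.eval t) : K × K) ∈ S := by
    intro t ht
    change (F a)^[N] _ = v₀
    rw [F_iter_smul, h, smul_smul, ← mul_pow, inv_mul_cancel₀ (pow_ne_zero k ht), one_pow,
      one_smul]
  have hinf : ({0}ᶜ : Set K).Infinite := (Set.finite_singleton (0 : K)).infinite_compl
  have hex : ∃ s ∈ S, {t : K | t ≠ 0 ∧ (t ^ k)⁻¹ • ((v.1.eval t, v.2.eval t) : K × K) = s}.Infinite := by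
    by_contra hcon
    push Not at hcon
    apply hinf
    apply Set.Finite.subset (hSfin.biUnion fun s hs => hcon s hs)
    intro t ht
    simp only [Set.mem_iUnion]
    exact ⟨_, hmem t ht, ht, rfl⟩
  obtain ⟨s, _, hs⟩ := hex
  refine ⟨s, ?_⟩
  have key : ∀ t : K, t ≠ 0 ∧ (t ^ k)⁻¹ • ((v.1.eval t, v.2.eval t) : K × K) = s →
      v.1.eval t = (C s.1 * X ^ k).eval t ∧ v.2.eval t = (C s.2 * X ^ k).eval t := by
    rintro t ⟨ht, hts⟩
    rw [← hts]
    simp only [Prod.smul_fst, Prod.smul_snd, smul_eq_mul, eval_mul, eval_C, eval_pow, eval_X]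
    have := pow_ne_zero k ht
    constructor <;> field_simp
  apply Prod.ext
  · exact Polynomial.eq_of_infinite_eval_eq _ _ (hs.mono fun t ht => (key t ht).1)
  · exact Polynomial.eq_of_infinite_eval_eq _ _ (hs.mono fun t ht => (key t ht).2)

end Pool.Agent.DMM
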