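import Pool.Agent.DMM.Cone

/-!
# Preperiodic points are Zariski dense in the threefold
-/

namespace Pool.Agent.DMM

open Polynomial

variable {K : Type*} [Field K]

/-- the linear involution -/
def tau {R : Type*} [CommRing R] (u : R × R) : R × R := (u.2 - u.1, u.2)

/-- the conjugate map commuting with `F a` -/
def G (b : K) (u : K × K) : K × K := -tau (F b (tau u))

lemma tau_tau (u : K × K) : tau (tau u) = u := by simp [tau]

lemma tau_neg (u : K × K) : tau (-u) = -tau u := by
  simp only [tau, Prod.fst_neg, Prod.snd_neg, Prod.neg_mk, Prod.mk.injEq, and_true]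
  ring

lemma tau_smul (t : K) (u : K × K) : tau (t • u) = t • tau u := by
  simp only [tau, Prod.smul_fst, Prod.smul_snd, smul_eq_mul, Prod.smul_mk, Prod.mk.injEq, and_true]
  ring

lemma F_tau (b : K) (u : K × K) : F b (tau u) = -tau (G b u) := by
  rw [G, tau_neg, tau_tau, neg_neg]

lemma F_iter_tau (b : K) (u : K × K) (N : ℕ) :
    (F b)^[N + 1] (tau u) = -tau ((G b)^[N + 1] u) := by
  induction N with
  | zero => exact F_tau b u
  | succ N ih =>
    rw [Function.iterate_succ_apply', ih, F_neg, F_tau, Function.iterate_succ_apply' (G b) (N + 1)]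

lemma G_one (b : K) : G b (1, 0) = (1, 0) := by
  simp only [G, tau, F, Prod.neg_mk, Prod.mk.injEq]
  constructor <;> ring

lemma G_comm {a b : K} (ha : a ^ 2 - a + 2 = 0) (hab : a + b = 1) (u : K × K) :
    F a (G b u) = G b (F a u) := by
  have hb : b = 1 - a := by linear_combination hab
  subst hb
  simp only [G, tau, F, Prod.neg_mk, Prod.mk.injEq]
  constructor
  · linear_combination ((1)*a^4*u.1^2*u.2^2 + (-3)*a^4*u.1*u.2^3 + (1)*a^4*u.2^4 + (-1)*a^3*u.1^2*u.2^2 + (5)*a^3*u.1*u.2^3 + (-1)*a^3*u.2^4 + (-1)*a^2*u.1^3*u.2 + (1)*a^2*u.1^2*u.2^2 + (7)*a^2*u.1*u.2^3 + (-5)*a^2*u.2^4 + (1)*a*u.1^3*u.2 + (-13)*a*u.1^2*u.2^2 + (3)*a*u.1*u.2^3 + (-3)*a*u.2^4 + (4)*u.1^3*u.2 + (4)*u.1*u.2^3) * ha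
  · linear_combination ((2)*a^4*u.1^2*u.2^2 + (-2)*a^4*u.1*u.2^3 + (-4)*a^3*u.1^2*u.2^2 + (4)*a^3*u.1*u.2^3 + (2)*a^2*u.1^2*u.2^2 + (-2)*a^2*u.1*u.2^3) * ha

/-- preperiodic points -/
def PP {T : Type*} (f : T → T) (v : T) : Prop := ∃ i j, i < j ∧ f^[i] v = f^[j] v

lemma PP.of_iterate {T : Type*} {f : T → T} {v : T} {N : ℕ} (h : PP f (f^[N] v)) : PP f v := by
  obtain ⟨i, j, hij, h⟩ := h
  exact ⟨i + N, j + N, by omega, by rw [Function.iterate_add_apply, Function.iterate_add_apply, h]⟩

lemma PP.image {T : Type*} {f : T → T} {v : T} (h : PP f v) : PP f (f v) := by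
  obtain ⟨i, j, hij, h⟩ := h
  exact ⟨i, j, hij, by
    rw [← Function.iterate_succ_apply, ← Function.iterate_succ_apply,
      Function.iterate_succ_apply', Function.iterate_succ_apply', h]⟩

lemma PP_of_finite {T : Type*} {f : T → T} {v : T} {S : Set T} (hS : S.Finite) {N : ℕ}
    (h : ∀ i, N ≤ i → f^[i] v ∈ S) : PP f v := by
  have hni : ¬ Function.Injective (fun i : ℕ => f^[N + i] v) := by
    intro hinj
    exact (Set.infinite_range_of_injective hinj) (hS.subset (by
      rintro _ ⟨i, rfl⟩; exact h _ (by omega)))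
  simp only [Function.Injective] at hni
  push Not at hni
  obtain ⟨i, j, h1, h2⟩ := hni
  rcases lt_or_gt_of_ne h2 with h3 | h3
  · exact ⟨N + i, N + j, by omega, h1⟩
  · exact ⟨N + j, N + i, by omega, h1.symm⟩

/-- the special points upstairs -/
def Sj (a : K) (j : ℕ) : Set (K × K) := {u | (F a)^[j] u = (1, 0)}

lemma G_iter_mem {a b : K} (ha : a ^ 2 - a + 2 = 0) (hab : a + b = 1) {j : ℕ} {u : K × K}
    (hu : u ∈ Sj a j) (N : ℕ) : (G b)^[N] u ∈ Sj a j := by
  induction N with
  | zero => exact hu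
  | succ N ih =>
    rw [Function.iterate_succ_apply']
    have hcomm : Function.Semiconj (G b) (F a) (F a) := fun u => (G_comm ha hab u).symm
    have := (hcomm.iterate_right j) ((G b)^[N] u)
    change (F a)^[j] _ = _
    rw [← this, ih, G_one]

/-- the base orbit is finite -/
lemma base_PP [CharZero K] {a b : K} (ha : a ^ 2 - a + 2 = 0) (hab : a + b = 1) {j : ℕ}
    {u : K × K} (hu : u ∈ Sj a j) {s s' : K} (hs : s ∈ mu2 K) (hs' : s' ∈ mu2 K) :
    PP (Prod.map (F a) (F b)) (s • u, s' • tau u) := by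
  obtain ⟨r, hr⟩ := hs
  obtain ⟨r', hr'⟩ := hs'
  have hfin : ((fun v : K × K => (((1 : K), (0 : K)), -tau v)) '' (Sj a j)).Finite :=
    (F_iter_fibre_finite ha j (1, 0)).image _
  apply PP_of_finite hfin (N := r + r' + j + 1)
  intro i hi
  rw [Prod.map_iterate]
  refine ⟨(G b)^[i] u, G_iter_mem ha hab hu i, ?_⟩
  simp only [Prod.map_apply, Prod.mk.injEq]
  have hp : ∀ (z : K) (r : ℕ), z ^ (2 ^ r) = 1 → r ≤ i → z ^ (2 ^ i) = 1 := by
    intro z r hz hri
    obtain ⟨k, rfl⟩ := Nat.exists_eq_add_of_le hri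
    rw [pow_add, pow_mul, hz, one_pow]
  constructor
  · rw [F_iter_smul, hp s r hr (by omega), one_smul]
    obtain ⟨k, rfl⟩ := Nat.exists_eq_add_of_le (show j ≤ i by omega)
    rw [add_comm, Function.iterate_add_apply, hu, F_iter_one_zero, one_pow]
  · rw [F_iter_smul, hp s' r' hr' (by omega), one_smul]
    obtain ⟨k, hk⟩ : ∃ k, i = k + 1 := ⟨i - 1, by omega⟩
    rw [hk, F_iter_tau]

/-- an even monic polynomial has infinitely many preperiodic points -/
lemma infinite_PP [CharZero K] [IsAlgClosed K] {Q : K[X]} (hQ : Q.Monic) (hd : 2 ≤ Q.natDegree)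
    (hev : Q.comp (-X) = Q) : {z | PP (fun z => Q.eval z) z}.Infinite := by
  intro hfin
  have hsurj : Function.Surjective (fun z => Q.eval z) := by
    intro y
    obtain ⟨z, hz⟩ := IsAlgClosed.exists_root (Q - C y) (by
      intro h0
      have := natDegree_eq_zero_iff_degree_le_zero.mpr h0.le
      rw [natDegree_sub_C] at this
      omega)
    exact ⟨z, by simpa [sub_eq_zero] using hz⟩
  have hinv : ∀ z, z ∈ {z | PP (fun z => Q.eval z) z} ↔
      (fun z => Q.eval z) z ∈ {z | PP (fun z => Q.eval z) z} := by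
    intro z
    exact ⟨fun h => h.image, fun h => PP.of_iterate (N := 1) h⟩
  have hinj := injOn_of_totally_invariant hsurj hfin hinv
  have hneg : ∀ z, Q.eval (-z) = Q.eval z := by
    intro z
    conv_rhs => rw [← hev]
    simp
  have hzero : ∀ z, PP (fun z => Q.eval z) z → z = 0 := by
    intro z hz
    have hz' : PP (fun z => Q.eval z) (-z) := by
      rw [← Set.mem_ofPred_eq (p := fun z => PP (fun z => Q.eval z) z), hinv]
      simp only [hneg]
      exact hz.image
    have := hinj hz hz' (hneg z).symm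
    have h2 : 2 * z = 0 := by linear_combination this
    simpa using h2
  have hdX : (X : K[X]).degree < Q.degree := by
    rw [degree_X, degree_eq_natDegree hQ.ne_zero]
    exact_mod_cast (by omega : 1 < Q.natDegree)
  have hm : (Q - X).Monic := hQ.sub_of_left hdX
  obtain ⟨c, k, hc, hck⟩ := eq_C_mul_X_pow hm.ne_zero (fun z hz => hzero z ⟨0, 1, by norm_num, by
    simp only [Function.iterate_zero_apply, Function.iterate_one]
    rw [IsRoot.def, eval_sub, eval_X, sub_eq_zero] at hz
    exact hz.symm⟩)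
  have hQe : Q = C c * X ^ k + X := by rw [← hck]; ring
  have hdeg : Q.natDegree = k := by
    have h1 : (Q - X).natDegree = Q.natDegree := natDegree_sub_eq_left_of_natDegree_lt
      (by rw [natDegree_X]; omega)
    rw [← h1, hck, natDegree_C_mul_X_pow _ _ hc]
  have e2 := congrArg (fun p => coeff p 1) hev
  rw [show (-X : K[X]) = C (-1) * X by simp, comp_C_mul_X_coeff, hQe] at e2
  have hk1 : ¬ (1 = k) := by omega
  simp only [coeff_add, coeff_C_mul, coeff_X_pow, hk1, if_false, coeff_X_one] at e2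
  norm_num at e2

/-- over a base point with finite orbit there are infinitely many preperiodic points -/
lemma infinite_fibre_PP [CharZero K] [IsAlgClosed K] {a b : K} {x y : K × K}
    (h : PP (Prod.map (F a) (F b)) (x, y)) : {w : K | PP (g a b) (x, y, w)}.Infinite := by
  obtain ⟨i, j, hij, h⟩ := h
  rw [Prod.map_iterate, Prod.map_iterate] at h
  simp only [Prod.map_apply, Prod.mk.injEq] at h
  obtain ⟨h1, h2⟩ := h
  obtain ⟨p, rfl⟩ : ∃ p, j = (p + 1) + i := ⟨j - i - 1, by omega⟩
  rw [Function.iterate_add_apply] at h1 h2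
  set x' := (F a)^[i] x with hx'
  set y' := (F b)^[i] y with hy'
  set Q := V (rho a b x' y') (p + 1) with hQ
  have hstep : ∀ w, (g a b)^[p + 1] (x', y', w) = (x', y', Q.eval w) := by
    intro w
    have := g_iter_eval a b x' y' X (p + 1) w
    rw [eval_X, ← h1, ← h2] at this
    exact this
  have hiter : ∀ (k : ℕ) (w : K), (g a b)^[(p + 1) * k] (x', y', w) =
      (x', y', (fun z => Q.eval z)^[k] w) := by
    intro k
    induction k with
    | zero => intro w; rfl
    | succ k ih =>
      intro w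
      rw [Nat.mul_succ, add_comm, Function.iterate_add_apply, ih, hstep,
        Function.iterate_succ_apply']
  have hinf := infinite_PP (V_monic (rho a b x' y') (p + 1))
    (by rw [V_natDegree, pow_succ]; have := Nat.one_le_two_pow (n := p); omega) (V_even _ _)
  have hsurj : Function.Surjective (fun w => (V (rho a b x y) i).eval w) := by
    intro w'
    obtain ⟨z, hz⟩ := IsAlgClosed.exists_root (V (rho a b x y) i - C w') (by
      intro h0
      have := natDegree_eq_zero_iff_degree_le_zero.mpr h0.le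
      rw [natDegree_sub_C, V_natDegree] at this
      have h3 : 0 < 2 ^ i := by positivity
      omega)
    exact ⟨z, by simpa [sub_eq_zero] using hz⟩
  have hsub : {z | PP (fun z => Q.eval z) z} ⊆
      (fun w => (V (rho a b x y) i).eval w) '' {w : K | PP (g a b) (x, y, w)} := by
    intro z hz
    obtain ⟨w, hw⟩ := hsurj z
    refine ⟨w, ?_, hw⟩
    apply PP.of_iterate (N := i)
    have h3 := g_iter_eval a b x y X i w
    rw [eval_X] at h3
    rw [h3]
    change PP (g a b) (x', y', (V (rho a b x y) i).eval w)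
    simp only at hw
    rw [hw]
    obtain ⟨k, l, hkl, h4⟩ := hz
    exact ⟨(p + 1) * k, (p + 1) * l, by nlinarith, by rw [hiter, hiter, h4]⟩
  exact (hinf.mono hsub).of_image _

/-- the directions of the special points -/
def Tdir (a : K) : Set K := {z | ∃ j, ((F a)^[j] (z, 1)).2 = 0}

lemma Tdir_infinite [CharZero K] [IsAlgClosed K] {a : K} (ha : a ^ 2 - a + 2 = 0) :
    (Tdir a).Infinite := by
  intro hfin
  obtain ⟨h0, h1, _, _⟩ := ne_facts ha
  have m0 : (0 : K) ∈ Tdir a := ⟨1, by simp [F]⟩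
  have hsub : Tdir a ⊆ (fun z => (z - (a + 1)) ^ 2 / (a ^ 2 * z)) '' (Tdir a \ {0}) := by
    intro z' hz'
    obtain ⟨z, hz0, hz⟩ := exists_preimage_z ha z'
    refine ⟨z, ⟨?_, hz0⟩, hz⟩
    obtain ⟨j, hj⟩ := hz'
    refine ⟨j + 1, ?_⟩
    rw [Function.iterate_succ_apply, F_affine h0 hz0, hz, F_iter_smul, Prod.smul_snd, hj,
      smul_zero]
  have h2 := Set.ncard_le_ncard hsub ((hfin.subset Set.sdiff_subset).image _)
  have h3 := Set.ncard_image_le (f := fun z => (z - (a + 1)) ^ 2 / (a ^ 2 * z))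
    (hfin.subset (Set.sdiff_subset (s := Tdir a) (t := {0})))
  have h4 := Set.ncard_sdiff_singleton_lt_of_mem m0 hfin
  omega

lemma exists_scale_mem_Sj [CharZero K] [IsAlgClosed K] {a : K} (ha : a ^ 2 - a + 2 = 0) {z : K}
    (hz : z ∈ Tdir a) : ∃ (s : K) (j : ℕ), s ≠ 0 ∧ s • (z, (1 : K)) ∈ Sj a j := by
  obtain ⟨j, hj⟩ := hz
  set r := ((F a)^[j] (z, 1)).1 with hr
  have hr0 : r ≠ 0 := by
    intro h
    have h4 : (F a)^[j] (z, 1) = 0 := Prod.ext (by rw [← hr, h]; rfl) (by rw [hj]; rfl)
    have h5 := F_iter_eq_zero ha j h4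
    rw [Prod.ext_iff] at h5
    have : (1 : K) = 0 := h5.2
    exact one_ne_zero this
  obtain ⟨s, hs⟩ := IsAlgClosed.exists_pow_nat_eq (1 / r) (n := 2 ^ j) (by positivity)
  refine ⟨s, j, ?_, ?_⟩
  · rintro rfl
    rw [zero_pow (by positivity)] at hs
    exact (one_div_ne_zero hr0) hs.symm
  · change (F a)^[j] _ = _
    rw [F_iter_smul, hs]
    apply Prod.ext
    · simp only [Prod.smul_fst, smul_eq_mul]
      rw [← hr, one_div_mul_cancel hr0]
    · simp only [Prod.smul_snd, smul_eq_mul]
      rw [hj, mul_zero]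

/-- polynomials in the coordinates along lines -/
lemma mv_line (P : MvPolynomial (Fin 5) K) (V₀ : Pt K[X]) :
    ∃ p : K[X], ∀ t, MvPolynomial.eval (coords (evP t V₀)) P = p.eval t :=
  ⟨MvPolynomial.aeval (coords V₀) P, fun t => by rw [eval_aeval, coords_evP]⟩

/-- Preperiodic points are Zariski dense in the cone over `X`. -/
theorem preper_dense [CharZero K] [IsAlgClosed K] {a b : K} (ha : a ^ 2 - a + 2 = 0)
    (hab : a + b = 1) {P : MvPolynomial (Fin 5) K}
    (h : ∀ v ∈ Xcone K, v ≠ 0 → PP (g a b) v → MvPolynomial.eval (coords v) P = 0) :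
    ∀ v ∈ Xcone K, MvPolynomial.eval (coords v) P = 0 := by
  -- special directions
  have hX : ∀ (u : K × K) (t t' w : K), ((t • u, t' • tau u, w) : Pt K) ∈ Xcone K := by
    intro u t t' w
    simp only [Xcone, Set.mem_ofPred_eq, tau, Prod.smul_fst, Prod.smul_snd, smul_eq_mul]
    ring
  have h1 : ∀ (j : ℕ) (u : K × K), u ∈ Sj a j → ∀ t t' w : K,
      MvPolynomial.eval (coords ((t • u, t' • tau u, w) : Pt K)) P = 0 := by
    intro j u hu
    have s1 : ∀ s ∈ mu2 K, ∀ s' ∈ mu2 K, ∀ w : K,
        MvPolynomial.eval (coords ((s • u, s' • tau u, w) : Pt K)) P = 0 := by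
      intro s hs s' hs' w
      obtain ⟨p, hp⟩ := mv_line P (CC (s • u), CC (s' • tau u), X)
      have hp' : ∀ t, MvPolynomial.eval (coords ((s • u, s' • tau u, t) : Pt K)) P = p.eval t := by
        intro t
        rw [← hp t]
        simp only [evP, CC, eval_C, eval_X]
      have hinf := (infinite_fibre_PP (base_PP ha hab hu hs hs')).sdiff (Set.finite_singleton (0 : K))
      have : p = 0 := by
        apply poly_eq_zero_of_infinite hinf
        rintro t ⟨ht, ht0⟩
        rw [← hp']
        apply h _ (hX u s s' t) _ ht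
        intro h0
        exact ht0 (congrArg (fun v : Pt K => v.2.2) h0)
      rw [hp', this, eval_zero]
    have s2 : ∀ t : K, ∀ s' ∈ mu2 K, ∀ w : K,
        MvPolynomial.eval (coords ((t • u, s' • tau u, w) : Pt K)) P = 0 := by
      intro t s' hs' w
      obtain ⟨p, hp⟩ := mv_line P ((X * C u.1, X * C u.2), CC (s' • tau u), C w)
      have hp' : ∀ t, MvPolynomial.eval (coords ((t • u, s' • tau u, w) : Pt K)) P = p.eval t := by
        intro t
        rw [← hp t]
        simp only [evP, CC, eval_C, eval_X, eval_mul]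
        rfl
      have : p = 0 := by
        apply poly_eq_zero_of_infinite (mu2_infinite (K := K))
        intro s hs
        rw [← hp']
        exact s1 s hs s' hs' w
      rw [hp', this, eval_zero]
    intro t t' w
    obtain ⟨p, hp⟩ := mv_line P (CC (t • u), (X * C (tau u).1, X * C (tau u).2), C w)
    have hp' : ∀ t', MvPolynomial.eval (coords ((t • u, t' • tau u, w) : Pt K)) P = p.eval t' := by
      intro t'
      rw [← hp t']
      simp only [evP, CC, eval_C, eval_X, eval_mul]
      rfl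
    have : p = 0 := by
      apply poly_eq_zero_of_infinite (mu2_infinite (K := K))
      intro s hs
      rw [← hp']
      exact s2 t s hs w
    rw [hp', this, eval_zero]
  have h2 : ∀ (z t t' w : K),
      MvPolynomial.eval (coords ((t • ((z, 1) : K × K), t' • ((1 - z, 1) : K × K), w) : Pt K)) P = 0 := by
    intro z t t' w
    obtain ⟨p, hp⟩ := mv_line P ((C t * X, C t), (C t' * (1 - X), C t'), C w)
    have hp' : ∀ z, MvPolynomial.eval
        (coords ((t • ((z, 1) : K × K), t' • ((1 - z, 1) : K × K), w) : Pt K)) P = p.eval z := by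
      intro z
      rw [← hp z]
      simp only [evP, eval_C, eval_X, eval_mul, eval_sub, eval_one, Prod.smul_mk, smul_eq_mul,
        mul_one]
    have : p = 0 := by
      apply poly_eq_zero_of_infinite (Tdir_infinite ha)
      intro z hz
      rw [← hp']
      obtain ⟨s, j, hs0, hs⟩ := exists_scale_mem_Sj ha hz
      have h3 := h1 j _ hs (t / s) (t' / s) w
      rw [tau_smul, smul_smul, smul_smul, div_mul_cancel₀ _ hs0, div_mul_cancel₀ _ hs0] at h3
      exact h3
    rw [hp', this, eval_zero]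
  rintro ⟨⟨x₀, x₁⟩, ⟨y₀, y₁⟩, w⟩ hv
  simp only [Xcone, Set.mem_ofPred_eq] at hv
  by_cases hx : x₁ = 0
  · subst hx
    by_cases hy : y₁ = 0
    · subst hy
      have h3 := h1 0 (1, 0) rfl x₀ (-y₀) w
      simpa [tau] using h3
    · have hx0 : x₀ = 0 := by
        have : x₀ * y₁ = 0 := by linear_combination hv
        simpa [hy] using this
      subst hx0
      have h3 := h2 (1 - y₀ / y₁) 0 y₁ w
      have h4 : (((0 : K) • ((1 - y₀ / y₁, 1) : K × K), y₁ • ((1 - (1 - y₀ / y₁), 1) : K × K), w) : Pt K)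
          = ((0, 0), (y₀, y₁), w) := by
        simp only [Prod.smul_mk, smul_eq_mul, zero_mul, mul_one, Prod.mk.injEq, and_true, true_and]
        field_simp
        ring
      rw [h4] at h3
      exact h3
  · have h3 := h2 (x₀ / x₁) x₁ y₁ w
    have h4 : ((x₁ • ((x₀ / x₁, 1) : K × K), y₁ • ((1 - x₀ / x₁, 1) : K × K), w) : Pt K)
        = ((x₀, x₁), (y₀, y₁), w) := by
      simp only [Prod.smul_mk, smul_eq_mul, mul_one, Prod.mk.injEq, and_true]
      refine ⟨mul_div_cancel₀ _ hx, ?_⟩
      field_simp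
      linear_combination -hv
    rw [h4] at h3
    exact h3

end Pool.Agent.DMM
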