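import Pool.Agent.DMM.Proj
import Pool.Agent.DMM.PrePer

/-!
# The endomorphism of projective four-space and the threefold
-/

namespace Pool.Agent.DMM

open MvPolynomial

variable {K : Type*} [Field K]

lemma coords_ne {v : Pt K} (hv : v ≠ 0) : coords v ≠ 0 := by
  intro h
  apply hv
  have h1 : v = ofFun 0 := by rw [← h, ofFun_coords]
  rw [h1]
  rfl

lemma ofFun_ne {u : Fin 5 → K} (hu : u ≠ 0) : ofFun u ≠ 0 := by
  intro h
  apply hu
  have := congrArg coords h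
  rw [coords_ofFun] at this
  rw [this]
  funext i
  fin_cases i <;> rfl

/-- the point of the projective space with homogeneous coordinates `v` -/
noncomputable def pmk (v : Pt K) (hv : v ≠ 0) : PSpace K 5 :=
  Projectivization.mk K (coords v) (coords_ne hv)

lemma exists_pmk (p : PSpace K 5) : ∃ (v : Pt K) (hv : v ≠ 0), p = pmk v hv := by
  refine ⟨ofFun p.rep, ofFun_ne p.rep_nonzero, ?_⟩
  simp only [pmk, coords_ofFun, Projectivization.mk_rep]

lemma coords_smul' (s : K) (v : Pt K) : coords (s • v) = s • coords v := coords_smul s v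

lemma pmk_eq_iff {v w : Pt K} (hv : v ≠ 0) (hw : w ≠ 0) :
    pmk v hv = pmk w hw ↔ ∃ a : K, a ≠ 0 ∧ v = a • w := by
  unfold pmk
  rw [Projectivization.mk_eq_mk_iff']
  constructor
  · rintro ⟨a, ha⟩
    rw [← coords_smul'] at ha
    have h2 := congrArg ofFun ha
    rw [ofFun_coords, ofFun_coords] at h2
    refine ⟨a, ?_, h2.symm⟩
    rintro rfl
    rw [zero_smul] at h2
    exact hv h2.symm
  · rintro ⟨a, _, h⟩
    exact ⟨a, by rw [h, coords_smul']⟩

lemma Psi_fPoly (a b : K) (v : Pt K) : Psi (fPoly a b) v = g a b v := by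
  obtain ⟨⟨x₀, x₁⟩, ⟨y₀, y₁⟩, w⟩ := v
  simp [Psi, ofFun, fPoly, coords, g, F, Rho]

lemma vals_eq (P : Fin 5 → MvPolynomial (Fin 5) K) (v : Pt K) :
    vals P (coords v) = coords (Psi P v) := by
  rw [Psi, coords_ofFun]; rfl

lemma fPoly_hom (a b : K) (i : Fin 5) : (fPoly a b i).IsHomogeneous 2 := by
  have h1 : ∀ (c : K) (i j : Fin 5), ((X i - C c * X j : MvPolynomial (Fin 5) K) ^ 2).IsHomogeneous 2 := by
    intro c i j
    have := ((isHomogeneous_X K i).sub ((isHomogeneous_X K j).C_mul c)).pow 2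
    simpa using this
  have h2 : ∀ (c : K) (i j : Fin 5), (C c * (X i * X j) : MvPolynomial (Fin 5) K).IsHomogeneous 2 := by
    intro c i j
    exact ((isHomogeneous_X K i).mul (isHomogeneous_X K j)).C_mul c
  have h3 : ∀ i : Fin 5, (X i ^ 2 : MvPolynomial (Fin 5) K).IsHomogeneous 2 := fun i =>
    isHomogeneous_X_pow i 2
  fin_cases i
  · exact h1 _ _ _
  · exact h2 _ _ _
  · exact h1 _ _ _
  · exact h2 _ _ _
  · exact (h3 4).add ((h3 1).add (h3 3))

lemma g_ne_zero [CharZero K] {a b : K} (ha : a ^ 2 - a + 2 = 0) (hb : b ^ 2 - b + 2 = 0) {v : Pt K}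
    (hv : v ≠ 0) : g a b v ≠ 0 := by
  intro h
  apply hv
  have h1 : F a v.1 = 0 := congrArg (fun v : Pt K => v.1) h
  have h2 : F b v.2.1 = 0 := congrArg (fun v : Pt K => v.2.1) h
  have h3 := congrArg (fun v : Pt K => v.2.2) h
  have hx : v.1 = 0 := F_eq_zero ha h1
  have hy : v.2.1 = 0 := F_eq_zero hb h2
  have hw : v.2.2 = 0 := by
    have h4 : v.2.2 ^ 2 + Rho v.1 v.2.1 = 0 := h3
    rw [hx, hy] at h4
    simpa [Rho] using h4
  exact Prod.ext hx (Prod.ext hy hw)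

/-- the endomorphism of `ℙ⁴` -/
noncomputable def fEndo [CharZero K] {a b : K} (ha : a ^ 2 - a + 2 = 0)
    (hb : b ^ 2 - b + 2 = 0) : Endo K 5 2 where
  poly := fPoly a b
  homogeneous := fPoly_hom a b
  no_zero := by
    intro v hv h
    have h1 := vals_eq (fPoly a b) (ofFun v)
    rw [coords_ofFun, Psi_fPoly] at h1
    exact coords_ne (g_ne_zero ha hb (ofFun_ne hv)) (h1.symm.trans h)

lemma fEndo_map [CharZero K] {a b : K} (ha : a ^ 2 - a + 2 = 0) (hb : b ^ 2 - b + 2 = 0)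
    (v : Pt K) (hv : v ≠ 0) :
    (fEndo ha hb).map (pmk v hv) = pmk (g a b v) (g_ne_zero ha hb hv) := by
  unfold pmk
  rw [Endo.map_mk]
  congr 1
  change vals (fPoly a b) (coords v) = _
  rw [vals_eq, Psi_fPoly]

lemma conj_iter {Φ : Pt K → Pt K} (hΦ : ∀ v, v ≠ 0 → Φ v ≠ 0) {ψ : PSpace K 5 → PSpace K 5}
    (h : ∀ (v : Pt K) (hv : v ≠ 0), ψ (pmk v hv) = pmk (Φ v) (hΦ v hv)) (k : ℕ) :
    ∀ (v : Pt K) (hv : v ≠ 0), ∃ h', ψ^[k] (pmk v hv) = pmk (Φ^[k] v) h' := by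
  induction k with
  | zero => intro v hv; exact ⟨hv, rfl⟩
  | succ k ih =>
    intro v hv
    obtain ⟨h1, h2⟩ := ih (Φ v) (hΦ v hv)
    refine ⟨h1, ?_⟩
    rw [Function.iterate_succ_apply, h]
    exact h2

lemma qPoly_hom : (qPoly K).IsHomogeneous 2 := by
  have h2 : ∀ (i j : Fin 5), (X i * X j : MvPolynomial (Fin 5) K).IsHomogeneous 2 :=
    fun i j => (isHomogeneous_X K i).mul (isHomogeneous_X K j)
  exact ((h2 0 3).add (h2 1 2)).sub (h2 1 3)

lemma pmk_mem_X {v : Pt K} (hv : v ≠ 0) : pmk v hv ∈ Xset K ↔ v ∈ Xcone K := by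
  unfold Xset pmk
  change eval _ _ = 0 ↔ _
  rw [eval_rep qPoly_hom]
  simp [qPoly, coords, Xcone]

lemma Xset_closed : ZClosed (Xset K) :=
  ⟨{qPoly K}, by rintro P rfl; exact ⟨2, qPoly_hom⟩, by simp [Xset]⟩

/-- the cone over a closed set -/
def coneOf (Z : Set (PSpace K 5)) : Set (Pt K) := {v | ∀ hv : v ≠ 0, pmk v hv ∈ Z}

lemma Xcone_sub_coneOf {Z : Set (PSpace K 5)} (h : Xset K ⊆ Z) : Xcone K ⊆ coneOf Z :=
  fun _ hv hv0 => h ((pmk_mem_X hv0).mpr hv)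

/-- the parametrisation of the cone over `X` -/
lemma exists_param {v : Pt K} (hv : v ∈ Xcone K) : ∃ (u : K × K) (t t' w : K),
    v = (t • u, t' • tau u, w) := by
  obtain ⟨⟨x₀, x₁⟩, ⟨y₀, y₁⟩, w⟩ := v
  simp only [Xcone, Set.mem_ofPred_eq] at hv
  by_cases hx1 : x₁ = 0
  · subst hx1
    by_cases hx0 : x₀ = 0
    · subst hx0
      refine ⟨tau (y₀, y₁), 0, 1, w, ?_⟩
      simp [tau_tau]
    · have hy : y₁ = 0 := by
        have : x₀ * y₁ = 0 := by linear_combination hv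
        simpa [hx0] using this
      subst hy
      refine ⟨(x₀, 0), 1, -y₀ / x₀, w, ?_⟩
      simp [tau, hx0]
  · refine ⟨(x₀, x₁), 1, y₁ / x₁, w, ?_⟩
    simp only [tau, Prod.smul_mk, smul_eq_mul, one_mul, Prod.mk.injEq, and_true, true_and]
    constructor
    · field_simp
      linear_combination hv
    · field_simp

/-- the parametrisation as polynomials -/
noncomputable def param (K : Type*) [Field K] : Fin 5 → MvPolynomial (Fin 5) K :=
  ![X 2 * X 0, X 2 * X 1, X 3 * (X 1 - X 0), X 3 * X 1, X 4]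

lemma param_eval (z : Fin 5 → K) : (fun i => eval z (param K i)) =
    coords (((z 2 • ((z 0, z 1) : K × K)), (z 3 • tau ((z 0, z 1) : K × K)), z 4) : Pt K) := by
  funext i
  fin_cases i <;> simp [param, coords, tau]

lemma param_mem (u : K × K) (t t' w : K) : ((t • u, t' • tau u, w) : Pt K) ∈ Xcone K := by
  simp only [Xcone, Set.mem_ofPred_eq, tau, Prod.smul_fst, Prod.smul_snd, smul_eq_mul]
  ring

/-- a product vanishing on the cone has a factor vanishing on the cone -/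
lemma Xcone_irred [Infinite K] {P₁ P₂ : MvPolynomial (Fin 5) K}
    (h : ∀ v ∈ Xcone K, v ≠ 0 → eval (coords v) P₁ = 0 ∨ eval (coords v) P₂ = 0) :
    (∀ v ∈ Xcone K, eval (coords v) P₁ = 0) ∨ (∀ v ∈ Xcone K, eval (coords v) P₂ = 0) := by
  have hz : aeval (param K) P₁ * aeval (param K) P₂ * X 4 = 0 := by
    apply MvPolynomial.funext
    intro z
    rw [map_mul, map_mul, eval_aeval_mv, eval_aeval_mv, eval_X, map_zero, param_eval]
    by_cases hz4 : z 4 = 0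
    · rw [hz4, mul_zero]
    · rcases h _ (param_mem (z 0, z 1) (z 2) (z 3) (z 4)) (by
        intro h0
        exact hz4 (congrArg (fun v : Pt K => v.2.2) h0)) with h1 | h1
      · rw [h1]; ring
      · rw [h1]; ring
  have hkey : ∀ P : MvPolynomial (Fin 5) K, aeval (param K) P = 0 →
      ∀ v ∈ Xcone K, eval (coords v) P = 0 := by
    intro P hP v hv
    obtain ⟨u, t, t', w, rfl⟩ := exists_param hv
    have h1 := congrArg (eval (![u.1, u.2, t, t', w] : Fin 5 → K)) hP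
    rw [eval_aeval_mv, param_eval, map_zero] at h1
    exact h1
  rcases mul_eq_zero.mp hz with h1 | h1
  · rcases mul_eq_zero.mp h1 with h2 | h2
    · left; exact hkey _ h2
    · right; exact hkey _ h2
  · exact absurd h1 (X_ne_zero _)

lemma pmk_mem_closed {S : Set (MvPolynomial (Fin 5) K)}
    (hS : ∀ P ∈ S, ∃ d : ℕ, P.IsHomogeneous d) {v : Pt K} (hv : v ≠ 0) :
    pmk v hv ∈ {p : PSpace K 5 | ∀ P ∈ S, eval p.rep P = 0} ↔ ∀ P ∈ S, eval (coords v) P = 0 :=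
  mk_mem_iff hS (coords_ne hv)

lemma point_w_ne : (((0, 0), (0, 0), 1) : Pt K) ≠ 0 := by
  intro h
  have := congrArg (fun v : Pt K => v.2.2) h
  simp at this

theorem Xset_irreducible [Infinite K] : ZIrreducible (Xset K) := by
  refine ⟨Xset_closed, ⟨pmk _ point_w_ne, (pmk_mem_X _).mpr (by simp [Xcone])⟩, ?_⟩
  rintro C₁ C₂ ⟨S₁, hS₁, rfl⟩ ⟨S₂, hS₂, rfl⟩ hsub
  by_contra hcon
  push Not at hcon
  obtain ⟨h1, h2⟩ := hcon
  rw [Set.not_subset] at h1 h2
  obtain ⟨p₁, hp₁, hp₁'⟩ := h1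
  obtain ⟨p₂, hp₂, hp₂'⟩ := h2
  obtain ⟨v₁, hv₁, rfl⟩ := exists_pmk p₁
  obtain ⟨v₂, hv₂, rfl⟩ := exists_pmk p₂
  rw [pmk_mem_closed hS₁] at hp₁'
  rw [pmk_mem_closed hS₂] at hp₂'
  push Not at hp₁' hp₂'
  obtain ⟨P₁, hP₁, hPv₁⟩ := hp₁'
  obtain ⟨P₂, hP₂, hPv₂⟩ := hp₂'
  have h3 : ∀ v ∈ Xcone K, v ≠ 0 → eval (coords v) P₁ = 0 ∨ eval (coords v) P₂ = 0 := by
    intro v hv hv0
    rcases hsub ((pmk_mem_X hv0).mpr hv) with h4 | h4
    · left; exact (pmk_mem_closed hS₁ hv0).mp h4 P₁ hP₁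
    · right; exact (pmk_mem_closed hS₂ hv0).mp h4 P₂ hP₂
  rcases Xcone_irred h3 with h4 | h4
  · exact hPv₁ (h4 v₁ ((pmk_mem_X hv₁).mp hp₁))
  · exact hPv₂ (h4 v₂ ((pmk_mem_X hv₂).mp hp₂))

theorem Xset_ne_univ : Xset K ≠ Set.univ := by
  intro h
  have hv : (((0, 1), (0, 1), 0) : Pt K) ≠ 0 := by
    intro h
    have := congrArg (fun v : Pt K => v.1.2) h
    simp at this
  have h1 : pmk _ hv ∈ Xset K := by rw [h]; exact Set.mem_univ _
  rw [pmk_mem_X] at h1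
  simp [Xcone] at h1

/-- preperiodic points are dense in `X` -/
theorem Xset_dense [CharZero K] [IsAlgClosed K] {a b : K} (ha : a ^ 2 - a + 2 = 0)
    (hab : a + b = 1) (hb : b ^ 2 - b + 2 = 0) (C : Set (PSpace K 5)) (hC : ZClosed C)
    (h : {p ∈ Xset K | IsPreperiodic (fEndo ha hb).map p} ⊆ C) : Xset K ⊆ C := by
  obtain ⟨S, hS, rfl⟩ := hC
  intro p hp
  obtain ⟨v, hv, rfl⟩ := exists_pmk p
  rw [pmk_mem_closed hS]
  intro P hP
  refine preper_dense ha hab (P := P) ?_ v ((pmk_mem_X hv).mp hp)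
  intro u hu hu0 hpp
  refine (pmk_mem_closed hS hu0).mp (h ⟨(pmk_mem_X hu0).mpr hu, ?_⟩) P hP
  obtain ⟨i, j, hij, he⟩ := hpp
  refine ⟨i, j, hij, ?_⟩
  obtain ⟨h1, h2⟩ := conj_iter (fun v hv => g_ne_zero ha hb hv) (fEndo_map ha hb) i u hu0
  obtain ⟨h3, h4⟩ := conj_iter (fun v hv => g_ne_zero ha hb hv) (fEndo_map ha hb) j u hu0
  rw [h2, h4]
  congr 1

end Pool.Agent.DMM
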