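import Pool.Agent.DMM.Psi

/-!
# The fibre polynomial of a commuting endomorphism
-/

namespace Pool.Agent.DMM

open Polynomial

variable {K : Type*} [Field K]

lemma g_iter_eval (a b : K) (x y : K × K) (W : K[X]) (n : ℕ) (t : K) :
    (g a b)^[n] (x, y, W.eval t) =
      ((F a)^[n] x, (F b)^[n] y, (tower (rho a b x y) n W).eval t) := by
  have h1 := evP_g_iter a b t n (CC x, CC y, W)
  rw [g_iter_C] at h1
  simp only [evP, CC, eval_C] at h1
  exact h1.symm

/-- the fibre polynomial -/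
noncomputable def Bb (P : Fin 5 → MvPolynomial (Fin 5) K) (x y : K × K) : K[X] :=
  (PsiX P (CC x, CC y, X)).2.2

lemma Bb_eval (P : Fin 5 → MvPolynomial (Fin 5) K) (x y : K × K) (t : K) :
    (Bb P x y).eval t = (Psi P (x, y, t)).2.2 := by
  have h1 := evP_PsiX P t (CC x, CC y, X)
  have h2 := congrArg (fun v : Pt K => v.2.2) h1
  simp only [evP, CC, eval_C, eval_X] at h2
  exact h2

namespace Com

variable {a b : K} {n q : ℕ} {P : Fin 5 → MvPolynomial (Fin 5) K} (h : Com a b n q P)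

include h

/-- degree and leading coefficient of the fibre polynomial -/
lemma Bb_deg {c : K} (hc : c ≠ 0) (hP : Psi P ((0, 0), (0, 0), 1) = ((0, 0), (0, 0), c))
    (x y : K × K) : (Bb P x y).natDegree = q ∧ (Bb P x y).leadingCoeff = c := by
  obtain ⟨h1, h2⟩ := top_coeff (h.hom 4) x y
  have h3 : MvPolynomial.eval (coords (((0, 0), (0, 0), 1) : Pt K)) (P 4) = c := by
    have := congrArg (fun v : Pt K => v.2.2) hP
    exact this
  rw [h3] at h2
  have h2' : (Bb P x y).coeff q = c := h2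
  have h4 : (Bb P x y).natDegree = q :=
    natDegree_eq_of_le_of_coeff_ne_zero h1 (by rw [h2']; exact hc)
  refine ⟨h4, ?_⟩
  rw [leadingCoeff, h4]; exact h2

variable [CharZero K] [IsAlgClosed K]

/-- the basic relation -/
lemma relation (ha : a ^ 2 - a + 2 = 0) (hab : a + b = 1) (hn : 1 ≤ n) (x y : K × K) :
    (Bb P ((F a)^[n] x) ((F b)^[n] y)).comp (V (rho a b x y) n) =
      tower (rho a b (Psi P (x, y, 0)).1 (Psi P (x, y, 0)).2.1) n (Bb P x y) := by
  apply Polynomial.funext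
  intro t
  rw [eval_comp, Bb_eval]
  have h1 := g_iter_eval a b x y X n t
  rw [eval_X] at h1
  rw [V, ← h1, h.comm]
  have h2 : Psi P (x, y, t) = ((Psi P (x, y, 0)).1, (Psi P (x, y, 0)).2.1, (Bb P x y).eval t) := by
    apply Prod.ext
    · exact h.ind1 ha hab hn x y t
    · apply Prod.ext
      · exact h.ind2 ha hab hn x y t
      · exact (Bb_eval P x y t).symm
  rw [h2, g_iter_eval]

lemma exists_two_pow (ha : a ^ 2 - a + 2 = 0) (hab : a + b = 1) (hn : 1 ≤ n) (hq : 1 ≤ q)
    (hqn : q < n) : ∃ m, q = 2 ^ m := by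
  have hb := (beta_facts ha hab).1
  obtain ⟨c, hc, _, hP⟩ := h.lead ha hab hn hq
  obtain ⟨m, s, hs, hms⟩ := Nat.exists_eq_two_pow_mul_odd (n := q) (by omega)
  obtain ⟨n', rfl⟩ : ∃ n', n = n' + 1 := ⟨n - 1, by omega⟩
  have hsa : Function.Surjective ((F a)^[n']) := (F_surjective ha).iterate n'
  have hsb : Function.Surjective ((F b)^[n']) := (F_surjective hb).iterate n'
  set xs : Fin 3 → K × K := ![(0, 1), (0, 1), (a + 1, 0)] with hxs
  set ys : Fin 3 → K × K := ![(0, 1), (b + 1, 0), (b + 1, 0)] with hys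
  choose X' hX' using fun j => hsa (xs j)
  choose Y' hY' using fun j => hsb (ys j)
  have hFx : ∀ j, F a (xs j) = ((a + 1) ^ 2, 0) := by
    intro j
    fin_cases j <;> simp only [hxs, F, Prod.mk.injEq] <;> constructor <;> simp
    all_goals ring
  have hFy : ∀ j, F b (ys j) = ((b + 1) ^ 2, 0) := by
    intro j
    fin_cases j <;> simp only [hys, F, Prod.mk.injEq] <;> constructor <;> simp
    all_goals ring
  have hRho : ∀ j : Fin 3, Rho (xs j) (ys j) = (![2, 1, 0] : Fin 3 → K) j := by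
    intro j
    fin_cases j <;> simp [hxs, hys, Rho]
    norm_num
  refine ⟨m, ?_⟩
  have hs1 : s = 1 := by
    apply peel3 m hs (p := Bb P ((a + 1) ^ 2, 0) ((b + 1) ^ 2, 0))
      (by rw [(h.Bb_deg hc hP _ _).1]; exact hms)
      (fun j => V (rho a b (X' j) (Y' j)) n') ![2, 1, 0]
    · intro i j hij
      fin_cases i <;> fin_cases j <;> simp_all
    · intro j
      rw [V_natDegree]; positivity
    · intro j
      have hrel := h.relation ha hab hn (X' j) (Y' j)
      have e1 : (F a)^[n' + 1] (X' j) = ((a + 1) ^ 2, 0) := by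
        rw [Function.iterate_succ_apply', hX', hFx]
      have e2 : (F b)^[n' + 1] (Y' j) = ((b + 1) ^ 2, 0) := by
        rw [Function.iterate_succ_apply', hY', hFy]
      rw [e1, e2] at hrel
      have e3 : V (rho a b (X' j) (Y' j)) (n' + 1) =
          (V (rho a b (X' j) (Y' j)) n') ^ 2 + C ((![2, 1, 0] : Fin 3 → K) j) := by
        change (V _ n') ^ 2 + C (rho a b (X' j) (Y' j) n') = _
        rw [rho, hX', hY', hRho]
      rw [e3] at hrel
      rw [hrel]
      have h5 : m + 1 ≤ n' + 1 := by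
        have h6 : m < 2 ^ m := Nat.lt_two_pow_self
        have h7 : 2 ^ m ≤ q := by rw [hms]; exact Nat.le_mul_of_pos_right _ hs.pos
        omega
      exact (tow_tower _ _ _).mono h5
  rw [hms, hs1, mul_one]

/-- the fibre polynomial is a multiple of an iterate -/
lemma Bb_eq (ha : a ^ 2 - a + 2 = 0) (hab : a + b = 1) (hn : 1 ≤ n)
    (hqn : q < n) {c : K} (hc : c ≠ 0) (hP : Psi P ((0, 0), (0, 0), 1) = ((0, 0), (0, 0), c))
    {m : ℕ} (hm : q = 2 ^ m) (x y : K × K) : Bb P x y = C c * V (rho a b x y) m := by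
  have hmn : m + 1 ≤ n := by
    have h6 : m < 2 ^ m := Nat.lt_two_pow_self
    omega
  obtain ⟨n', hn'⟩ : ∃ n', n = n' + 1 := ⟨n - 1, by omega⟩
  obtain ⟨N, hN⟩ : ∃ N, n = (N + 1) + m := ⟨n - m - 1, by omega⟩
  have hrel := h.relation ha hab hn x y
  have e3 : V (rho a b x y) n = (V (rho a b x y) n') ^ 2 + C (rho a b x y n') := by
    rw [hn']; rfl
  set r := rho a b (Psi P (x, y, 0)).1 (Psi P (x, y, 0)).2.1 with hr
  have hrel' : (Bb P ((F a)^[n] x) ((F b)^[n] y)).comp
      ((V (rho a b x y) n') ^ 2 + C (rho a b x y n')) = tower r ((N + 1) + m) (Bb P x y) := by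
    rw [← e3, hrel, ← hN]
  obtain ⟨t, ht, htt⟩ := peel_one (Z := V (rho a b x y) n') (ρ := rho a b x y n')
    (by rw [V_natDegree]; positivity) m (by rw [(h.Bb_deg hc hP _ _).1, hm]) (N + 1) r _ hrel'
  have hcl : tower r (N + 1) (Bb P x y) = t.comp (V (rho a b x y) (N + 1 + m)) := by
    rw [← htt, ← hN, e3]
  obtain ⟨c', hc'⟩ := classify m (rho a b x y) r ht (by rw [(h.Bb_deg hc hP _ _).1, hm]) hcl
  have hlc := (h.Bb_deg hc hP x y).2
  rw [hc', leadingCoeff_mul, leadingCoeff_C, (V_monic _ _).leadingCoeff, mul_one] at hlc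
  rw [hc', hlc]

/-- the fibre constants are transported up to `c ^ 2` -/
lemma Rho_eq (ha : a ^ 2 - a + 2 = 0) (hab : a + b = 1) (hn : 1 ≤ n)
    (hqn : q < n) {c : K} (hc : c ≠ 0) (hP : Psi P ((0, 0), (0, 0), 1) = ((0, 0), (0, 0), c))
    {m : ℕ} (hm : q = 2 ^ m) (x y : K × K) :
    Rho (Psi P (x, y, 0)).1 (Psi P (x, y, 0)).2.1 =
      c ^ 2 * Rho ((F a)^[m] x) ((F b)^[m] y) := by
  have hrel := h.relation ha hab hn x y
  rw [h.Bb_eq ha hab hn hqn hc hP hm, h.Bb_eq ha hab hn hqn hc hP hm, mul_comp, C_comp,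
    rho_shift, ← V_add, add_comm m n, V_add, V_tower, ← X_comp (p := V (rho a b x y) m)] at hrel
  set r := rho a b (Psi P (x, y, 0)).1 (Psi P (x, y, 0)).2.1 with hr
  have h1 : C c * V (fun i => rho a b x y (i + m)) n = tower r n (C c * X) := by
    apply comp_left_cancel (W := V (rho a b x y) m) (by rw [V_natDegree]; positivity)
    rw [mul_comp, C_comp, V_tower, comp_assoc, mul_comp, C_comp]
    simpa only [X_comp] using hrel
  obtain ⟨n', hn'⟩ : ∃ n', n = n' + 1 := ⟨n - 1, by omega⟩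
  rw [hn'] at h1
  have h2 := compare_const n' _ r hc h1
  simp only [Nat.zero_add] at h2
  exact h2

end Com

end Pool.Agent.DMM
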