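import Pool.Agent.DMM.Main

/-!
# The only special subvariety containing the threefold is the whole space
-/

namespace Pool.Agent.DMM

open MvPolynomial

variable {K : Type*} [Field K]

lemma iter_smul_gen {W : Type*} [AddCommGroup W] [Module K W] {H : W → W} {q : ℕ}
    (hom : ∀ (t : K) (x : W), H (t • x) = t ^ q • H x) (N : ℕ) (t : K) (x : W) :
    H^[N] (t • x) = t ^ (q ^ N) • H^[N] x := by
  induction N with
  | zero => simp
  | succ N ih =>
    rw [Function.iterate_succ_apply', Function.iterate_succ_apply', ih, hom, ← pow_mul, pow_succ]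

lemma eval_add_of_hom_one {P : MvPolynomial (Fin 5) K} (hP : P.IsHomogeneous 1)
    (v w : Fin 5 → K) : eval (v + w) P = eval v P + eval w P := by
  have h : P ∈ homogeneousSubmodule (Fin 5) K 1 := hP
  rw [homogeneousSubmodule_one_eq_span_X] at h
  clear hP
  induction h using Submodule.span_induction with
  | mem x hx =>
    obtain ⟨i, rfl⟩ := hx
    simp
  | zero => simp
  | add x y _ _ hx hy => simp only [map_add, hx, hy]; ring
  | smul c x _ hx => simp only [smul_eval, hx]; ring

theorem special_eq_univ [CharZero K] [IsAlgClosed K] {a b : K} (ha : a ^ 2 - a + 2 = 0)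
    (hab : a + b = 1) (hb : b ^ 2 - b + 2 = 0) {Y : Set (PSpace K 5)} (hY : ZClosed Y)
    (hX : Xset K ⊆ Y) (hs : WeaklySpecial (fEndo ha hb) Y) : Y = Set.univ := by
  by_contra hne
  obtain ⟨Z, n, ψ, hZ, hYZ, hn, hinv, hmor, -, ⟨z, -, z', -, hzz'⟩, hninj, hcomm, i, j, hj,
    hpre⟩ := hs
  obtain rfl := invariant_eq_univ ha hab hb hZ (hX.trans hYZ) hn hinv
  obtain ⟨e, P, hP, hrep⟩ := global_rep hmor
  have hnz : ∀ v : Pt K, v ≠ 0 → Psi P v ≠ 0 := by
    intro v hv h0
    obtain ⟨h1, _⟩ := hrep (coords v) (coords_ne hv)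
    rw [vals_eq, h0] at h1
    apply h1
    funext k
    fin_cases k <;> rfl
  have hψ : ∀ (v : Pt K) (hv : v ≠ 0), ψ (pmk v hv) = pmk (Psi P v) (hnz v hv) := by
    intro v hv
    obtain ⟨h1, h2⟩ := hrep (coords v) (coords_ne hv)
    unfold pmk
    rw [h2]
    congr 1
    rw [vals_eq]
  have hfn := fun k => conj_iter (fun v hv => g_ne_zero ha hb hv) (fEndo_map ha hb) k
  -- the degree is at least two
  have he : 2 ≤ e := by
    by_contra hcon
    have he01 : e = 0 ∨ e = 1 := by omega
    rcases he01 with rfl | rfl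
    · apply hzz'
      obtain ⟨v, hv, rfl⟩ := exists_pmk z
      obtain ⟨v', hv', rfl⟩ := exists_pmk z'
      rw [hψ, hψ]
      congr 1
      simp only [Psi]
      congr 1
      funext k
      have h1 := (totalDegree_eq_zero_iff_eq_C).mp ((totalDegree_zero_iff_isHomogeneous _).mpr (hP k))
      rw [h1, eval_C, eval_C]
    · apply hninj
      intro p _ p' _ hpp
      obtain ⟨v, hv, rfl⟩ := exists_pmk p
      obtain ⟨v', hv', rfl⟩ := exists_pmk p'
      rw [hψ, hψ, pmk_eq_iff] at hpp
      obtain ⟨c, hc, hcv⟩ := hpp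
      rw [pmk_eq_iff]
      refine ⟨c, hc, ?_⟩
      by_contra hne'
      have h1 : v + (-c) • v' ≠ 0 := by
        intro h0
        apply hne'
        rw [neg_smul] at h0
        rw [← sub_eq_add_neg] at h0
        exact sub_eq_zero.mp h0
      apply hnz _ h1
      have h2 : Psi P (v + (-c) • v') = Psi P v + Psi P ((-c) • v') := by
        have h3 : coords (v + (-c) • v') = coords v + coords ((-c) • v') := by
          funext k; fin_cases k <;> rfl
        simp only [Psi, h3]
        have h4 : (fun k => eval (coords v + coords ((-c) • v')) (P k)) =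
            (fun k => eval (coords v) (P k)) + (fun k => eval (coords ((-c) • v')) (P k)) := by
          funext k
          exact eval_add_of_hom_one (hP k) _ _
        rw [h4]
        rfl
      rw [h2, Psi_smul hP, pow_one, hcv, neg_smul, add_neg_cancel]
  -- normalisation
  have hcomm' : ∀ v : Pt K, v ≠ 0 → ∃ c : K,
      (g a b)^[n] (Psi P v) = c • Psi P ((g a b)^[n] v) := by
    intro v hv
    obtain ⟨h1, h2⟩ := hfn n v hv
    obtain ⟨h3, h4⟩ := hfn n (Psi P v) (hnz v hv)
    have h5 := hcomm (pmk v hv) (Set.mem_univ _)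
    rw [h2, hψ, hψ, h4] at h5
    obtain ⟨c, _, hc⟩ := (pmk_eq_iff _ _).mp h5.symm
    exact ⟨c, hc⟩
  obtain ⟨s, hs0, hcom⟩ := exists_com ha hb hn hP hnz hcomm'
  set P' : Fin 5 → MvPolynomial (Fin 5) K := fun i => C s * P i with hP'
  have hPs : ∀ v : Pt K, Psi P' v = s • Psi P v := by
    intro v
    simp only [Psi, hP', map_mul, eval_C]
    rfl
  have hψ' : ∀ (v : Pt K) (hv : v ≠ 0), ψ (pmk v hv) = pmk (Psi P' v) (hcom.nz v hv) := by
    intro v hv
    rw [hψ, pmk_eq_iff]
    refine ⟨s⁻¹, inv_ne_zero hs0, ?_⟩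
    rw [hPs, smul_smul, inv_mul_cancel₀ hs0, one_smul]
  -- pass to a larger iterate
  have hcom2 : Com a b (n * (e + 1)) e P' := by
    refine ⟨hcom.hom, hcom.nz, ?_⟩
    intro v
    have h1 : Function.Commute (Psi P') ((g a b)^[n]) := hcom.comm
    have h2 := (h1.iterate_right (e + 1)) v
    rw [← Function.iterate_mul] at h2
    exact h2
  obtain ⟨P₁, hP₁, hvan⟩ := exists_form hY hX hne
  have hψn := fun k => conj_iter hcom.nz hψ' k
  have hzero : Psi P' 0 = 0 := hcom.zero (by omega)
  have hzero' : ∀ k, (Psi P')^[k] 0 = 0 := by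
    intro k
    induction k with
    | zero => rfl
    | succ k ih => rw [Function.iterate_succ_apply', ih, hzero]
  apply cone_contradiction ha hab hcom2 (by nlinarith) he (by nlinarith) (Xcone_sub_coneOf hX)
    hP₁ hvan hj (i := i)
  intro v hv
  by_cases hv0 : v = 0
  · refine ⟨0, fun h => absurd rfl h, ?_⟩
    rw [hv0, hzero', hzero']
  · have h1 : ψ^[i + j] (pmk v hv0) ∈ ψ^[i] '' Y := by
      rw [← hpre]; exact ⟨_, hv hv0, rfl⟩
    obtain ⟨p', hp', hpe⟩ := h1
    obtain ⟨v₁, hv₁, rfl⟩ := exists_pmk p'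
    obtain ⟨h2, h3⟩ := hψn i v₁ hv₁
    obtain ⟨h4, h5⟩ := hψn (i + j) v hv0
    rw [h3, h5] at hpe
    obtain ⟨c, hc, hcv⟩ := (pmk_eq_iff _ _).mp hpe.symm
    obtain ⟨μ, hμ⟩ := IsAlgClosed.exists_pow_nat_eq c (n := e ^ i) (by positivity)
    have hμ0 : μ ≠ 0 := by
      rintro rfl
      rw [zero_pow (by positivity)] at hμ
      exact hc hμ.symm
    refine ⟨μ • v₁, ?_, ?_⟩
    · intro hne'
      have : pmk (μ • v₁) hne' = pmk v₁ hv₁ := (pmk_eq_iff _ _).mpr ⟨μ, hμ0, rfl⟩
      rw [this]
      exact hp'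
    · rw [iter_smul_gen (Psi_smul hcom.hom), hμ, hcv]

end Pool.Agent.DMM
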