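import Pool.Agent.DMM.Slopes

/-!
# Multipliers of maps commuting with the Lattès lifts
-/

namespace Pool.Agent.DMM

open Polynomial

variable {K : Type*} [Field K]

/-- powers of the two roots -/
lemma exists_int_coords {a b : K} (ha : a ^ 2 - a + 2 = 0) (hb : b ^ 2 - b + 2 = 0) (M : ℕ) :
    ∃ u v : ℤ, Even u ∧ Odd v ∧ a ^ (M + 1) = u + v * a ∧ b ^ (M + 1) = u + v * b := by
  induction M with
  | zero => exact ⟨0, 1, by simp, by simp, by simp, by simp⟩
  | succ M ih =>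
    obtain ⟨u, v, hu, hv, h1, h2⟩ := ih
    refine ⟨-2 * v, u + v, ?_, hu.add_odd hv, ?_, ?_⟩
    · exact ⟨-v, by ring⟩
    · rw [pow_succ, h1]
      push_cast
      linear_combination (v : K) * ha
    · rw [pow_succ, h2]
      push_cast
      linear_combination (v : K) * hb

lemma pow_ne_pow [CharZero K] {a b : K} (ha : a ^ 2 - a + 2 = 0) (hab : a + b = 1) {M : ℕ}
    (hM : 1 ≤ M) : a ^ M ≠ b ^ M := by
  have hb := (beta_facts ha hab).1
  obtain ⟨M', rfl⟩ : ∃ M', M = M' + 1 := ⟨M - 1, by omega⟩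
  obtain ⟨u, v, _, hv, h1, h2⟩ := exists_int_coords ha hb M'
  intro h
  rw [h1, h2] at h
  have hv0 : (v : K) ≠ 0 := by
    have : v ≠ 0 := by rintro rfl; simp at hv
    exact_mod_cast this
  have h3 : (v : K) * (a - b) = 0 := by linear_combination h
  have h4 : a - b = 0 := by
    rcases mul_eq_zero.mp h3 with h | h
    · exact absurd h hv0
    · exact h
  have h5 : a = 1 / 2 := by linear_combination (1 / 2 : K) * h4 + (1 / 2 : K) * hab
  rw [h5] at ha
  norm_num at ha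

lemma F_iter_one_zero (e s : K) (m : ℕ) : (F e)^[m] (s, 0) = (s ^ (2 ^ m), 0) := by
  induction m with
  | zero => simp
  | succ m ih =>
    rw [Function.iterate_succ_apply', ih]
    simp only [F, Prod.mk.injEq]
    constructor <;> ring

lemma Germ.map_F {e : K} {u : K[X] × K[X]} {s : K} (h : Germ u s) :
    Germ (F (C e) u) (e ^ 2 * s) := by
  obtain ⟨h1, h2, h3⟩ := h
  have e0 : (F (C e) u).1.coeff 0 = u.1.coeff 0 ^ 2 := by
    simp only [F]
    rw [coeff_zero_eq_eval_zero, eval_pow, eval_sub, eval_mul, ← coeff_zero_eq_eval_zero,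
      ← coeff_zero_eq_eval_zero, ← coeff_zero_eq_eval_zero, h2]
    ring
  refine ⟨?_, ?_, ?_⟩
  · rw [e0]; exact pow_ne_zero 2 h1
  · simp only [F]
    rw [← C_pow, coeff_C_mul, mul_coeff_zero, h2]; ring
  · rw [e0]
    simp only [F]
    rw [← C_pow, coeff_C_mul, mul_coeff_one, h2, h3]; ring

lemma Germ.iter_F {e : K} {u : K[X] × K[X]} {s : K} (h : Germ u s) (m : ℕ) :
    Germ ((F (C e))^[m] u) (e ^ (2 * m) * s) := by
  induction m with
  | zero => simpa using h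
  | succ m ih =>
    rw [Function.iterate_succ_apply']
    have := ih.map_F (e := e)
    rwa [← mul_assoc, ← pow_add, show 2 + 2 * m = 2 * (m + 1) by ring] at this

lemma eval_F_iter (e : K) (u : K[X] × K[X]) (m : ℕ) (t : K) :
    (((F (C e))^[m] u).1.eval t, ((F (C e))^[m] u).2.eval t) =
      (F e)^[m] (u.1.eval t, u.2.eval t) := by
  have := F_iter_map (evalRingHom t) (C e) m u
  simp only [coe_evalRingHom, eval_C] at this
  exact this.symm

/-- maps of the plane whose second coordinate is, up to sign, `c` times that of an iterate -/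
structure Good (e c h₀ : K) (m : ℕ) (H : K × K → K × K) : Prop where
  poly : ∀ u : K[X] × K[X], ∃ U : K[X] × K[X], ∀ t, H (u.1.eval t, u.2.eval t) =
    (U.1.eval t, U.2.eval t)
  hom : ∀ (t : K) (x : K × K), H (t • x) = t ^ (2 ^ m) • H x
  one : H (1, 0) = (h₀, 0)
  ne : h₀ ≠ 0
  sq : ∀ x, (H x).2 ^ 2 = c ^ 2 * ((F e)^[m] x).2 ^ 2

lemma Good.germ [Infinite K] {e c h₀ : K} {m : ℕ} {H : K × K → K × K} (hH : Good e c h₀ m H)
    {u U : K[X] × K[X]} (hU : ∀ t, H (u.1.eval t, u.2.eval t) = (U.1.eval t, U.2.eval t)) {s : K}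
    (hu : Germ u s) : ∃ s', Germ U s' ∧ s' ^ 2 = (c ^ 2 * e ^ (4 * m) / h₀ ^ 2) * s ^ 2 := by
  have hne := hH.ne
  have hu0 := hu.1
  have e0 : (u.1.eval 0, u.2.eval 0) = u.1.coeff 0 • ((1 : K), (0 : K)) := by
    rw [← coeff_zero_eq_eval_zero, ← coeff_zero_eq_eval_zero, hu.2.1]
    simp
  have hU0 : U.1.coeff 0 = u.1.coeff 0 ^ (2 ^ m) * h₀ := by
    have h1 := hU 0
    rw [e0, hH.hom, hH.one] at h1
    have h2 := congrArg Prod.fst h1
    rw [coeff_zero_eq_eval_zero]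
    exact h2.symm
  have hV := hu.iter_F (e := e) m
  have hV0 : ((F (C e))^[m] u).1.coeff 0 = u.1.coeff 0 ^ (2 ^ m) := by
    have h1 := eval_F_iter e u m 0
    rw [e0] at h1
    have h2 : (u.1.coeff 0 • ((1 : K), (0 : K))) = (u.1.coeff 0, 0) := by simp
    rw [h2, F_iter_one_zero] at h1
    rw [coeff_zero_eq_eval_zero]
    exact congrArg Prod.fst h1
  have hsq : U.2 ^ 2 = (C c * ((F (C e))^[m] u).2) ^ 2 := by
    apply Polynomial.funext
    intro t
    rw [eval_pow, eval_pow, eval_mul, eval_C, mul_pow]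
    have h1 := hH.sq (u.1.eval t, u.2.eval t)
    rw [hU, ← eval_F_iter] at h1
    exact h1
  obtain ⟨ε, hε, hUε⟩ : ∃ ε : K, ε ^ 2 = 1 ∧ U.2 = C (ε * c) * ((F (C e))^[m] u).2 := by
    rcases sq_eq_sq_iff_eq_or_eq_neg.mp hsq with h | h
    · exact ⟨1, by norm_num, by rw [h, one_mul]⟩
    · exact ⟨-1, by norm_num, by rw [h, neg_one_mul, C_neg, neg_mul]⟩
  refine ⟨ε * c * e ^ (2 * m) * s / h₀, ⟨?_, ?_, ?_⟩, ?_⟩
  · rw [hU0]; exact mul_ne_zero (pow_ne_zero _ hu0) hne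
  · rw [hUε, coeff_C_mul, hV.2.1, mul_zero]
  · rw [hUε, coeff_C_mul, hV.2.2, hV0, hU0]
    field_simp
  · have : (ε * c * e ^ (2 * m) * s / h₀) ^ 2 = ε ^ 2 * (c ^ 2 * e ^ (4 * m) / h₀ ^ 2) * s ^ 2 := by
      field_simp
      ring
    rw [this, hε, one_mul]

lemma Good.iter [Infinite K] {e c h₀ : K} {m : ℕ} {H : K × K → K × K} (hH : Good e c h₀ m H)
    {u : K[X] × K[X]} {s : K} (hu : Germ u s) (N : ℕ) :
    ∃ (U : K[X] × K[X]) (s' : K), (∀ t, H^[N] (u.1.eval t, u.2.eval t) = (U.1.eval t, U.2.eval t)) ∧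
      Germ U s' ∧ s' ^ 2 = (c ^ 2 * e ^ (4 * m) / h₀ ^ 2) ^ N * s ^ 2 := by
  induction N with
  | zero => exact ⟨u, s, fun t => rfl, hu, by simp⟩
  | succ N ih =>
    obtain ⟨U, s', hU, hg, hs⟩ := ih
    obtain ⟨U', hU'⟩ := hH.poly U
    obtain ⟨s'', hg', hs'⟩ := hH.germ hU' hg
    refine ⟨U', s'', ?_, hg', ?_⟩
    · intro t
      rw [Function.iterate_succ_apply', hU, hU']
    · rw [hs', hs, pow_succ]; ring

/-- The main contradiction: the orbit of the surface cannot stay in a hypersurface. -/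
theorem pair_contradiction [CharZero K] {a b c h₀ h₀' : K} (ha : a ^ 2 - a + 2 = 0)
    (hab : a + b = 1) {m : ℕ} (hm : 1 ≤ m) (hc : c ≠ 0) {H H' : K × K → K × K}
    (hH : Good a c h₀ m H) (hH' : Good b c h₀' m H') {D : ℕ} (hD : 2 ≤ D) (hh : h₀ ^ D = h₀)
    (hh' : h₀' ^ D = h₀') {P : MvPolynomial (Fin 5) K} (hP : P ≠ 0) {i j : ℕ} (hj : 1 ≤ j)
    (hvan : ∀ (l : ℕ) (t t' w z : K), MvPolynomial.eval
      (coords (t • H^[i + j * l] (1, z), t' • H'^[i + j * l] (z - 1, z), w)) P = 0) : False := by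
  obtain ⟨hb, _⟩ := beta_facts ha hab
  obtain ⟨ha0, _, _, _⟩ := ne_facts ha
  obtain ⟨hb0, _, _, _⟩ := ne_facts hb
  obtain ⟨S, hSfin, hS⟩ := slopes_finite hP
  set μ := c ^ 2 * a ^ (4 * m) / h₀ ^ 2 with hμ
  set μ' := c ^ 2 * b ^ (4 * m) / h₀' ^ 2 with hμ'
  have hμ0 : μ ≠ 0 := by
    rw [hμ]
    exact div_ne_zero (mul_ne_zero (pow_ne_zero _ hc) (pow_ne_zero _ ha0)) (pow_ne_zero _ hH.ne)
  have hμ0' : μ' ≠ 0 := by
    rw [hμ']
    exact div_ne_zero (mul_ne_zero (pow_ne_zero _ hc) (pow_ne_zero _ hb0)) (pow_ne_zero _ hH'.ne)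
  have g1 : Germ ((1, X) : K[X] × K[X]) 1 := by
    refine ⟨?_, ?_, ?_⟩ <;> simp
  have g2 : Germ ((X - 1, X) : K[X] × K[X]) (-1) := by
    refine ⟨?_, ?_, ?_⟩ <;> simp
  have key : ∀ l : ℕ, (μ' / μ) ^ (i + j * l) ∈ (fun z => z ^ 2) '' S := by
    intro l
    obtain ⟨U, s, hU, hg, hs⟩ := hH.iter g1 (i + j * l)
    obtain ⟨U', s', hU', hg', hs'⟩ := hH'.iter g2 (i + j * l)
    rw [one_pow, mul_one] at hs
    rw [show (-1 : K) ^ 2 = 1 by norm_num, mul_one] at hs'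
    have hs0 : s ≠ 0 := by
      rintro rfl
      rw [zero_pow (by norm_num)] at hs
      exact pow_ne_zero _ hμ0 hs.symm
    refine ⟨s' / s, hS U U' s s' hs0 hg hg' ?_, ?_⟩
    · intro t t' w z
      have h1 := hvan l t t' w z
      have h2 := hU z
      have h3 := hU' z
      simp only [eval_one, eval_X, eval_sub] at h2 h3
      rw [← h2, ← h3]
      exact h1
    · simp only
      rw [div_pow, hs, hs', ← div_pow]
  have hnotinj : ¬ Function.Injective (fun l : ℕ => (μ' / μ) ^ (i + j * l)) := by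
    intro hinj
    have h1 : (Set.range (fun l : ℕ => (μ' / μ) ^ (i + j * l))).Finite :=
      (hSfin.image _).subset (by rintro _ ⟨l, rfl⟩; exact key l)
    exact (Set.infinite_range_of_injective hinj) h1
  have hex : ∃ l l' : ℕ, l < l' ∧ (μ' / μ) ^ (i + j * l) = (μ' / μ) ^ (i + j * l') := by
    simp only [Function.Injective] at hnotinj
    push Not at hnotinj
    obtain ⟨l, l', h1, h2⟩ := hnotinj
    rcases lt_or_gt_of_ne h2 with h | h
    · exact ⟨l, l', h, h1⟩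
    · exact ⟨l', l, h, h1.symm⟩
  obtain ⟨l, l', hll, heq⟩ := hex
  obtain ⟨r, rfl⟩ : ∃ r, l' = l + (r + 1) := ⟨l' - l - 1, by omega⟩
  have hratio0 : μ' / μ ≠ 0 := div_ne_zero hμ0' hμ0
  have h1 : (μ' / μ) ^ (j * (r + 1)) = 1 := by
    have h2 : (μ' / μ) ^ (i + j * l) * (μ' / μ) ^ (j * (r + 1)) = (μ' / μ) ^ (i + j * l) * 1 := by
      rw [← pow_add, mul_one, heq]
      congr 1; ring
    exact mul_left_cancel₀ (pow_ne_zero _ hratio0) h2
  have hroot : h₀ ^ (D - 1) = 1 := by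
    have h2 : h₀ ^ (D - 1) * h₀ = 1 * h₀ := by
      rw [← pow_succ, Nat.sub_add_cancel (by omega), hh, one_mul]
    exact mul_right_cancel₀ hH.ne h2
  have hroot' : h₀' ^ (D - 1) = 1 := by
    have h2 : h₀' ^ (D - 1) * h₀' = 1 * h₀' := by
      rw [← pow_succ, Nat.sub_add_cancel (by omega), hh', one_mul]
    exact mul_right_cancel₀ hH'.ne h2
  have h3 : μ' / μ = (b ^ (4 * m) / a ^ (4 * m)) * (h₀ ^ 2 / h₀' ^ 2) := by
    rw [hμ, hμ']
    have := hH.ne
    have := hH'.ne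
    field_simp
  have h4 : (μ' / μ) ^ (D - 1) = b ^ (4 * m * (D - 1)) / a ^ (4 * m * (D - 1)) := by
    rw [h3, mul_pow, div_pow, div_pow, ← pow_mul, ← pow_mul, ← pow_mul, ← pow_mul,
      mul_comm 2 (D - 1), pow_mul h₀, pow_mul h₀', hroot, hroot']
    simp
  have h5 : (μ' / μ) ^ ((D - 1) * (j * (r + 1))) = 1 := by
    rw [mul_comm, pow_mul, h1, one_pow]
  rw [pow_mul, h4, div_pow, ← pow_mul, ← pow_mul, div_eq_one_iff_eq (pow_ne_zero _ ha0)] at h5
  apply pow_ne_pow ha hab (M := 4 * m * (D - 1) * (j * (r + 1))) _ h5.symm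
  have : 0 < 4 * m * (D - 1) * (j * (r + 1)) := by
    have : 0 < D - 1 := by omega
    positivity
  omega

end Pool.Agent.DMM
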