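import Mathlib

/-!
# A degree two Lattès map with complex multiplication by `√-7`

`F a (u₀, u₁) = ((u₀ - (a + 1) u₁) ^ 2, a ^ 2 u₀ u₁)`, where `a ^ 2 - a + 2 = 0`.
-/

namespace Pool.Agent.DMM

/-- The lift of the Lattès map. -/
def F {R : Type*} [CommRing R] (a : R) (u : R × R) : R × R :=
  ((u.1 - (a + 1) * u.2) ^ 2, a ^ 2 * (u.1 * u.2))

/-- the determinant of two vectors -/
def wedge {R : Type*} [CommRing R] (u v : R × R) : R := u.1 * v.2 - u.2 * v.1

/-- A surjective self-map is injective on every finite totally invariant set. -/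
lemma injOn_of_totally_invariant {T : Type*} {θ : T → T} (hθ : Function.Surjective θ)
    {Z : Set T} (hZ : Z.Finite) (h : ∀ z, z ∈ Z ↔ θ z ∈ Z) : Set.InjOn θ Z := by
  have hs : Set.SurjOn θ Z Z := by
    intro z hz
    obtain ⟨z', hz'⟩ := hθ z
    exact ⟨z', (h z').mpr (hz' ▸ hz), hz'⟩
  have hm : Set.MapsTo θ Z Z := fun z hz => (h z).mp hz
  exact hZ.injOn_of_encard_image_eq (by
    have := hs.image_eq_of_mapsTo hm
    rw [this])

section ring

variable {R : Type*} [CommRing R]

lemma F_smul (a t : R) (u : R × R) : F a (t • u) = t ^ 2 • F a u := by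
  simp only [F, Prod.smul_fst, Prod.smul_snd, smul_eq_mul, Prod.smul_mk, Prod.mk.injEq]
  constructor <;> ring

lemma F_iter_smul (a t : R) (n : ℕ) (u : R × R) :
    (F a)^[n] (t • u) = t ^ (2 ^ n) • (F a)^[n] u := by
  induction n with
  | zero => simp
  | succ n ih =>
    rw [Function.iterate_succ_apply', Function.iterate_succ_apply', ih, F_smul, ← pow_mul,
      ← pow_succ]

lemma wedge_F (a : R) (u v : R × R) :
    wedge (F a u) (F a v) = a ^ 2 * (u.1 * v.1 - (a + 1) ^ 2 * (u.2 * v.2)) * wedge u v := by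
  simp only [F, wedge]; ring

lemma F_map {S : Type*} [CommRing S] (φ : R →+* S) (a : R) (u : R × R) :
    F (φ a) (Prod.map φ φ u) = Prod.map φ φ (F a u) := by
  simp [F]

lemma F_iter_map {S : Type*} [CommRing S] (φ : R →+* S) (a : R) (n : ℕ) (u : R × R) :
    (F (φ a))^[n] (Prod.map φ φ u) = Prod.map φ φ ((F a)^[n] u) := by
  induction n with
  | zero => simp
  | succ n ih => rw [Function.iterate_succ_apply', Function.iterate_succ_apply', ih, F_map]

lemma F_zero (a : R) : F a 0 = 0 := by simp [F, Prod.ext_iff]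

lemma F_neg (a : R) (u : R × R) : F a (-u) = F a u := by
  simp only [F, Prod.fst_neg, Prod.snd_neg, Prod.mk.injEq]
  constructor <;> ring

end ring

section field

variable {K : Type*} [Field K]

/-- the quadratic relation has no solutions among these values -/
lemma ne_facts [CharZero K] {a : K} (ha : a ^ 2 - a + 2 = 0) :
    a ≠ 0 ∧ a + 1 ≠ 0 ∧ a + 2 ≠ 0 ∧ (a + 1) ^ 2 ≠ 1 := by
  have h0 : a ≠ 0 := by rintro rfl; norm_num at ha
  have h2 : a + 2 ≠ 0 := by
    intro h
    have : a = -2 := by linear_combination h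
    rw [this] at ha; norm_num at ha
  refine ⟨h0, ?_, h2, ?_⟩
  · intro h
    have : a = -1 := by linear_combination h
    rw [this] at ha; norm_num at ha
  · intro h
    have : a * (a + 2) = 0 := by linear_combination h
    rcases mul_eq_zero.mp this with h | h
    · exact h0 h
    · exact h2 h

lemma F_eq_zero [CharZero K] {a : K} (ha : a ^ 2 - a + 2 = 0) {u : K × K} (h : F a u = 0) :
    u = 0 := by
  obtain ⟨h0, h1, _, _⟩ := ne_facts ha
  simp only [F, Prod.ext_iff, Prod.fst_zero, Prod.snd_zero] at h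
  obtain ⟨ha1, ha2⟩ := h
  have e1 : u.1 - (a + 1) * u.2 = 0 := by simpa using ha1
  have e2 : u.1 * u.2 = 0 := by simpa [h0] using ha2
  rcases mul_eq_zero.mp e2 with h | h
  · have : u.2 = 0 := by
      have h3 : (a + 1) * u.2 = 0 := by linear_combination h - e1
      simpa [h1] using h3
    exact Prod.ext h this
  · have : u.1 = 0 := by rw [h] at e1; simpa using e1
    exact Prod.ext this h

lemma F_iter_eq_zero [CharZero K] {a : K} (ha : a ^ 2 - a + 2 = 0) (n : ℕ) {u : K × K}
    (h : (F a)^[n] u = 0) : u = 0 := by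
  induction n with
  | zero => simpa using h
  | succ n ih =>
    rw [Function.iterate_succ_apply'] at h
    exact ih (F_eq_zero ha h)

lemma F_surjective [CharZero K] [IsAlgClosed K] {a : K} (ha : a ^ 2 - a + 2 = 0) :
    Function.Surjective (F a) := by
  obtain ⟨h0, h1, _, _⟩ := ne_facts ha
  rintro ⟨v₀, v₁⟩
  obtain ⟨s, hs⟩ := IsAlgClosed.exists_pow_nat_eq v₀ (n := 2) (by norm_num)
  obtain ⟨D, hD⟩ := IsAlgClosed.exists_pow_nat_eq (v₀ + 4 * (a + 1) * v₁ / a ^ 2) (n := 2)
    (by norm_num)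
  refine ⟨((D + s) / 2, (D - s) / (2 * (a + 1))), ?_⟩
  simp only [F, Prod.mk.injEq]
  constructor
  · rw [← hs]; field_simp; ring
  · have : (D + s) / 2 * ((D - s) / (2 * (a + 1))) = (D ^ 2 - s ^ 2) / (4 * (a + 1)) := by
      field_simp; ring
    rw [this, hD, hs]
    field_simp; ring

lemma finite_sq_eq (c : K) : {s : K | s ^ 2 = c}.Finite := by
  by_cases h : ∃ s₀ : K, s₀ ^ 2 = c
  · obtain ⟨s₀, hs₀⟩ := h
    apply Set.Finite.subset (Set.toFinite {s₀, -s₀})
    intro s hs
    simp only [Set.mem_ofPred_eq] at hs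
    rw [← hs₀] at hs
    simpa using sq_eq_sq_iff_eq_or_eq_neg.mp hs
  · push Not at h
    have : {s : K | s ^ 2 = c} = ∅ := by
      ext s; simp [h s]
    rw [this]; exact Set.finite_empty

lemma F_fibre_finite [CharZero K] {a : K} (ha : a ^ 2 - a + 2 = 0) (v : K × K) :
    {u | F a u = v}.Finite := by
  obtain ⟨h0, h1, _, _⟩ := ne_facts ha
  have h := ((finite_sq_eq v.1).prod (finite_sq_eq (v.1 + 4 * (a + 1) * v.2 / a ^ 2))).image
    (fun p : K × K => ((p.2 + p.1) / 2, (p.2 - p.1) / (2 * (a + 1))))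
  apply h.subset
  intro u hu
  simp only [Set.mem_ofPred_eq] at hu
  refine ⟨(u.1 - (a + 1) * u.2, u.1 + (a + 1) * u.2), ?_, ?_⟩
  · rw [Set.mem_prod]
    refine ⟨?_, ?_⟩
    · simp only [Set.mem_ofPred_eq]; rw [← hu]; rfl
    · simp only [Set.mem_ofPred_eq]; rw [← hu]
      simp only [F]
      field_simp; ring
  · apply Prod.ext
    · simp only; ring
    · simp only; field_simp; ring

lemma F_iter_fibre_finite [CharZero K] {a : K} (ha : a ^ 2 - a + 2 = 0) (n : ℕ) (v : K × K) :
    {u | (F a)^[n] u = v}.Finite := by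
  induction n generalizing v with
  | zero => simp
  | succ n ih =>
    have : {u | (F a)^[n + 1] u = v} = ⋃ w ∈ {w | F a w = v}, {u | (F a)^[n] u = w} := by
      ext u
      simp only [Set.mem_ofPred_eq, Set.mem_iUnion, Function.iterate_succ_apply']
      constructor
      · intro h; exact ⟨_, h, rfl⟩
      · rintro ⟨w, hw, h⟩; rw [h, hw]
    rw [this]
    exact (F_fibre_finite ha v).biUnion fun w _ => ih w

lemma F_iter_line1 (a s : K) (n : ℕ) : ((F a)^[n] (s, 0)).2 = 0 := by
  have : ∀ n, ∃ t : K, (F a)^[n] (s, 0) = (t, 0) := by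
    intro n
    induction n with
    | zero => exact ⟨s, rfl⟩
    | succ n ih =>
      obtain ⟨t, ht⟩ := ih
      exact ⟨t ^ 2, by rw [Function.iterate_succ_apply', ht]; simp [F]⟩
  obtain ⟨t, ht⟩ := this n
  rw [ht]

lemma F_iter_line2 (a s : K) (n : ℕ) : ((F a)^[n] (s, s)).1 = ((F a)^[n] (s, s)).2 := by
  have : ∀ n, ∃ t : K, (F a)^[n] (s, s) = (t, t) := by
    intro n
    induction n with
    | zero => exact ⟨s, rfl⟩
    | succ n ih =>
      obtain ⟨t, ht⟩ := ih
      refine ⟨a ^ 2 * t ^ 2, ?_⟩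
      rw [Function.iterate_succ_apply', ht]
      simp only [F, Prod.mk.injEq]
      constructor <;> ring
  obtain ⟨t, ht⟩ := this n
  rw [ht]

/-- there is no periodic critical vector -/
lemma periodic_not_critical [CharZero K] {a : K} (ha : a ^ 2 - a + 2 = 0) {n : ℕ} (hn : 1 ≤ n)
    {v : K × K} (hv : v ≠ 0) (h : (F a)^[n] v = v) : v.1 * v.1 - (a + 1) ^ 2 * (v.2 * v.2) ≠ 0 := by
  obtain ⟨h0, h1, hne2, hne3⟩ := ne_facts ha
  intro hc
  have hnn : (F a)^[n + n] v = v := by
    rw [Function.iterate_add_apply, h, h]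
  obtain ⟨k, hk⟩ : ∃ k, n + n = k + 2 := ⟨n + n - 2, by omega⟩
  rw [hk, Function.iterate_add_apply] at hnn
  have hfac : (v.1 - (a + 1) * v.2) * (v.1 + (a + 1) * v.2) = 0 := by linear_combination hc
  rcases mul_eq_zero.mp hfac with hv1 | hv1
  · have hv1' : v.1 = (a + 1) * v.2 := by linear_combination hv1
    have h2 : (F a)^[2] v = ((a + 1) ^ 4 * a ^ 4 * v.2 ^ 4, 0) := by
      simp only [Function.iterate_succ_apply', Function.iterate_zero_apply, F, Prod.mk.injEq]
      constructor
      · rw [hv1']; ring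
      · rw [hv1']; ring
    rw [h2] at hnn
    have h3 := F_iter_line1 a ((a + 1) ^ 4 * a ^ 4 * v.2 ^ 4) k
    rw [hnn] at h3
    apply hv
    apply Prod.ext
    · rw [hv1', h3]; simp
    · exact h3
  · have hv1' : v.1 = -(a + 1) * v.2 := by linear_combination hv1
    have h2 : (F a)^[2] v = (-4 * a ^ 4 * (a + 1) ^ 3 * v.2 ^ 4, -4 * a ^ 4 * (a + 1) ^ 3 * v.2 ^ 4) := by
      simp only [Function.iterate_succ_apply', Function.iterate_zero_apply, F, Prod.mk.injEq]
      constructor
      · rw [hv1']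
        have key : (a + 1) * (4 + a ^ 2) ^ 2 = -4 * a ^ 4 := by
          linear_combination (a ^ 3 + 6 * a ^ 2 + 12 * a + 8) * ha
        linear_combination (a + 1) ^ 3 * v.2 ^ 4 * key
      · rw [hv1']; ring
    rw [h2] at hnn
    have h3 := F_iter_line2 a (-4 * a ^ 4 * (a + 1) ^ 3 * v.2 ^ 4) k
    rw [hnn] at h3
    have h4 : (a + 2) * v.2 = 0 := by linear_combination hv1' - h3
    have h5 : v.2 = 0 := by simpa [hne2] using h4
    apply hv
    apply Prod.ext
    · rw [hv1', h5]; simp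
    · exact h5

end field

end Pool.Agent.DMM
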