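import Pool.Agent.DMM.Example

/-!
# Special subvarieties containing the threefold
-/

namespace Pool.Agent.DMM

open MvPolynomial

variable {K : Type*} [Field K]

lemma univ_closed {m : ℕ} : ZClosed (Set.univ : Set (PSpace K m)) :=
  ⟨∅, by simp, by simp⟩

lemma empty_closed {m : ℕ} : ZClosed (∅ : Set (PSpace K m)) :=
  ⟨{1}, by rintro P rfl; exact ⟨0, isHomogeneous_one _ _⟩, by simp⟩

lemma g_surjective [CharZero K] [IsAlgClosed K] {a b : K} (ha : a ^ 2 - a + 2 = 0)
    (hb : b ^ 2 - b + 2 = 0) (v : Pt K) : ∃ u, g a b u = v := by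
  obtain ⟨x, hx⟩ := F_surjective ha v.1
  obtain ⟨y, hy⟩ := F_surjective hb v.2.1
  obtain ⟨w, hw⟩ := g_fibre_surj (a := a) (b := b) x y v.2.2
  exact ⟨(x, y, w), by rw [hw, hx, hy]⟩

lemma g_zero (a b : K) : g a b 0 = 0 := by
  have h1 : F a (0 : K × K) = 0 := F_zero a
  have h2 : F b (0 : K × K) = 0 := F_zero b
  change (F a 0, F b 0, (0 : K) ^ 2 + Rho 0 0) = 0
  rw [h1, h2]
  simp [Rho, Prod.ext_iff]

lemma g_iter_zero (a b : K) (n : ℕ) : (g a b)^[n] 0 = 0 := by
  induction n with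
  | zero => rfl
  | succ n ih => rw [Function.iterate_succ_apply', ih, g_zero]

lemma g_smul (a b s : K) (v : Pt K) : g a b (s • v) = s ^ 2 • g a b v := by
  have h1 := F_smul a s v.1
  have h2 := F_smul b s v.2.1
  change (F a (s • v.1), F b (s • v.2.1), (s * v.2.2) ^ 2 + Rho (s • v.1) (s • v.2.1)) =
    (s ^ 2 • F a v.1, s ^ 2 • F b v.2.1, s ^ 2 * (v.2.2 ^ 2 + Rho v.1 v.2.1))
  rw [h1, h2]
  simp only [Prod.mk.injEq, true_and, Rho, Prod.smul_snd, smul_eq_mul]
  ring

lemma g_iter_smul (a b s : K) (n : ℕ) (v : Pt K) :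
    (g a b)^[n] (s • v) = s ^ (2 ^ n) • (g a b)^[n] v := by
  induction n with
  | zero => simp
  | succ n ih =>
    rw [Function.iterate_succ_apply', Function.iterate_succ_apply', ih, g_smul, ← pow_mul,
      ← pow_succ]

/-- the whole space is special, via the endomorphism itself -/
theorem univ_special [CharZero K] [IsAlgClosed K] {a b : K} (ha : a ^ 2 - a + 2 = 0)
    (hb : b ^ 2 - b + 2 = 0) : WeaklySpecial (fEndo ha hb) Set.univ := by
  have hsurj : Function.Surjective (fEndo ha hb).map := by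
    intro p
    obtain ⟨v, hv, rfl⟩ := exists_pmk p
    obtain ⟨u, hu⟩ := g_surjective ha hb v
    have hu0 : u ≠ 0 := by
      rintro rfl
      rw [g_zero] at hu
      exact hv hu.symm
    refine ⟨pmk u hu0, ?_⟩
    rw [fEndo_map]
    congr 1
  have n1 : (((1, 0), (0, 0), 0) : Pt K) ≠ 0 := by
    intro h
    have := congrArg (fun v : Pt K => v.1.1) h
    simp at this
  have n3 : (((1, 0), (0, 0), 1) : Pt K) ≠ 0 := by
    intro h
    have := congrArg (fun v : Pt K => v.1.1) h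
    simp at this
  have n4 : (((1, 0), (0, 0), -1) : Pt K) ≠ 0 := by
    intro h
    have := congrArg (fun v : Pt K => v.1.1) h
    simp at this
  refine ⟨Set.univ, 1, (fEndo ha hb).map, univ_closed, le_rfl, le_rfl, ?_, ?_, ?_, ?_, ?_, ?_, ?_⟩
  · rw [Function.iterate_one, Set.image_univ, hsurj.range_eq]
  · intro z _
    refine ⟨Set.univ, 2, (fEndo ha hb).poly, ?_, Set.mem_univ _, (fEndo ha hb).homogeneous, ?_⟩
    · rw [Set.compl_univ]; exact empty_closed
    · intro z' _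
      exact ⟨(fEndo ha hb).no_zero _ z'.rep_nonzero, rfl⟩
  · exact fun _ _ => Set.mem_univ _
  · refine ⟨pmk _ n1, Set.mem_univ _, pmk _ point_w_ne, Set.mem_univ _, ?_⟩
    rw [fEndo_map, fEndo_map]
    intro h
    rw [pmk_eq_iff] at h
    obtain ⟨c, _, hc⟩ := h
    have := congrArg (fun v : Pt K => v.1.1) hc
    simp [g, F] at this
  · intro hinj
    have h1 : pmk _ n3 = pmk _ n4 := by
      apply hinj (Set.mem_univ _) (Set.mem_univ _)
      rw [fEndo_map, fEndo_map]
      congr 1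
      simp [g]
    rw [pmk_eq_iff] at h1
    obtain ⟨c, _, hc⟩ := h1
    have e1 := congrArg (fun v : Pt K => v.1.1) hc
    have e2 := congrArg (fun v : Pt K => v.2.2) hc
    simp at e1 e2
    rw [← e1] at e2
    have : (2 : K) = 0 := by linear_combination e2
    norm_num at this
  · intro z _; rfl
  · refine ⟨0, 1, le_rfl, ?_⟩
    rw [zero_add, Function.iterate_one, Set.image_univ, hsurj.range_eq, Function.iterate_zero,
      Set.image_id]

/-- a nonzero form vanishing on the cone over a proper closed set containing `X` -/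
lemma exists_form [Infinite K] {Z : Set (PSpace K 5)} (hZ : ZClosed Z) (hX : Xset K ⊆ Z)
    (hne : Z ≠ Set.univ) : ∃ P₁ : MvPolynomial (Fin 5) K, P₁ ≠ 0 ∧
      ∀ v ∈ coneOf Z, eval (coords v) P₁ = 0 := by
  obtain ⟨S, hS, rfl⟩ := hZ
  obtain ⟨p, hp⟩ := (Set.ne_univ_iff_exists_notMem _).mp hne
  simp only [Set.mem_ofPred_eq, not_forall] at hp
  obtain ⟨P₁, hP₁, hp1⟩ := hp
  obtain ⟨d, hd⟩ := hS P₁ hP₁
  have hP₁0 : P₁ ≠ 0 := by rintro rfl; simp at hp1
  have hwX : pmk _ point_w_ne ∈ Xset K := (pmk_mem_X _).mpr (by simp [Xcone])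
  have hw0 := (pmk_mem_closed hS point_w_ne).mp (hX hwX) P₁ hP₁
  have hd0 : d ≠ 0 := by
    rintro rfl
    have h1 := (totalDegree_eq_zero_iff_eq_C).mp (hd.totalDegree hP₁0)
    rw [h1, eval_C] at hw0
    rw [h1, eval_C] at hp1
    exact hp1 hw0
  refine ⟨P₁, hP₁0, ?_⟩
  intro v hv
  by_cases hv0 : v = 0
  · subst hv0
    have h1 := eval_smul_hom hd (0 : K) (coords (0 : Pt K))
    rw [zero_pow hd0, zero_mul, ← coords_smul', zero_smul] at h1
    exact h1
  · exact (pmk_mem_closed hS hv0).mp (hv hv0) P₁ hP₁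

/-- every closed invariant set containing `X` is the whole space -/
theorem invariant_eq_univ [CharZero K] [IsAlgClosed K] {a b : K} (ha : a ^ 2 - a + 2 = 0)
    (hab : a + b = 1) (hb : b ^ 2 - b + 2 = 0) {Z : Set (PSpace K 5)} (hZ : ZClosed Z)
    (hX : Xset K ⊆ Z) {n : ℕ} (hn : 1 ≤ n) (hinv : (fEndo ha hb).map^[n] '' Z = Z) :
    Z = Set.univ := by
  by_contra hne
  obtain ⟨P₁, hP₁, hvan⟩ := exists_form hZ hX hne
  apply cone_contradiction' ha hab hn (Xcone_sub_coneOf hX) hP₁ hvan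
  intro v hv hv'
  by_cases hv0 : v = 0
  · subst hv0; rw [g_iter_zero] at hv'; exact absurd rfl hv'
  obtain ⟨h1, h2⟩ := conj_iter (fun v hv => g_ne_zero ha hb hv) (fEndo_map ha hb) n v hv0
  have h3 : (fEndo ha hb).map^[n] (pmk v hv0) ∈ Z := by
    rw [← hinv]; exact ⟨_, hv hv0, rfl⟩
  rw [h2] at h3
  exact h3

/-- normalisation of a commuting tuple -/
lemma exists_com [CharZero K] [IsAlgClosed K] {a b : K} (ha : a ^ 2 - a + 2 = 0)
    (hb : b ^ 2 - b + 2 = 0) {n e : ℕ} (hn : 1 ≤ n) {P : Fin 5 → MvPolynomial (Fin 5) K}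
    (hP : ∀ i, (P i).IsHomogeneous e) (hnz : ∀ v : Pt K, v ≠ 0 → Psi P v ≠ 0)
    (hcomm : ∀ v : Pt K, v ≠ 0 → ∃ c : K, (g a b)^[n] (Psi P v) = c • Psi P ((g a b)^[n] v)) :
    ∃ s : K, s ≠ 0 ∧ Com a b n e (fun i => C s * P i) := by
  obtain ⟨gn, hgn⟩ := exists_iter (fPoly a b) n
  have hgn' : ∀ v, (g a b)^[n] v = Psi gn v := by
    intro v
    rw [← hgn]
    congr 1
    funext u
    rw [Psi_fPoly]
  have hgnz : ∀ v : Pt K, v ≠ 0 → (g a b)^[n] v ≠ 0 := by
    intro v hv
    have := conj_iter (fun v hv => g_ne_zero ha hb hv) (fEndo_map ha hb) n v hv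
    exact this.1
  set A : Fin 5 → MvPolynomial (Fin 5) K := fun i => aeval gn (P i) with hA
  set B : Fin 5 → MvPolynomial (Fin 5) K := fun i => aeval P (gn i) with hB
  have hAv : ∀ v : Pt K, Psi A v = Psi P ((g a b)^[n] v) := by
    intro v
    rw [hgn']
    simp only [Psi, hA, eval_aeval_mv, coords_ofFun]
  have hBv : ∀ v : Pt K, Psi B v = (g a b)^[n] (Psi P v) := by
    intro v
    rw [hgn']
    simp only [Psi, hB, eval_aeval_mv, coords_ofFun]
  have hprop : Prop2 A B := by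
    intro i j
    have hz : (A i * B j - A j * B i) * X 0 = 0 := by
      apply MvPolynomial.funext
      intro u
      rw [map_mul, map_sub, map_mul, map_mul, eval_X, map_zero]
      by_cases hu : u = 0
      · rw [hu]; simp
      · obtain ⟨c, hc⟩ := hcomm (ofFun u) (ofFun_ne hu)
        rw [← hAv, ← hBv] at hc
        have h1 := congrArg coords hc
        rw [coords_smul', ← vals_eq, ← vals_eq, coords_ofFun] at h1
        have h2 : ∀ k, eval u (B k) = c * eval u (A k) := fun k => congrFun h1 k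
        rw [h2, h2]
        ring
    rcases mul_eq_zero.mp hz with h1 | h1
    · exact sub_eq_zero.mp h1
    · exact absurd h1 (X_ne_zero _)
  have hA0 : ∃ i₀, A i₀ ≠ 0 := by
    by_contra hcon
    push Not at hcon
    have h1 := hnz _ (hgnz _ point_w_ne)
    rw [← hAv] at h1
    apply h1
    have : A = fun _ => 0 := funext hcon
    rw [this]
    simp only [Psi, map_zero]
    rfl
  obtain ⟨i₀, hi₀⟩ := hA0
  obtain ⟨Q, hQ0, hAQ, hred⟩ := exists_reduced hi₀
  obtain ⟨GA, hGA⟩ := hred A hAQ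
  obtain ⟨GB, hGB⟩ := hred B (hprop.symm.trans hi₀ hAQ)
  have hnzGA : ∀ u : Fin 5 → K, u ≠ 0 → eval u GA ≠ 0 := by
    intro u hu h0
    have h1 := hnz _ (hgnz _ (ofFun_ne hu))
    rw [← hAv] at h1
    apply coords_ne h1
    rw [← vals_eq, coords_ofFun]
    funext i
    simp only [vals, hGA i, map_mul, h0, zero_mul, Pi.zero_apply]
  have hnzGB : ∀ u : Fin 5 → K, u ≠ 0 → eval u GB ≠ 0 := by
    intro u hu h0
    have h1 := hgnz _ (hnz _ (ofFun_ne hu))
    rw [← hBv] at h1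
    apply coords_ne h1
    rw [← vals_eq, coords_ofFun]
    funext i
    simp only [vals, hGB i, map_mul, h0, zero_mul, Pi.zero_apply]
  obtain ⟨c₁, hc₁, hGA'⟩ := const_of_no_zero hnzGA
  obtain ⟨c₂, hc₂, hGB'⟩ := const_of_no_zero hnzGB
  have hAB : ∀ v : Pt K, Psi B v = (c₂ / c₁) • Psi A v := by
    intro v
    have : B = fun i => C (c₂ / c₁) * A i := by
      funext i
      rw [hGA i, hGB i, hGA', hGB', ← mul_assoc, ← C_mul, div_mul_cancel₀ _ hc₁]
    rw [this]
    simp only [Psi, map_mul, eval_C]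
    rfl
  set c := c₂ / c₁ with hc
  have hc0 : c ≠ 0 := div_ne_zero hc₂ hc₁
  have hD : 2 ≤ 2 ^ n := by
    calc 2 = 2 ^ 1 := by norm_num
      _ ≤ 2 ^ n := Nat.pow_le_pow_right (by norm_num) hn
  obtain ⟨s, hs⟩ := IsAlgClosed.exists_pow_nat_eq c⁻¹ (n := 2 ^ n - 1) (by omega)
  have hs0 : s ≠ 0 := by
    rintro rfl
    rw [zero_pow (by omega)] at hs
    exact inv_ne_zero hc0 hs.symm
  have hPs : ∀ v : Pt K, Psi (fun i => C s * P i) v = s • Psi P v := by
    intro v
    simp only [Psi, map_mul, eval_C]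
    rfl
  refine ⟨s, hs0, fun i => (hP i).C_mul s, ?_, ?_⟩
  · intro v hv
    rw [hPs]
    exact smul_ne_zero hs0 (hnz v hv)
  · intro v
    rw [hPs, hPs, g_iter_smul, ← hBv, hAB, ← hAv, smul_smul]
    congr 1
    have h1 : s ^ (2 ^ n) = s ^ (2 ^ n - 1) * s := by
      rw [← pow_succ, Nat.sub_add_cancel (by omega)]
    rw [h1, hs]
    field_simp

end Pool.Agent.DMM
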