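import Pool.Agent.DMM.Psi

/-!
# Proportional tuples of polynomials
-/

namespace Pool.Agent.DMM

open MvPolynomial

variable {K : Type*} [Field K] {ι κ : Type*}

/-- two tuples are proportional -/
def Prop2 (P Q : κ → MvPolynomial ι K) : Prop := ∀ i j, P i * Q j = P j * Q i

lemma Prop2.symm {P Q : κ → MvPolynomial ι K} (h : Prop2 P Q) : Prop2 Q P := fun i j => by
  have := h j i
  rw [mul_comm (Q i), mul_comm (Q j)]
  exact this

lemma Prop2.trans {P Q R : κ → MvPolynomial ι K} {i₀ : κ} (h0 : Q i₀ ≠ 0) (h : Prop2 P Q)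
    (h' : Prop2 Q R) : Prop2 P R := by
  intro i j
  apply mul_right_cancel₀ h0
  -- P i * R j * Q i₀ = P j * R i * Q i₀
  have e1 := h i i₀
  have e2 := h j i₀
  have e3 := h' i₀ j
  have e4 := h' i₀ i
  have e5 := h' i j
  calc P i * R j * Q i₀ = (P i * Q i₀) * R j := by ring
    _ = P i₀ * (Q i * R j) := by rw [e1]; ring
    _ = P i₀ * (Q j * R i) := by rw [e5]
    _ = (P i₀ * Q j) * R i := by ring
    _ = P j * R i * Q i₀ := by rw [← e2]; ring

lemma unit_of_totalDegree_zero {v : MvPolynomial ι K} (hv : v ≠ 0) (h : v.totalDegree = 0) :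
    IsUnit v := by
  obtain ⟨c, hc⟩ : ∃ c, v = C c := ⟨_, totalDegree_eq_zero_iff_eq_C.mp h⟩
  rw [hc]
  apply IsUnit.map
  exact isUnit_iff_ne_zero.mpr (by rintro rfl; exact hv (by rw [hc, C_0]))

/-- every tuple is a multiple of a reduced one -/
lemma exists_reduced {P : κ → MvPolynomial ι K} {i₀ : κ} (h0 : P i₀ ≠ 0) :
    ∃ Q : κ → MvPolynomial ι K, Q i₀ ≠ 0 ∧ Prop2 P Q ∧
      ∀ A, Prop2 A Q → ∃ G, ∀ i, A i = G * Q i := by
  classical
  -- choose `Q` of minimal degree
  have hex : ∃ n : ℕ, ∃ Q : κ → MvPolynomial ι K, Q i₀ ≠ 0 ∧ Prop2 P Q ∧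
      (Q i₀).totalDegree = n := ⟨_, P, h0, fun i j => mul_comm _ _, rfl⟩
  obtain ⟨Q, hQ0, hPQ, hQn⟩ := Nat.find_spec hex
  refine ⟨Q, hQ0, hPQ, ?_⟩
  intro A hA
  obtain ⟨v, u, c, hrel, hcv, hcu⟩ := UniqueFactorizationMonoid.exists_reduced_factors (Q i₀) hQ0 (A i₀)
  have hc0 : c ≠ 0 := by rintro rfl; rw [zero_mul] at hcv; exact hQ0 hcv.symm
  have hv0 : v ≠ 0 := by rintro rfl; rw [mul_zero] at hcv; exact hQ0 hcv.symm
  have h1 : ∀ i, v * A i = u * Q i := by
    intro i
    apply mul_left_cancel₀ hc0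
    calc c * (v * A i) = A i * Q i₀ := by rw [← hcv]; ring
      _ = A i₀ * Q i := hA i i₀
      _ = c * (u * Q i) := by rw [← hcu]; ring
  have hdvd : ∀ i, v ∣ Q i := by
    intro i
    exact hrel.dvd_of_dvd_mul_left ⟨A i, (h1 i).symm⟩
  choose Q' hQ' using hdvd
  have hv : IsUnit v := by
    apply unit_of_totalDegree_zero hv0
    by_contra hne
    have hQ'0 : Q' i₀ ≠ 0 := by
      intro h
      rw [hQ' i₀, h, mul_zero] at hQ0
      exact hQ0 rfl
    have hlt : (Q' i₀).totalDegree < Nat.find hex := by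
      rw [← hQn, hQ' i₀, totalDegree_mul_of_isDomain hv0 hQ'0]
      omega
    apply Nat.find_min hex hlt
    refine ⟨Q', hQ'0, ?_, rfl⟩
    intro i j
    apply mul_left_cancel₀ hv0
    calc v * (P i * Q' j) = P i * Q j := by rw [hQ' j]; ring
      _ = P j * Q i := hPQ i j
      _ = v * (P j * Q' i) := by rw [hQ' i]; ring
  obtain ⟨v', hv'⟩ := hv
  refine ⟨u * (v'⁻¹ : (MvPolynomial ι K)ˣ), fun i => ?_⟩
  have h2 := h1 i
  rw [← hv'] at h2
  calc A i = (v'⁻¹ : (MvPolynomial ι K)ˣ) * (v' * A i) := by
        rw [← mul_assoc, Units.inv_mul, one_mul]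
    _ = u * (v'⁻¹ : (MvPolynomial ι K)ˣ) * Q i := by rw [h2]; ring

/-- components of a product with a homogeneous polynomial -/
lemma homogeneousComponent_mul {p h : MvPolynomial ι K} {e : ℕ} (hh : h.IsHomogeneous e) (k : ℕ) :
    homogeneousComponent (k + e) (p * h) = homogeneousComponent k p * h := by
  classical
  conv_lhs => rw [← sum_homogeneousComponent p, Finset.sum_mul, map_sum]
  have h1 : ∀ i ∈ Finset.range (p.totalDegree + 1),
      homogeneousComponent (k + e) (homogeneousComponent i p * h) =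
        if k = i then homogeneousComponent k p * h else 0 := by
    intro i _
    have h2 : (homogeneousComponent i p * h).IsHomogeneous (i + e) :=
      (homogeneousComponent_isHomogeneous i p).mul hh
    rw [homogeneousComponent_of_mem h2]
    by_cases hk : k = i
    · subst hk; simp
    · rw [if_neg (by omega), if_neg hk]
  rw [Finset.sum_congr rfl h1, Finset.sum_ite_eq]
  split_ifs with hmem
  · rfl
  · have : p.totalDegree < k := by
      simp only [Finset.mem_range] at hmem
      omega
    rw [homogeneousComponent_eq_zero k p this, zero_mul]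

lemma top_component_ne_zero {p : MvPolynomial ι K} (hp : p ≠ 0) :
    homogeneousComponent p.totalDegree p ≠ 0 := by
  classical
  obtain ⟨d, hd, hdeg⟩ := Finset.exists_mem_eq_sup p.support
    (by rwa [Finset.nonempty_iff_ne_empty, Ne, MvPolynomial.support_eq_empty])
    (fun s => s.sum fun _ e => e)
  intro h
  have h1 := congrArg (coeff d) h
  rw [coeff_homogeneousComponent, coeff_zero] at h1
  have h2 : d.degree = p.totalDegree := by
    rw [totalDegree, hdeg]; rfl
  rw [if_pos h2] at h1
  exact (mem_support_iff.mp hd) h1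

/-- a reduced tuple proportional to a homogeneous tuple is homogeneous -/
lemma homogeneous_of_reduced {P Q : κ → MvPolynomial ι K} {i₀ : κ} (h0 : P i₀ ≠ 0)
    (hQ0 : Q i₀ ≠ 0) {e : ℕ}
    (hP : ∀ i, (P i).IsHomogeneous e) (hPQ : Prop2 P Q)
    (hred : ∀ A, Prop2 A Q → ∃ G, ∀ i, A i = G * Q i) : ∃ k, ∀ i, (Q i).IsHomogeneous k := by
  have hcomp : ∀ k, Prop2 (fun i => homogeneousComponent k (Q i)) P := by
    intro k i j
    simp only
    rw [← homogeneousComponent_mul (hP j), ← homogeneousComponent_mul (hP i)]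
    congr 1
    rw [mul_comm (Q i), mul_comm (Q j)]
    exact (hPQ i j).symm ▸ (by rw [hPQ j i])
  set k := (Q i₀).totalDegree with hk
  obtain ⟨G, hG⟩ := hred _ ((hcomp k).trans h0 hPQ)
  have htop : homogeneousComponent k (Q i₀) ≠ 0 := top_component_ne_zero hQ0
  have hG0 : G ≠ 0 := by
    rintro rfl
    apply htop
    rw [hG i₀, zero_mul]
  have hGd : G.totalDegree = 0 := by
    have h1 : (homogeneousComponent k (Q i₀)).totalDegree ≤ k :=
      (homogeneousComponent_isHomogeneous k (Q i₀)).totalDegree_le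
    rw [hG i₀, totalDegree_mul_of_isDomain hG0 hQ0] at h1
    omega
  obtain ⟨c, hc⟩ : ∃ c, G = C c := ⟨_, totalDegree_eq_zero_iff_eq_C.mp hGd⟩
  have hc0 : c ≠ 0 := by rintro rfl; exact hG0 (by rw [hc, C_0])
  refine ⟨k, fun i => ?_⟩
  have h1 : Q i = C c⁻¹ * homogeneousComponent k (Q i) := by
    rw [hG i, hc, ← mul_assoc, ← C_mul, inv_mul_cancel₀ hc0, C_1, one_mul]
  rw [h1]
  exact (homogeneousComponent_isHomogeneous k (Q i)).C_mul _

/-- a polynomial without zeros outside the origin is constant -/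
lemma const_of_no_zero [IsAlgClosed K] {G : MvPolynomial (Fin 5) K}
    (h : ∀ v : Fin 5 → K, v ≠ 0 → eval v G ≠ 0) : ∃ c, c ≠ 0 ∧ G = C c := by
  have hline : ∀ v v' : Fin 5 → K, (∀ t : K, v + t • v' ≠ 0) → eval v G = eval (v + v') G := by
    intro v v' hvv'
    set p : Polynomial K :=
      aeval (fun i => Polynomial.C (v i) + Polynomial.X * Polynomial.C (v' i)) G with hp
    have hpe : ∀ t, p.eval t = eval (v + t • v') G := by
      intro t
      rw [hp, eval_aeval]
      congr 1
      have : (fun i => Polynomial.eval t (Polynomial.C (v i) + Polynomial.X * Polynomial.C (v' i)))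
          = v + t • v' := by
        funext i
        simp only [Polynomial.eval_add, Polynomial.eval_C, Polynomial.eval_mul,
          Polynomial.eval_X, Pi.add_apply, Pi.smul_apply, smul_eq_mul]
      rw [this]
    have hp0 : p.degree = 0 := by
      by_contra hd
      obtain ⟨r, hr⟩ := IsAlgClosed.exists_root p hd
      have := hpe r
      rw [Polynomial.IsRoot.def.mp hr] at this
      exact h _ (hvv' r) this.symm
    have hc := Polynomial.eq_C_of_degree_eq_zero hp0
    have e0 := hpe 0
    have e1 := hpe 1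
    rw [hc, Polynomial.eval_C] at e0 e1
    rw [zero_smul, add_zero] at e0
    rw [one_smul] at e1
    rw [← e0, ← e1]
  have hspan : ∀ v v' : Fin 5 → K, v ≠ 0 → v' ∉ Submodule.span K {v} →
      eval v G = eval v' G := by
    intro v v' hv hv'
    have h1 : ∀ t : K, v + t • v' ≠ 0 := by
      intro t ht
      by_cases ht0 : t = 0
      · rw [ht0, zero_smul, add_zero] at ht; exact hv ht
      · apply hv'
        rw [Submodule.mem_span_singleton]
        refine ⟨-t⁻¹, ?_⟩
        have : v = -(t • v') := eq_neg_of_add_eq_zero_left ht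
        rw [this, smul_neg, neg_smul, neg_neg, smul_smul, inv_mul_cancel₀ ht0, one_smul]
    have h2 : ∀ t : K, v' + t • v ≠ 0 := by
      intro t ht
      apply hv'
      rw [Submodule.mem_span_singleton]
      refine ⟨-t, ?_⟩
      rw [neg_smul]
      exact (eq_neg_of_add_eq_zero_left ht).symm
    rw [hline v v' h1, hline v' v h2, add_comm]
  have hconst : ∀ v w : Fin 5 → K, v ≠ 0 → w ≠ 0 → eval v G = eval w G := by
    intro v w hv hw
    by_cases hmem : w ∈ Submodule.span K {v}
    · obtain ⟨u, hu⟩ : ∃ u, u ∉ Submodule.span K {v} := by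
        by_contra hcon
        push Not at hcon
        have htop : Submodule.span K {v} = ⊤ := by
          rw [eq_top_iff]; intro x _; exact hcon x
        have h1 := finrank_span_le_card (R := K) ({v} : Set (Fin 5 → K))
        rw [htop, finrank_top, Module.finrank_fin_fun] at h1
        simp at h1
      have hu' : u ∉ Submodule.span K {w} := by
        intro hu'
        apply hu
        have : Submodule.span K {w} ≤ Submodule.span K {v} := by
          rw [Submodule.span_singleton_le_iff_mem]; exact hmem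
        exact this hu'
      rw [hspan v u hv hu, hspan w u hw hu']
    · exact hspan v w hv hmem
  have he : (Pi.single 0 1 : Fin 5 → K) ≠ 0 := by
    intro h0
    have := congrFun h0 0
    simp at this
  refine ⟨eval (Pi.single 0 1 : Fin 5 → K) G, h _ he, ?_⟩
  have hz : (G - C (eval (Pi.single 0 1 : Fin 5 → K) G)) * X 0 = 0 := by
    apply MvPolynomial.funext
    intro v
    rw [map_mul, map_sub, eval_C, eval_X, map_zero]
    by_cases hv : v = 0
    · rw [hv]; simp
    · rw [hconst v _ hv he, sub_self, zero_mul]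
  rcases mul_eq_zero.mp hz with h1 | h1
  · exact sub_eq_zero.mp h1
  · exact absurd h1 (X_ne_zero _)

end Pool.Agent.DMM
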