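import Pool.Agent.DMM.Defs
import Pool.Agent.DMM.Ufd

/-!
# Morphisms of projective space are given by global homogeneous polynomials
-/

namespace Pool.Agent.DMM

open MvPolynomial

variable {K : Type*} [Field K]

lemma eval_smul_hom {m : ℕ} {P : MvPolynomial (Fin m) K} {q : ℕ} (hP : P.IsHomogeneous q) (s : K)
    (x : Fin m → K) : eval (s • x) P = s ^ q * eval x P := by
  rw [MvPolynomial.eval_eq', MvPolynomial.eval_eq', Finset.mul_sum]
  apply Finset.sum_congr rfl
  intro d hd
  have hdeg : ∑ i, d i = q := by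
    have := hP (MvPolynomial.mem_support_iff.mp hd)
    rw [← this]
    simp [Finsupp.weight_apply, Finsupp.sum_fintype]
  simp only [Pi.smul_apply, smul_eq_mul, mul_pow, Finset.prod_mul_distrib]
  rw [Finset.prod_pow_eq_pow_sum, hdeg]
  ring

lemma vals_smul {m : ℕ} {P : Fin m → MvPolynomial (Fin m) K} {q : ℕ}
    (hP : ∀ i, (P i).IsHomogeneous q) (s : K) (x : Fin m → K) :
    vals P (s • x) = s ^ q • vals P x := by
  funext i
  exact eval_smul_hom (hP i) s x

lemma rep_smul {m : ℕ} {v : Fin m → K} (hv : v ≠ 0) :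
    ∃ a : K, a ≠ 0 ∧ (Projectivization.mk K v hv).rep = a • v := by
  obtain ⟨a, ha⟩ := Projectivization.exists_smul_eq_mk_rep K v hv
  exact ⟨a, a.ne_zero, ha.symm⟩

lemma mk_smul_eq {m : ℕ} {v w : Fin m → K} {a : K} (hv : v ≠ 0) (hw : w ≠ 0)
    (h : w = a • v) : Projectivization.mk K w hw = Projectivization.mk K v hv := by
  rw [Projectivization.mk_eq_mk_iff']
  exact ⟨a, h.symm⟩

lemma eval_rep {m : ℕ} {P : MvPolynomial (Fin m) K} {q : ℕ} (hP : P.IsHomogeneous q)
    {v : Fin m → K} (hv : v ≠ 0) :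
    eval (Projectivization.mk K v hv).rep P = 0 ↔ eval v P = 0 := by
  obtain ⟨a, ha, h⟩ := rep_smul hv
  rw [h, eval_smul_hom hP]
  simp [ha]

/-- membership in a closed set, for arbitrary representatives -/
lemma mk_mem_iff {m : ℕ} {S : Set (MvPolynomial (Fin m) K)}
    (hS : ∀ P ∈ S, ∃ d : ℕ, P.IsHomogeneous d) {v : Fin m → K} (hv : v ≠ 0) :
    Projectivization.mk K v hv ∈ {p : PSpace K m | ∀ P ∈ S, eval p.rep P = 0} ↔
      ∀ P ∈ S, eval v P = 0 := by
  constructor
  · intro h P hP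
    obtain ⟨d, hd⟩ := hS P hP
    exact (eval_rep hd hv).mp (h P hP)
  · intro h P hP
    obtain ⟨d, hd⟩ := hS P hP
    exact (eval_rep hd hv).mpr (h P hP)

lemma Endo.map_mk {m d : ℕ} (f : Endo K m d) {v : Fin m → K} (hv : v ≠ 0) :
    f.map (Projectivization.mk K v hv) =
      Projectivization.mk K (vals f.poly v) (f.no_zero v hv) := by
  obtain ⟨a, ha, h⟩ := rep_smul hv
  unfold Endo.map
  apply mk_smul_eq (a := a ^ d)
  rw [h, vals_smul f.homogeneous]

/-- local representation at arbitrary representatives -/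
lemma local_rep {m : ℕ} {Z U : Set (PSpace K m)} {ψ : PSpace K m → PSpace K m} {e : ℕ}
    {P : Fin m → MvPolynomial (Fin m) K} (hP : ∀ i, (P i).IsHomogeneous e)
    (h : ∀ z' ∈ Z ∩ U, ∃ h : vals P z'.rep ≠ 0, ψ z' = Projectivization.mk K (vals P z'.rep) h)
    {v : Fin m → K} (hv : v ≠ 0) (hmem : Projectivization.mk K v hv ∈ Z ∩ U) :
    ∃ h : vals P v ≠ 0, ψ (Projectivization.mk K v hv) = Projectivization.mk K (vals P v) h := by
  obtain ⟨a, ha, hr⟩ := rep_smul hv
  obtain ⟨h1, h2⟩ := h _ hmem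
  have h3 : vals P (Projectivization.mk K v hv).rep = a ^ e • vals P v := by
    rw [hr, vals_smul hP]
  have h4 : vals P v ≠ 0 := by
    intro h0
    rw [h3, h0, smul_zero] at h1
    exact h1 rfl
  refine ⟨h4, ?_⟩
  rw [h2]
  exact mk_smul_eq h4 h1 h3

/-- a nonempty open set contains a principal one -/
lemma exists_principal {m : ℕ} {U : Set (PSpace K m)} (hU : ZClosed Uᶜ) {p : PSpace K m}
    (hp : p ∈ U) : ∃ D : MvPolynomial (Fin m) K, eval p.rep D ≠ 0 ∧
      ∀ (v : Fin m → K) (hv : v ≠ 0), eval v D ≠ 0 → Projectivization.mk K v hv ∈ U := by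
  obtain ⟨S, hS, hUS⟩ := hU
  have h1 : p ∉ Uᶜ := fun h => h hp
  rw [hUS] at h1
  simp only [Set.mem_ofPred_eq, not_forall] at h1
  obtain ⟨D, hD, hDp⟩ := h1
  refine ⟨D, hDp, ?_⟩
  intro v hv hvD
  by_contra hcon
  have h2 : Projectivization.mk K v hv ∈ Uᶜ := hcon
  rw [hUS, mk_mem_iff hS] at h2
  exact hvD (h2 D hD)

lemma proportional_of_mk_eq {m : ℕ} {v w : Fin m → K} (hv : v ≠ 0) (hw : w ≠ 0)
    (h : Projectivization.mk K v hv = Projectivization.mk K w hw) (i j : Fin m) :
    v i * w j = v j * w i := by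
  rw [Projectivization.mk_eq_mk_iff'] at h
  obtain ⟨a, ha⟩ := h
  rw [← ha]
  simp only [Pi.smul_apply, smul_eq_mul]
  ring

/-- proportional vectors represent the same point -/
lemma mk_eq_of_proportional {m : ℕ} {v w : Fin m → K} (hv : v ≠ 0) (hw : w ≠ 0)
    (h : ∀ i j, v i * w j = v j * w i) :
    Projectivization.mk K v hv = Projectivization.mk K w hw := by
  rw [Projectivization.mk_eq_mk_iff']
  obtain ⟨j, hj⟩ : ∃ j, w j ≠ 0 := by
    by_contra hcon
    push Not at hcon
    exact hw (funext hcon)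
  refine ⟨v j / w j, ?_⟩
  funext i
  simp only [Pi.smul_apply, smul_eq_mul]
  have := h i j
  field_simp
  linear_combination -this

/-- A morphism from the projective space to itself is given by global homogeneous polynomials. -/
theorem global_rep [Infinite K] {ψ : PSpace K 5 → PSpace K 5} (hψ : IsMorphismOn Set.univ ψ) :
    ∃ (e : ℕ) (P : Fin 5 → MvPolynomial (Fin 5) K), (∀ i, (P i).IsHomogeneous e) ∧
      ∀ (v : Fin 5 → K) (hv : v ≠ 0), ∃ h : vals P v ≠ 0,
        ψ (Projectivization.mk K v hv) = Projectivization.mk K (vals P v) h := by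
  -- a first representation
  have he : (Pi.single 0 1 : Fin 5 → K) ≠ 0 := by
    intro h0
    have := congrFun h0 0
    simp at this
  obtain ⟨U, e, P, hU, hpU, hPhom, hPrep⟩ := hψ (Projectivization.mk K _ he) (Set.mem_univ _)
  obtain ⟨D, hD, hDU⟩ := exists_principal hU hpU
  have hPne : ∃ i₀, P i₀ ≠ 0 := by
    by_contra hcon
    push Not at hcon
    obtain ⟨h1, _⟩ := hPrep _ ⟨Set.mem_univ _, hpU⟩
    apply h1
    funext i
    simp only [vals, hcon i, map_zero, Pi.zero_apply]
  obtain ⟨i₀, hi₀⟩ := hPne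
  obtain ⟨Q, hQ0, hPQ, hred⟩ := exists_reduced hi₀
  have hD0 : D ≠ 0 := by rintro rfl; simp at hD
  -- `Q` represents `ψ` everywhere
  have hglob : ∀ (v : Fin 5 → K) (hv : v ≠ 0), ∃ h : vals Q v ≠ 0,
        ψ (Projectivization.mk K v hv) = Projectivization.mk K (vals Q v) h := by
    intro v hv
    obtain ⟨U', e', P', hU', hpU', hPhom', hPrep'⟩ := hψ (Projectivization.mk K v hv) (Set.mem_univ _)
    obtain ⟨D', hD', hDU'⟩ := exists_principal hU' hpU'
    have hD0' : D' ≠ 0 := by rintro rfl; simp at hD'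
    have hPP' : Prop2 P' P := by
      intro i j
      have hz : (P' i * P j - P' j * P i) * (D * D' * X 0) = 0 := by
        apply MvPolynomial.funext
        intro u
        rw [map_mul, map_mul, map_mul, eval_X, map_zero]
        by_cases hu : u = 0
        · rw [hu]; simp
        by_cases hDu : eval u D = 0
        · rw [hDu]; ring
        by_cases hDu' : eval u D' = 0
        · rw [hDu']; ring
        obtain ⟨h1, h2⟩ := local_rep hPhom hPrep hu ⟨Set.mem_univ _, hDU u hu hDu⟩
        obtain ⟨h1', h2'⟩ := local_rep hPhom' hPrep' hu ⟨Set.mem_univ _, hDU' u hu hDu'⟩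
        have h3 := proportional_of_mk_eq h1' h1 (h2'.symm.trans h2) i j
        simp only [vals] at h3
        rw [map_sub, map_mul, map_mul, h3, sub_self, zero_mul]
      rcases mul_eq_zero.mp hz with h1 | h1
      · exact sub_eq_zero.mp h1
      · exact absurd h1 (mul_ne_zero (mul_ne_zero hD0 hD0') (X_ne_zero _))
    obtain ⟨G, hG⟩ := hred P' (hPP'.trans hi₀ hPQ)
    obtain ⟨h1', h2'⟩ := local_rep hPhom' hPrep' hv ⟨Set.mem_univ _, hpU'⟩
    have hPv : vals P' v = eval v G • vals Q v := by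
      funext i
      simp only [vals, hG i, map_mul, Pi.smul_apply, smul_eq_mul]
    have hQv : vals Q v ≠ 0 := by
      intro h0
      rw [hPv, h0, smul_zero] at h1'
      exact h1' rfl
    exact ⟨hQv, by rw [h2']; exact mk_smul_eq hQv h1' hPv⟩
  obtain ⟨k, hk⟩ := homogeneous_of_reduced hi₀ hQ0 hPhom hPQ hred
  exact ⟨k, Q, hk, hglob⟩

end Pool.Agent.DMM
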