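import Pool.Agent.DMM.Skew2

/-!
# Homogeneous polynomial maps of five-space
-/

namespace Pool.Agent.DMM

open Polynomial

variable {K : Type*} [Field K]

/-- coordinates of a point -/
def coords {R : Type*} (v : Pt R) : Fin 5 → R := ![v.1.1, v.1.2, v.2.1.1, v.2.1.2, v.2.2]

/-- the point with given coordinates -/
def ofFun {R : Type*} (f : Fin 5 → R) : Pt R := ((f 0, f 1), (f 2, f 3), f 4)

@[simp] lemma ofFun_coords {R : Type*} (v : Pt R) : ofFun (coords v) = v := rfl

@[simp] lemma coords_ofFun {R : Type*} (f : Fin 5 → R) : coords (ofFun f) = f := by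
  funext i; fin_cases i <;> rfl

/-- the polynomial map of `K ^ 5` -/
noncomputable def Psi (P : Fin 5 → MvPolynomial (Fin 5) K) (v : Pt K) : Pt K :=
  ofFun fun i => MvPolynomial.eval (coords v) (P i)

/-- the same map on polynomial points -/
noncomputable def PsiX (P : Fin 5 → MvPolynomial (Fin 5) K) (V : Pt K[X]) : Pt K[X] :=
  ofFun fun i => MvPolynomial.aeval (coords V) (P i)

lemma eval_aeval (t : K) (x : Fin 5 → K[X]) (P : MvPolynomial (Fin 5) K) :
    Polynomial.eval t (MvPolynomial.aeval x P) =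
      MvPolynomial.eval (fun i => (x i).eval t) P := by
  induction P using MvPolynomial.induction_on with
  | C a => simp
  | add p q hp hq => simp [hp, hq]
  | mul_X p i hp => simp [hp]

lemma coords_evP (t : K) (V : Pt K[X]) : coords (evP t V) = fun i => (coords V i).eval t := by
  funext i; fin_cases i <;> rfl

lemma evP_PsiX (P : Fin 5 → MvPolynomial (Fin 5) K) (t : K) (V : Pt K[X]) :
    evP t (PsiX P V) = Psi P (evP t V) := by
  simp only [Psi, coords_evP]
  simp only [evP, PsiX, ofFun, eval_aeval]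

lemma aeval_smul_of_homogeneous {R : Type*} [CommRing R] [Algebra K R] {P : MvPolynomial (Fin 5) K}
    {q : ℕ} (hP : P.IsHomogeneous q) (s : R) (x : Fin 5 → R) :
    MvPolynomial.aeval (s • x) P = s ^ q * MvPolynomial.aeval x P := by
  rw [MvPolynomial.aeval_def, MvPolynomial.aeval_def, MvPolynomial.eval₂_eq',
    MvPolynomial.eval₂_eq', Finset.mul_sum]
  apply Finset.sum_congr rfl
  intro d hd
  have hdeg : ∑ i, d i = q := by
    have := hP (MvPolynomial.mem_support_iff.mp hd)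
    rw [← this]
    simp [Finsupp.weight_apply, Finsupp.sum_fintype]
  simp only [Pi.smul_apply, smul_eq_mul, mul_pow, Finset.prod_mul_distrib]
  rw [Finset.prod_pow_eq_pow_sum, hdeg]
  ring

lemma coords_smul {R : Type*} [CommRing R] (s : R) (v : Pt R) : coords (s • v) = s • coords v := by
  funext i; fin_cases i <;> rfl

lemma ofFun_smul {R : Type*} [CommRing R] (s : R) (f : Fin 5 → R) : ofFun (s • f) = s • ofFun f := rfl

lemma Psi_smul {P : Fin 5 → MvPolynomial (Fin 5) K} {q : ℕ} (hP : ∀ i, (P i).IsHomogeneous q)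
    (s : K) (v : Pt K) : Psi P (s • v) = s ^ q • Psi P v := by
  rw [Psi, Psi, ← ofFun_smul, coords_smul]
  congr 1
  funext i
  have := aeval_smul_of_homogeneous (hP i) s (coords v)
  simpa [MvPolynomial.aeval_eq_eval] using this

lemma top_coeff {P : MvPolynomial (Fin 5) K} {q : ℕ} (hP : P.IsHomogeneous q) (x y : K × K) :
    (MvPolynomial.aeval (coords ((CC x, CC y, X) : Pt K[X])) P).natDegree ≤ q ∧
    (MvPolynomial.aeval (coords ((CC x, CC y, X) : Pt K[X])) P).coeff q =
      MvPolynomial.eval (coords (((0, 0), (0, 0), 1) : Pt K)) P := by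
  have hterm : ∀ d ∈ P.support, d 0 + d 1 + d 2 + d 3 + d 4 = q := by
    intro d hd
    have := hP (MvPolynomial.mem_support_iff.mp hd)
    rw [← this]
    simp [Finsupp.weight_apply, Finsupp.sum_fintype, Fin.sum_univ_five]
  have hrw : ∀ d : Fin 5 →₀ ℕ, (algebraMap K K[X]) (MvPolynomial.coeff d P) *
      ∏ i, (coords ((CC x, CC y, X) : Pt K[X])) i ^ d i =
      C (MvPolynomial.coeff d P * (x.1 ^ d 0 * x.2 ^ d 1 * y.1 ^ d 2 * y.2 ^ d 3)) * X ^ d 4 := by
    intro d
    rw [Fin.prod_univ_five]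
    simp [coords, CC, Polynomial.algebraMap_eq]
    ring
  rw [MvPolynomial.aeval_def, MvPolynomial.eval₂_eq', MvPolynomial.eval_eq']
  constructor
  · apply natDegree_sum_le_of_forall_le
    intro d hd
    rw [hrw]
    apply (natDegree_C_mul_X_pow_le _ _).trans
    have := hterm d hd
    omega
  · rw [finsetSum_coeff]
    apply Finset.sum_congr rfl
    intro d hd
    rw [hrw, coeff_C_mul, coeff_X_pow, Fin.prod_univ_five]
    have hs := hterm d hd
    by_cases h4 : q = d 4
    · have h0 : d 0 = 0 := by omega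
      have h1 : d 1 = 0 := by omega
      have h2 : d 2 = 0 := by omega
      have h3 : d 3 = 0 := by omega
      simp [h0, h1, h2, h3, h4, coords]
    · have hpos : d 0 ≠ 0 ∨ d 1 ≠ 0 ∨ d 2 ≠ 0 ∨ d 3 ≠ 0 := by omega
      rw [if_neg h4]
      rcases hpos with h | h | h | h <;> simp [coords, h]

/-- The hypotheses on a homogeneous lift of a commuting endomorphism. -/
structure Com (a b : K) (n q : ℕ) (P : Fin 5 → MvPolynomial (Fin 5) K) : Prop where
  hom : ∀ i, (P i).IsHomogeneous q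
  nz : ∀ v : Pt K, v ≠ 0 → Psi P v ≠ 0
  comm : ∀ v : Pt K, Psi P ((g a b)^[n] v) = (g a b)^[n] (Psi P v)

namespace Com

variable {a b : K} {n q : ℕ} {P : Fin 5 → MvPolynomial (Fin 5) K}

lemma polyC1 (P : Fin 5 → MvPolynomial (Fin 5) K) : PolyC (fun v => (Psi P v).1) := fun V =>
  ⟨(PsiX P V).1, fun t => by simp only [← evP_PsiX]; rfl⟩

lemma polyC2 (P : Fin 5 → MvPolynomial (Fin 5) K) : PolyC (fun v => (Psi P v).2.1) := fun V =>
  ⟨(PsiX P V).2.1, fun t => by simp only [← evP_PsiX]; rfl⟩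

variable (h : Com a b n q P)

include h

lemma comm1 (v : Pt K) : (Psi P ((g a b)^[n] v)).1 = (F a)^[n] (Psi P v).1 := by
  rw [h.comm, g_iter_fst]

lemma comm2 (v : Pt K) : (Psi P ((g a b)^[n] v)).2.1 = (F b)^[n] (Psi P v).2.1 := by
  rw [h.comm, g_iter_snd]

lemma zero (hq : 1 ≤ q) : Psi P 0 = 0 := by
  have := Psi_smul h.hom (0 : K) 0
  rw [zero_smul, zero_pow (by omega), zero_smul] at this
  exact this

variable [CharZero K] [IsAlgClosed K]

lemma ind1 (ha : a ^ 2 - a + 2 = 0) (hab : a + b = 1) (hn : 1 ≤ n) (x y : K × K) (w : K) :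
    (Psi P (x, y, w)).1 = (Psi P (x, y, 0)).1 :=
  indep_w ha hab ha hn (polyC1 P) h.comm1 x y w

lemma ind2 (ha : a ^ 2 - a + 2 = 0) (hab : a + b = 1) (hn : 1 ≤ n) (x y : K × K) (w : K) :
    (Psi P (x, y, w)).2.1 = (Psi P (x, y, 0)).2.1 :=
  indep_w ha hab (beta_facts ha hab).1 hn (polyC2 P) h.comm2 x y w

/-- the leading coefficient -/
lemma lead (ha : a ^ 2 - a + 2 = 0) (hab : a + b = 1) (hn : 1 ≤ n) (hq : 1 ≤ q) :
    ∃ c : K, c ≠ 0 ∧ c ^ (2 ^ n) = c ∧ Psi P ((0, 0), (0, 0), 1) = ((0, 0), (0, 0), c) := by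
  refine ⟨(Psi P ((0, 0), (0, 0), 1)).2.2, ?_, ?_, ?_⟩
  · intro h0
    apply h.nz ((0, 0), (0, 0), 1) (by simp [Prod.ext_iff])
    have e0 := h.zero hq
    have e1 := h.ind1 ha hab hn (0, 0) (0, 0) 1
    have e2 := h.ind2 ha hab hn (0, 0) (0, 0) 1
    have hz : (((0, 0), (0, 0), 0) : Pt K) = 0 := rfl
    rw [hz, e0] at e1 e2
    exact Prod.ext e1 (Prod.ext e2 h0)
  · have e1 := h.comm ((0, 0), (0, 0), 1)
    have e0 := h.zero hq
    have e2 := h.ind1 ha hab hn (0, 0) (0, 0) 1
    have e3 := h.ind2 ha hab hn (0, 0) (0, 0) 1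
    have hz : (((0, 0), (0, 0), 0) : Pt K) = 0 := rfl
    rw [hz, e0] at e2 e3
    have hiter : ∀ (w : K) (m : ℕ), (g a b)^[m] ((0, 0), (0, 0), w) =
        ((0, 0), (0, 0), w ^ (2 ^ m)) := by
      intro w m
      induction m with
      | zero => simp
      | succ m ih =>
        rw [Function.iterate_succ_apply', ih]
        simp only [g, F, Rho, Prod.mk.injEq]
        refine ⟨⟨by ring, by ring⟩, ⟨by ring, by ring⟩, by ring⟩
    have e4 : Psi P ((0, 0), (0, 0), 1) = ((0, 0), (0, 0), (Psi P ((0, 0), (0, 0), 1)).2.2) :=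
      Prod.ext e2 (Prod.ext e3 rfl)
    have e5 : (1 : K) ^ (2 ^ n) = 1 := one_pow _
    rw [hiter, e5, e4, hiter] at e1
    have := congrArg (fun v : Pt K => v.2.2) e1
    exact this.symm
  · have e0 := h.zero hq
    have e1 := h.ind1 ha hab hn (0, 0) (0, 0) 1
    have e2 := h.ind2 ha hab hn (0, 0) (0, 0) 1
    have hz : (((0, 0), (0, 0), 0) : Pt K) = 0 := rfl
    rw [hz, e0] at e1 e2
    exact Prod.ext e1 (Prod.ext e2 rfl)

end Com

end Pool.Agent.DMM
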