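import Pool.Agent.DMM.Tower

/-!
# Iterated squares and the classification of semiconjugacies between them
-/

namespace Pool.Agent.DMM

open Polynomial

variable {K : Type*} [Field K]

/-- The iterated square `U ↦ U ^ 2 + ρ 0 ↦ (U ^ 2 + ρ 0) ^ 2 + ρ 1 ↦ …`. -/
noncomputable def tower (ρ : ℕ → K) : ℕ → K[X] → K[X]
  | 0, U => U
  | n + 1, U => (tower ρ n U) ^ 2 + C (ρ n)

@[simp] lemma tower_zero (ρ : ℕ → K) (U : K[X]) : tower ρ 0 U = U := rfl
lemma tower_succ (ρ : ℕ → K) (n : ℕ) (U : K[X]) :
    tower ρ (n + 1) U = (tower ρ n U) ^ 2 + C (ρ n) := rfl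

lemma tower_shift (ρ : ℕ → K) (n : ℕ) (U : K[X]) :
    tower ρ (n + 1) U = tower (fun i => ρ (i + 1)) n (U ^ 2 + C (ρ 0)) := by
  induction n with
  | zero => rfl
  | succ n ih => rw [tower_succ, ih, tower_succ]

lemma tower_comp (ρ : ℕ → K) (n : ℕ) (U W : K[X]) :
    (tower ρ n U).comp W = tower ρ n (U.comp W) := by
  induction n with
  | zero => rfl
  | succ n ih => rw [tower_succ, tower_succ, add_comp, pow_comp, ih, C_comp]

lemma tower_add (m : ℕ) : ∀ (ρ : ℕ → K) (n : ℕ) (U : K[X]),
    tower ρ (n + m) U = tower (fun i => ρ (i + m)) n (tower ρ m U) := by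
  intro ρ n U
  induction n with
  | zero => simp
  | succ n ih =>
    have : n + 1 + m = (n + m) + 1 := by ring
    rw [this, tower_succ, ih, tower_succ]

lemma tower_natDegree (ρ : ℕ → K) (n : ℕ) (U : K[X]) :
    (tower ρ n U).natDegree = 2 ^ n * U.natDegree := by
  induction n with
  | zero => simp
  | succ n ih => rw [tower_succ, natDegree_add_C, natDegree_pow, ih, pow_succ]; ring

lemma tow_tower (ρ : ℕ → K) (n : ℕ) (U : K[X]) : Tow n (tower ρ n U) := by
  induction n with
  | zero => exact Tow.zero _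
  | succ n ih =>
    have := Tow.succ (tower ρ n U) 1 (ρ n) one_ne_zero ih
    rw [C_1, one_mul] at this
    exact this

/-- the monic polynomial `tower ρ n X` -/
noncomputable def V (ρ : ℕ → K) (n : ℕ) : K[X] := tower ρ n X

lemma V_natDegree (ρ : ℕ → K) (n : ℕ) : (V ρ n).natDegree = 2 ^ n := by
  rw [V, tower_natDegree, natDegree_X, mul_one]

lemma V_monic (ρ : ℕ → K) (n : ℕ) : (V ρ n).Monic := by
  induction n with
  | zero => exact monic_X
  | succ n ih =>
    change ((V ρ n) ^ 2 + C (ρ n)).Monic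
    apply Monic.add_of_left (ih.pow 2)
    apply lt_of_le_of_lt degree_C_le
    rw [degree_eq_natDegree (ih.pow 2).ne_zero, natDegree_pow, V_natDegree]
    exact_mod_cast (by positivity : 0 < 2 * 2 ^ n)

lemma V_shift (ρ : ℕ → K) (n : ℕ) :
    V ρ (n + 1) = (V (fun i => ρ (i + 1)) n).comp (X ^ 2 + C (ρ 0)) := by
  rw [V, V, tower_shift, tower_comp, X_comp]

lemma V_add (ρ : ℕ → K) (n m : ℕ) :
    V ρ (n + m) = (V (fun i => ρ (i + m)) n).comp (V ρ m) := by
  rw [V, V, tower_add, tower_comp, X_comp, V]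

lemma V_even (ρ : ℕ → K) (n : ℕ) : (V ρ (n + 1)).comp (-X) = V ρ (n + 1) := by
  rw [V_shift, comp_assoc]
  congr 1
  simp

lemma V_tower (r : ℕ → K) (n : ℕ) (U : K[X]) : tower r n U = (V r n).comp U := by
  rw [V, tower_comp, X_comp]

/-- peeling off squares -/
lemma peel_one [CharZero K] [IsAlgClosed K] {Z : K[X]} {ρ : K} (hZ : 0 < Z.natDegree) (m : ℕ) :
    ∀ {p : K[X]} (_ : p.natDegree = 2 ^ m) (N : ℕ) (r : ℕ → K) (B : K[X])
    (_ : p.comp (Z ^ 2 + C ρ) = tower r (N + m) B),
    ∃ t : K[X], t.natDegree = 1 ∧ t.comp (Z ^ 2 + C ρ) = tower r N B := by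
  induction m with
  | zero => intro p hp N r B h; exact ⟨p, by simpa using hp, h⟩
  | succ m ih =>
    intro p hp N r B h
    have hp0 : 0 < p.natDegree := by rw [hp]; positivity
    have hpev : Even p.natDegree := by rw [hp, pow_succ]; exact ⟨2 ^ m, by ring⟩
    have h' : p.comp (Z ^ 2 + C ρ) = C 1 * (tower r (N + m) B) ^ 2 + C (r (N + m)) := by
      rw [h, C_1, one_mul]; rfl
    obtain ⟨T, g, hg0, hg2, hpT, hT⟩ := peel_step hp0 hpev hZ one_ne_zero h'
    have hTdeg : T.natDegree = 2 ^ m := by
      have h1 := hp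
      rw [hpT, natDegree_add_C, natDegree_pow, pow_succ] at h1
      omega
    have hg : g = 1 ∨ g = -1 := mul_self_eq_one_iff.mp (by rw [← sq, hg2])
    rcases hg with rfl | rfl
    · exact ih hTdeg N r B (by rw [hT, C_1, one_mul])
    · refine ih (p := -T) (by rw [natDegree_neg, hTdeg]) N r B ?_
      rw [neg_comp, hT, C_neg, C_1]; ring

/-- an even iterated square comes from an even or odd polynomial -/
lemma even_or_odd_of_tower_even [CharZero K] (r : ℕ → K) (N : ℕ) : ∀ {U : K[X]},
    0 < U.natDegree → (tower r (N + 1) U).comp (-X) = tower r (N + 1) U →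
    U.comp (-X) = U ∨ U.comp (-X) = -U := by
  induction N generalizing r with
  | zero =>
    intro U hU h
    rw [tower_comp] at h
    simp only [tower_succ, tower_zero] at h
    exact sq_eq_sq_iff_eq_or_eq_neg.mp (add_right_cancel h)
  | succ N ih =>
    intro U hU h
    rw [tower_shift] at h
    have h1 := ih (fun i => r (i + 1)) (U := U ^ 2 + C (r 0))
      (by rw [natDegree_sq_add_C _ hU]; omega) h
    rcases h1 with h1 | h1
    · rw [add_comp, pow_comp, C_comp] at h1
      exact sq_eq_sq_iff_eq_or_eq_neg.mp (add_right_cancel h1)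
    · exfalso
      -- odd polynomial of even degree
      have h2 := congrArg leadingCoeff h1
      have hnd : (U ^ 2 + C (r 0)).natDegree = 2 * U.natDegree := natDegree_sq_add_C _ hU
      rw [leadingCoeff_comp (by simp), leadingCoeff_neg, leadingCoeff_neg, leadingCoeff_X, hnd,
        pow_mul] at h2
      norm_num at h2
      have h3 : (U ^ 2 + C (r 0)).leadingCoeff = 0 := by
        have : (U ^ 2 + C (r 0)).leadingCoeff + (U ^ 2 + C (r 0)).leadingCoeff = 0 := by
          nth_rewrite 1 [h2]; ring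
        linear_combination (1 / 2 : K) * this
      rw [leadingCoeff_eq_zero] at h3
      rw [h3] at hnd
      simp at hnd; omega

/-- an even polynomial is a polynomial in `X ^ 2 + c` -/
lemma exists_comp_of_even [CharZero K] (c : K) {U : K[X]} (h : U.comp (-X) = U) :
    ∃ W : K[X], U = W.comp (X ^ 2 + C c) := by
  have hodd : ∀ i, U.coeff (2 * i + 1) = 0 := by
    intro i
    have h1 := congrArg (fun p => coeff p (2 * i + 1)) h
    rw [show (-X : K[X]) = C (-1) * X by simp, comp_C_mul_X_coeff] at h1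
    have h2 : (-1 : K) ^ (2 * i + 1) = -1 := by rw [pow_succ, pow_mul]; norm_num
    rw [h2] at h1
    linear_combination (-1 / 2 : K) * h1
  have hex : ∃ W₀ : K[X], U = W₀.comp (X ^ 2) := by
    refine ⟨contract 2 U, ?_⟩
    rw [← expand_eq_comp_X_pow]
    ext i
    rw [coeff_expand (by norm_num)]
    split_ifs with hi
    · obtain ⟨j, rfl⟩ := hi
      rw [coeff_contract (by norm_num), Nat.mul_div_cancel_left _ (by norm_num), mul_comm]
    · obtain ⟨j, hj⟩ : ∃ j, i = 2 * j + 1 := ⟨i / 2, by omega⟩
      rw [hj]; exact hodd j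
  obtain ⟨W₀, hW₀⟩ := hex
  refine ⟨W₀.comp (X - C c), ?_⟩
  rw [comp_assoc, hW₀]
  congr 1
  simp

lemma comp_left_cancel {p q W : K[X]} (hW : 0 < W.natDegree) (h : p.comp W = q.comp W) : p = q := by
  have h1 : (p - q).comp W = 0 := by rw [sub_comp, h, sub_self]
  rcases comp_eq_zero_iff.mp h1 with h2 | ⟨_, h2⟩
  · exact sub_eq_zero.mp h2
  · exfalso
    rw [h2, natDegree_C] at hW
    exact lt_irrefl _ hW

/-- semiconjugacies of degree `2 ^ m` -/
lemma classify [CharZero K] {N : ℕ} (m : ℕ) : ∀ (ρ r : ℕ → K) {t B : K[X]}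
    (_ : t.natDegree = 1) (_ : B.natDegree = 2 ^ m)
    (_ : tower r (N + 1) B = t.comp (V ρ (N + 1 + m))), ∃ c : K, B = C c * V ρ m := by
  induction m with
  | zero =>
    intro ρ r t B ht hB h
    have hBd : B.natDegree = 1 := by simpa using hB
    have hev : (tower r (N + 1) B).comp (-X) = tower r (N + 1) B := by
      rw [h, comp_assoc, Nat.add_zero, V_even]
    have h1 := even_or_odd_of_tower_even r N (by omega) hev
    obtain ⟨a, b, hab⟩ : ∃ a b : K, B = C a * X + C b :=
      ⟨_, _, eq_X_add_C_of_natDegree_le_one hBd.le⟩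
    have ha : a ≠ 0 := by
      rintro rfl
      rw [hab] at hBd; simp at hBd
    rcases h1 with h1 | h1
    · exfalso
      rw [hab] at h1
      have h2 := congrArg (fun p => coeff p 1) h1
      simp at h2
      apply ha
      linear_combination (-1 / 2 : K) * h2
    · rw [hab] at h1
      have h2 := congrArg (fun p => coeff p 0) h1
      simp at h2
      have hb : b = 0 := by linear_combination (1 / 2 : K) * h2
      refine ⟨a, ?_⟩
      rw [hab, hb, C_0, add_zero]; rfl
  | succ m ih =>
    intro ρ r t B ht hB h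
    have hB0 : 0 < B.natDegree := by rw [hB]; positivity
    have hev : (tower r (N + 1) B).comp (-X) = tower r (N + 1) B := by
      rw [h, comp_assoc]
      congr 1
      have : N + 1 + (m + 1) = (N + 1 + m) + 1 := by ring
      rw [this, V_even]
    have h1 := even_or_odd_of_tower_even r N hB0 hev
    have h2 : B.comp (-X) = B := by
      rcases h1 with h1 | h1
      · exact h1
      · exfalso
        have h2 := congrArg leadingCoeff h1
        rw [leadingCoeff_comp (by simp), leadingCoeff_neg, leadingCoeff_neg, leadingCoeff_X, hB,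
          pow_succ, mul_comm (2 ^ m), pow_mul] at h2
        norm_num at h2
        have h3 : B.leadingCoeff = 0 := by
          have : B.leadingCoeff + B.leadingCoeff = 0 := by
            nth_rewrite 1 [h2]; ring
          linear_combination (1 / 2 : K) * this
        rw [leadingCoeff_eq_zero] at h3
        rw [h3] at hB0
        simp at hB0
    obtain ⟨W, hW⟩ := exists_comp_of_even (ρ 0) h2
    have hdegq : (X ^ 2 + C (ρ 0) : K[X]).natDegree = 2 := by
      rw [natDegree_sq_add_C _ (by simp), natDegree_X]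
    have hWdeg : W.natDegree = 2 ^ m := by
      have := hB
      rw [hW, natDegree_comp, hdegq, pow_succ] at this
      omega
    have h3 : tower r (N + 1) W = t.comp (V (fun i => ρ (i + 1)) (N + 1 + m)) := by
      apply comp_left_cancel (W := X ^ 2 + C (ρ 0)) (by rw [hdegq]; norm_num)
      rw [tower_comp, ← hW, h, comp_assoc, ← V_shift]
      congr 1
    obtain ⟨c, hc⟩ := ih _ r ht hWdeg h3
    refine ⟨c, ?_⟩
    rw [hW, hc, mul_comp, C_comp, ← V_shift]

/-- comparison of the first constants of two proportional iterated squares -/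
lemma compare_const [CharZero K] [IsAlgClosed K] (n : ℕ) : ∀ (r r' : ℕ → K) {c c₁ : K}
    (_ : c₁ ≠ 0)
    (_ : C c₁ * V r (n + 1) = tower r' (n + 1) (C c * X)), r' 0 = c ^ 2 * r 0 := by
  induction n with
  | zero =>
    intro r r' c c₁ hc₁ h
    simp only [V, tower_succ, tower_zero, zero_add] at h
    have h' : C c₁ * X ^ 2 + C (c₁ * r 0) = C (c ^ 2) * X ^ 2 + C (r' 0) := by
      rw [C_pow, C_mul]
      linear_combination h
    have h2 := congrArg (fun p => coeff p 2) h'
    have h0 := congrArg (fun p => coeff p 0) h'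
    simp only [coeff_add, coeff_C_mul, coeff_X_pow_self, mul_one, coeff_C] at h2
    simp only [coeff_add, coeff_C_mul, coeff_X_pow, coeff_C] at h0
    norm_num at h2 h0
    rw [← h2, h0]
  | succ n ih =>
    intro r r' c c₁ hc₁ h
    obtain ⟨g, hg⟩ := IsAlgClosed.exists_pow_nat_eq c₁ (n := 2) (by norm_num)
    have hg0 : g ≠ 0 := by rintro rfl; apply hc₁; rw [← hg]; norm_num
    have h1 : (C g * V r (n + 1)) ^ 2 - (tower r' (n + 1) (C c * X)) ^ 2
        = C (r' (n + 1) - c₁ * r (n + 1)) := by
      rw [tower_succ] at h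
      change C c₁ * ((V r (n + 1)) ^ 2 + C (r (n + 1))) = _ at h
      rw [mul_pow, ← C_pow, hg, C_sub, C_mul]
      linear_combination h
    have hd : 0 < (C g * V r (n + 1)).natDegree := by
      rw [natDegree_C_mul hg0, V_natDegree]; positivity
    rcases (sub_mul_add_const h1 hd).2 with h2 | h2
    · exact ih r r' hg0 h2
    · refine ih r r' (c₁ := -g) (neg_ne_zero.mpr hg0) ?_
      rw [C_neg, neg_mul, h2, neg_neg]

end Pool.Agent.DMM
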