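import Pool.Agent.DMM.Lattes
import Pool.Agent.DMM.Tower2

/-!
# Polynomial curves semiconjugate to the Lattès lift are rays
-/

namespace Pool.Agent.DMM

open Polynomial

variable {K : Type*} [Field K]

/-- degree at most `e` and coefficient vector `c` in degree `e` -/
def TopIs (e : ℕ) (v : K[X] × K[X]) (c : K × K) : Prop :=
  v.1.natDegree ≤ e ∧ v.2.natDegree ≤ e ∧ v.1.coeff e = c.1 ∧ v.2.coeff e = c.2

lemma TopIs.map_F {e : ℕ} {v : K[X] × K[X]} {c : K × K} (a : K) (h : TopIs e v c) :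
    TopIs (2 * e) (F (C a) v) (F a c) := by
  obtain ⟨h1, h2, h3, h4⟩ := h
  have hC : (C a + 1 : K[X]) = C (a + 1) := by simp
  have hd : (v.1 - (C a + 1) * v.2).natDegree ≤ e := by
    rw [hC]
    apply (natDegree_sub_le _ _).trans
    apply max_le h1
    exact (natDegree_C_mul_le _ _).trans h2
  have hm : (v.1 * v.2).natDegree ≤ 2 * e := by
    apply natDegree_mul_le.trans
    omega
  refine ⟨?_, ?_, ?_, ?_⟩
  · simp only [F]
    apply natDegree_pow_le.trans
    exact Nat.mul_le_mul_left 2 hd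
  · simp only [F]
    rw [← C_pow]
    exact (natDegree_C_mul_le _ _).trans hm
  · simp only [F]
    rw [coeff_pow_of_natDegree_le hd, coeff_sub, hC, coeff_C_mul, h3, h4]
  · simp only [F]
    rw [← C_pow, coeff_C_mul, two_mul, coeff_mul_add_eq_of_natDegree_le h1 h2, h3, h4]

lemma TopIs.iter_F {e : ℕ} {v : K[X] × K[X]} {c : K × K} (a : K) (n : ℕ) (h : TopIs e v c) :
    TopIs (2 ^ n * e) ((F (C a))^[n] v) ((F a)^[n] c) := by
  induction n with
  | zero => simpa using h
  | succ n ih =>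
    rw [Function.iterate_succ_apply', Function.iterate_succ_apply']
    have := ih.map_F a
    rwa [← mul_assoc, ← pow_succ'] at this

lemma coeff_comp_of_le {p Q : K[X]} {e D : ℕ} (hp : p.natDegree ≤ e) (hQ : Q.Monic)
    (hD : Q.natDegree = D) (hD0 : 0 < D) : (p.comp Q).coeff (e * D) = p.coeff e := by
  rcases Nat.lt_or_ge p.natDegree e with h | h
  · rw [coeff_eq_zero_of_natDegree_lt h]
    apply coeff_eq_zero_of_natDegree_lt
    rw [natDegree_comp, hD]
    exact Nat.mul_lt_mul_of_pos_right h hD0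
  · have he : p.natDegree = e := le_antisymm hp h
    have := coeff_comp_degree_mul_degree (p := p) (q := Q) (by rw [hD]; omega)
    rw [he, hD, hQ.leadingCoeff, one_pow, mul_one, leadingCoeff, he] at this
    exact this

lemma wedge_step [CharZero K] {a : K} (ha : a ^ 2 - a + 2 = 0) {n : ℕ} (hn : 1 ≤ n) {e : ℕ}
    {v : K[X] × K[X]} {c : K × K} (hc : c ≠ 0) (hfix : (F a)^[n] c = c) (h : TopIs e v c)
    (j : ℕ) (hw : wedge v (C c.1, C c.2) ≠ 0) :
    wedge ((F (C a))^[j] v) (C ((F a)^[j] c).1, C ((F a)^[j] c).2) ≠ 0 ∧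
    (wedge ((F (C a))^[j] v) (C ((F a)^[j] c).1, C ((F a)^[j] c).2)).natDegree =
      (2 ^ j - 1) * e + (wedge v (C c.1, C c.2)).natDegree := by
  induction j with
  | zero => simpa using hw
  | succ j ih =>
    obtain ⟨ih1, ih2⟩ := ih
    obtain ⟨ha0, _, _, _⟩ := ne_facts ha
    have htop := h.iter_F a j
    set vj := (F (C a))^[j] v with hvj
    set cj := (F a)^[j] c with hcj
    have hcj0 : cj ≠ 0 := fun h0 => hc (F_iter_eq_zero ha j h0)
    have hcjfix : (F a)^[n] cj = cj := by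
      rw [hcj, ← Function.iterate_add_apply, add_comm, Function.iterate_add_apply, hfix]
    have hcrit := periodic_not_critical ha hn hcj0 hcjfix
    rw [Function.iterate_succ_apply', Function.iterate_succ_apply', ← hvj, ← hcj]
    have hFC : (C (F a cj).1, C (F a cj).2) = F (C a) (C cj.1, C cj.2) := by
      simp [F]
    rw [hFC, wedge_F]
    obtain ⟨t1, t2, t3, t4⟩ := htop
    set S : K[X] := vj.1 * C cj.1 - (C a + 1) ^ 2 * (vj.2 * C cj.2) with hS
    have hC : ((C a + 1) ^ 2 : K[X]) = C ((a + 1) ^ 2) := by simp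
    have hScoeff : S.coeff (2 ^ j * e) = cj.1 * cj.1 - (a + 1) ^ 2 * (cj.2 * cj.2) := by
      rw [hS, hC, coeff_sub, coeff_mul_C, coeff_C_mul, coeff_mul_C, t3, t4]
    have hSdeg : S.natDegree = 2 ^ j * e := by
      apply natDegree_eq_of_le_of_coeff_ne_zero
      · rw [hS, hC]
        apply (natDegree_sub_le _ _).trans
        apply max_le
        · exact (natDegree_mul_C_le _ _).trans t1
        · exact (natDegree_C_mul_le _ _).trans ((natDegree_mul_C_le _ _).trans t2)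
      · rw [hScoeff]; exact hcrit
    have hS0 : S ≠ 0 := by
      intro h0
      rw [h0, coeff_zero] at hScoeff
      exact hcrit hScoeff.symm
    have haC : (C a ^ 2 : K[X]) ≠ 0 := by
      rw [← C_pow]; exact C_ne_zero.mpr (pow_ne_zero _ ha0)
    refine ⟨mul_ne_zero (mul_ne_zero haC hS0) ih1, ?_⟩
    rw [natDegree_mul (mul_ne_zero haC hS0) ih1, natDegree_mul haC hS0, ih2, hSdeg, ← C_pow,
      natDegree_C]
    obtain ⟨M, hM⟩ : ∃ M, 2 ^ j = M + 1 := ⟨2 ^ j - 1, by have := Nat.one_le_two_pow (n := j); omega⟩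
    rw [pow_succ, hM]
    have : (M + 1) * 2 - 1 = 2 * M + 1 := by omega
    rw [this, Nat.add_sub_cancel]
    ring

/-- the wedge lemma -/
lemma wedge_main [CharZero K] {a : K} (ha : a ^ 2 - a + 2 = 0) {n : ℕ} (hn : 1 ≤ n)
    {v : K[X] × K[X]} (hv : v ≠ 0) {Q : K[X]} (hQ : Q.Monic) (hQd : Q.natDegree = 2 ^ n)
    (h : (F (C a))^[n] v = (v.1.comp Q, v.2.comp Q)) :
    ∃ (c : K[X]) (v₀ : K × K), v₀ ≠ 0 ∧ (F a)^[n] v₀ = v₀ ∧ v = (c * C v₀.1, c * C v₀.2) ∧
      c.comp Q = c ^ (2 ^ n) := by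
  set e := max v.1.natDegree v.2.natDegree with he
  set v₀ : K × K := (v.1.coeff e, v.2.coeff e) with hv₀
  have htop : TopIs e v v₀ := ⟨le_max_left _ _, le_max_right _ _, rfl, rfl⟩
  have hv₀ne : v₀ ≠ 0 := by
    intro h0
    rw [hv₀, Prod.ext_iff] at h0
    obtain ⟨h1, h2⟩ := h0
    simp only [Prod.fst_zero, Prod.snd_zero] at h1 h2
    rcases le_total v.1.natDegree v.2.natDegree with hle | hle
    · have he2 : e = v.2.natDegree := max_eq_right hle
      rw [he2] at h1 h2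
      have hz : v.2 = 0 := leadingCoeff_eq_zero.mp h2
      rw [hz, natDegree_zero] at h1 hle
      have hz1 : v.1 = 0 := by
        rw [eq_C_of_natDegree_le_zero hle, h1, C_0]
      exact hv (Prod.ext hz1 hz)
    · have he2 : e = v.1.natDegree := max_eq_left hle
      rw [he2] at h1 h2
      have hz : v.1 = 0 := leadingCoeff_eq_zero.mp h1
      rw [hz, natDegree_zero] at h2 hle
      have hz1 : v.2 = 0 := by
        rw [eq_C_of_natDegree_le_zero hle, h2, C_0]
      exact hv (Prod.ext hz hz1)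
  have hD0 : 0 < 2 ^ n := by positivity
  have hfix : (F a)^[n] v₀ = v₀ := by
    have h1 := htop.iter_F a n
    rw [h] at h1
    obtain ⟨_, _, h3, h4⟩ := h1
    simp only at h3 h4
    rw [mul_comm, coeff_comp_of_le htop.1 hQ hQd hD0] at h3
    rw [mul_comm, coeff_comp_of_le htop.2.1 hQ hQd hD0] at h4
    exact (Prod.ext h3 h4).symm
  -- the wedge vanishes
  have hw : wedge v (C v₀.1, C v₀.2) = 0 := by
    by_contra hw
    obtain ⟨_, h2⟩ := wedge_step ha hn hv₀ne hfix htop n hw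
    rw [h, hfix] at h2
    have h3 : wedge (v.1.comp Q, v.2.comp Q) (C v₀.1, C v₀.2) =
        (wedge v (C v₀.1, C v₀.2)).comp Q := by
      simp [wedge]
    rw [h3, natDegree_comp, hQd] at h2
    set δ := (wedge v (C v₀.1, C v₀.2)).natDegree with hδ
    obtain ⟨M, hM⟩ : ∃ M, 2 ^ n = M + 2 := by
      obtain ⟨k, hk⟩ : ∃ k, n = k + 1 := ⟨n - 1, by omega⟩
      have := Nat.one_le_two_pow (n := k)
      exact ⟨2 ^ n - 2, by rw [hk, pow_succ]; omega⟩
    rw [hM] at h2
    have h4 : M + 2 - 1 = M + 1 := by omega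
    rw [h4] at h2
    have h5 : (M + 1) * δ = (M + 1) * e := by nlinarith
    have h6 : δ = e := Nat.eq_of_mul_eq_mul_left (by omega) h5
    have h7 : (wedge v (C v₀.1, C v₀.2)).coeff e = 0 := by
      simp only [wedge, coeff_sub, coeff_mul_C]
      rw [hv₀]; ring
    rw [← h6, hδ] at h7
    exact hw (leadingCoeff_eq_zero.mp h7)
  obtain ⟨c, hc⟩ : ∃ c : K[X], v = (c * C v₀.1, c * C v₀.2) := by
    simp only [wedge] at hw
    by_cases h1 : v₀.1 = 0
    · have h2 : v₀.2 ≠ 0 := fun h2 => hv₀ne (Prod.ext h1 h2)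
      refine ⟨v.2 * C (1 / v₀.2), ?_⟩
      have h3 : C (1 / v₀.2) * C v₀.2 = (1 : K[X]) := by
        rw [← C_mul, one_div_mul_cancel h2, C_1]
      apply Prod.ext
      · simp only
        rw [h1] at hw ⊢
        simp only [C_0, mul_zero, sub_zero, mul_eq_zero] at hw ⊢
        rcases hw with hw | hw
        · exact hw
        · exact absurd (C_eq_zero.mp hw) h2
      · simp only
        rw [mul_assoc, h3, mul_one]
    · refine ⟨v.1 * C (1 / v₀.1), ?_⟩
      have h3 : C (1 / v₀.1) * C v₀.1 = (1 : K[X]) := by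
        rw [← C_mul, one_div_mul_cancel h1, C_1]
      apply Prod.ext
      · simp only
        rw [mul_assoc, h3, mul_one]
      · simp only
        linear_combination (- v.2) * h3 - C (1 / v₀.1) * hw
  refine ⟨c, v₀, hv₀ne, hfix, hc, ?_⟩
  have h1 : (F (C a))^[n] v = c ^ (2 ^ n) • (C v₀.1, C v₀.2) := by
    have h2 : v = c • (C v₀.1, C v₀.2) := by rw [hc]; simp
    conv_lhs => rw [h2, F_iter_smul]
    congr 1
    have := F_iter_map (C : K →+* K[X]) a n v₀
    rw [hfix] at this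
    exact this
  rw [h] at h1
  rw [Prod.ext_iff] at h1
  obtain ⟨h2, h3⟩ := h1
  simp only [Prod.smul_fst, Prod.smul_snd, smul_eq_mul] at h2 h3
  have e1 : v.1 = c * C v₀.1 := by rw [hc]
  have e2 : v.2 = c * C v₀.2 := by rw [hc]
  rw [e1, mul_comp, C_comp] at h2
  rw [e2, mul_comp, C_comp] at h3
  by_cases h4 : v₀.1 = 0
  · have h5 : v₀.2 ≠ 0 := fun h5 => hv₀ne (Prod.ext h4 h5)
    exact mul_right_cancel₀ (C_ne_zero.mpr h5) h3
  · exact mul_right_cancel₀ (C_ne_zero.mpr h4) h2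

/-- roots of `c` when `c ∘ Q = c ^ D`, `Q` even -/
lemma roots_subset_zero [CharZero K] [IsAlgClosed K] {c Q : K[X]} {D : ℕ} (hD : 0 < D)
    (hc : c ≠ 0) (hQ : 0 < Q.natDegree) (hev : Q.comp (-X) = Q) (h : c.comp Q = c ^ D) {z : K}
    (hz : c.IsRoot z) : z = 0 := by
  classical
  have hsurj : Function.Surjective (fun z => Q.eval z) := by
    intro y
    obtain ⟨z, hz⟩ := IsAlgClosed.exists_root (Q - C y) (by
      intro h0
      have := natDegree_eq_zero_iff_degree_le_zero.mpr h0.le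
      rw [natDegree_sub_C] at this
      omega)
    exact ⟨z, by simpa [sub_eq_zero] using hz⟩
  have hfin : {z | c.IsRoot z}.Finite := by
    apply Set.Finite.subset (Finset.finite_toSet c.roots.toFinset)
    intro z hz
    simp only [Finset.mem_coe, Multiset.mem_toFinset]
    exact (mem_roots hc).mpr hz
  have hinv : ∀ z, z ∈ {z | c.IsRoot z} ↔ Q.eval z ∈ {z | c.IsRoot z} := by
    intro z
    simp only [Set.mem_ofPred_eq, IsRoot.def]
    rw [← eval_comp, h, eval_pow, pow_eq_zero_iff (by omega)]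
  have hinj := injOn_of_totally_invariant hsurj hfin hinv
  have hev' : Q.eval (-z) = Q.eval z := by
    conv_rhs => rw [← hev]
    simp
  have hz' : -z ∈ {z | c.IsRoot z} := by
    rw [hinv, hev', ← hinv]; exact hz
  have := hinj hz hz' hev'.symm
  have h2 : 2 * z = 0 := by linear_combination this
  simpa using h2

lemma eq_C_mul_X_pow [IsAlgClosed K] {c : K[X]} (hc : c ≠ 0) (h : ∀ z, c.IsRoot z → z = 0) :
    ∃ (a : K) (k : ℕ), a ≠ 0 ∧ c = C a * X ^ k := by
  obtain ⟨q, hq, hndvd⟩ := exists_eq_pow_rootMultiplicity_mul_and_not_dvd c hc 0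
  rw [C_0, sub_zero] at hq hndvd
  have hq0 : q ≠ 0 := by rintro rfl; exact hndvd (dvd_zero _)
  have hqd : q.degree = 0 := by
    by_contra hd
    obtain ⟨r, hr⟩ := IsAlgClosed.exists_root q hd
    have hr' : c.IsRoot r := by rw [hq]; exact root_mul_left_of_isRoot _ hr
    have hr0 := h r hr'
    subst hr0
    apply hndvd
    rw [X_dvd_iff, coeff_zero_eq_eval_zero]; exact hr
  obtain ⟨a, ha⟩ : ∃ a, q = C a := ⟨_, eq_C_of_degree_eq_zero hqd⟩
  refine ⟨a, c.rootMultiplicity 0, ?_, ?_⟩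
  · rintro rfl; exact hq0 (by rw [ha, C_0])
  · rw [ha] at hq
    rw [mul_comm]; exact hq

/-- a polynomial curve semiconjugate to `F ^ n` by an even polynomial which is not totally
ramified at `0` is constant -/
lemma curve_const [CharZero K] [IsAlgClosed K] {a : K} (ha : a ^ 2 - a + 2 = 0) {n : ℕ}
    (hn : 1 ≤ n) {v : K[X] × K[X]} {Q : K[X]} (hQ : Q.Monic) (hQd : Q.natDegree = 2 ^ n)
    (hev : Q.comp (-X) = Q) (hQ0 : ∃ z ≠ 0, Q.eval z = 0)
    (h : (F (C a))^[n] v = (v.1.comp Q, v.2.comp Q)) :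
    ∃ v₀ : K × K, v = (C v₀.1, C v₀.2) := by
  by_cases hv : v = 0
  · exact ⟨0, by rw [hv]; simp [Prod.ext_iff]⟩
  obtain ⟨c, v₀, hv₀, _, hcv, hc⟩ := wedge_main ha hn hv hQ hQd h
  have hc0 : c ≠ 0 := by
    rintro rfl
    apply hv; rw [hcv]; simp
  have hroot : ∀ z, c.IsRoot z → z = 0 := fun z hz =>
    roots_subset_zero (by positivity) hc0 (by rw [hQd]; positivity) hev hc hz
  obtain ⟨b, k, hb, hck⟩ := eq_C_mul_X_pow hc0 hroot
  have hk : k = 0 := by
    by_contra hk
    obtain ⟨z, hz0, hz⟩ := hQ0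
    have h1 : (c.comp Q).eval z = 0 := by
      rw [eval_comp, hz, hck]
      simp [hk]
    rw [hc, eval_pow, pow_eq_zero_iff (by positivity)] at h1
    exact hz0 (hroot z h1)
  subst hk
  rw [pow_zero, mul_one] at hck
  exact ⟨(b * v₀.1, b * v₀.2), by rw [hcv, hck]; simp⟩

/-- a polynomial curve semiconjugate to `F ^ n` by `X ^ (2 ^ n)` is a monomial ray -/
lemma curve_monomial [CharZero K] [IsAlgClosed K] {a : K} (ha : a ^ 2 - a + 2 = 0) {n : ℕ}
    (hn : 1 ≤ n) {v : K[X] × K[X]} (h : (F (C a))^[n] v = (v.1.comp (X ^ (2 ^ n)), v.2.comp (X ^ (2 ^ n)))) :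
    ∃ (k : ℕ) (v₀ : K × K), v = (C v₀.1 * X ^ k, C v₀.2 * X ^ k) := by
  by_cases hv : v = 0
  · exact ⟨0, 0, by rw [hv]; simp [Prod.ext_iff]⟩
  have hQ : (X ^ (2 ^ n) : K[X]).Monic := monic_X_pow _
  have hQd : (X ^ (2 ^ n) : K[X]).natDegree = 2 ^ n := natDegree_X_pow _
  have hev : (X ^ (2 ^ n) : K[X]).comp (-X) = X ^ (2 ^ n) := by
    obtain ⟨k, hk⟩ : ∃ k, n = k + 1 := ⟨n - 1, by omega⟩
    rw [X_pow_comp, hk, pow_succ', pow_mul, neg_sq, ← pow_mul]
  obtain ⟨c, v₀, hv₀, _, hcv, hc⟩ := wedge_main ha hn hv hQ hQd h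
  have hc0 : c ≠ 0 := by
    rintro rfl
    apply hv; rw [hcv]; simp
  obtain ⟨b, k, hb, hck⟩ := eq_C_mul_X_pow hc0 fun z hz =>
    roots_subset_zero (by positivity) hc0 (by rw [hQd]; positivity) hev hc hz
  refine ⟨k, (b * v₀.1, b * v₀.2), ?_⟩
  rw [hcv, hck]
  simp only [Prod.mk.injEq, C_mul]
  constructor <;> ring

end Pool.Agent.DMM
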