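import Pool.Agent.DMM.Density
import Pool.Agent.DMM.Wedge

/-!
# The skew product `g` and maps semiconjugate to the base
-/

namespace Pool.Agent.DMM

open Polynomial

/-- points of affine five-space, written as `(x, y, w)` -/
abbrev Pt (R : Type*) := (R × R) × (R × R) × R

/-- the fibre constant -/
def Rho {R : Type*} [CommRing R] (x y : R × R) : R := x.2 ^ 2 + y.2 ^ 2

/-- the skew product -/
def g {R : Type*} [CommRing R] (a b : R) (v : Pt R) : Pt R :=
  (F a v.1, F b v.2.1, v.2.2 ^ 2 + Rho v.1 v.2.1)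

/-- the constants along an orbit -/
def rho {R : Type*} [CommRing R] (a b : R) (x y : R × R) (j : ℕ) : R :=
  Rho ((F a)^[j] x) ((F b)^[j] y)

section ring

variable {R : Type*} [CommRing R]

lemma g_iter_fst (a b : R) (n : ℕ) (v : Pt R) : ((g a b)^[n] v).1 = (F a)^[n] v.1 := by
  induction n with
  | zero => rfl
  | succ n ih => rw [Function.iterate_succ_apply', Function.iterate_succ_apply', ← ih]; rfl

lemma g_iter_snd (a b : R) (n : ℕ) (v : Pt R) : ((g a b)^[n] v).2.1 = (F b)^[n] v.2.1 := by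
  induction n with
  | zero => rfl
  | succ n ih => rw [Function.iterate_succ_apply', Function.iterate_succ_apply', ← ih]; rfl

lemma g_iter_trd_succ (a b : R) (n : ℕ) (v : Pt R) :
    ((g a b)^[n + 1] v).2.2 = ((g a b)^[n] v).2.2 ^ 2 + rho a b v.1 v.2.1 n := by
  rw [Function.iterate_succ_apply', rho, ← g_iter_fst a b n v, ← g_iter_snd a b n v]; rfl

lemma rho_shift (a b : R) (x y : R × R) (m : ℕ) :
    rho a b ((F a)^[m] x) ((F b)^[m] y) = fun i => rho a b x y (i + m) := by
  funext i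
  simp only [rho, ← Function.iterate_add_apply]

end ring

variable {K : Type*} [Field K]

/-- evaluation of polynomial points -/
def evP (t : K) (V : Pt K[X]) : Pt K :=
  ((V.1.1.eval t, V.1.2.eval t), (V.2.1.1.eval t, V.2.1.2.eval t), V.2.2.eval t)

lemma evP_ext [Infinite K] {U V : Pt K[X]} (h : ∀ t, evP t U = evP t V) : U = V := by
  simp only [evP, Prod.mk.injEq] at h
  apply Prod.ext
  · apply Prod.ext
    · exact Polynomial.funext fun t => (h t).1.1
    · exact Polynomial.funext fun t => (h t).1.2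
  · apply Prod.ext
    · apply Prod.ext
      · exact Polynomial.funext fun t => (h t).2.1.1
      · exact Polynomial.funext fun t => (h t).2.1.2
    · exact Polynomial.funext fun t => (h t).2.2

lemma evP_g (a b t : K) (V : Pt K[X]) : evP t (g (C a) (C b) V) = g a b (evP t V) := by
  simp [evP, g, F, Rho]

lemma evP_g_iter (a b t : K) (n : ℕ) (V : Pt K[X]) :
    evP t ((g (C a) (C b))^[n] V) = (g a b)^[n] (evP t V) := by
  induction n with
  | zero => rfl
  | succ n ih => rw [Function.iterate_succ_apply', Function.iterate_succ_apply', evP_g, ih]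

/-- constant vectors as polynomials -/
noncomputable def CC (x : K × K) : K[X] × K[X] := (C x.1, C x.2)

lemma g_iter_C (a b : K) (x y : K × K) (W : K[X]) (n : ℕ) :
    (g (C a) (C b))^[n] (CC x, CC y, W) =
      (CC ((F a)^[n] x), CC ((F b)^[n] y), tower (rho a b x y) n W) := by
  induction n with
  | zero => rfl
  | succ n ih =>
    rw [Function.iterate_succ_apply', Function.iterate_succ_apply', Function.iterate_succ_apply',
      ih]
    simp only [g, Prod.mk.injEq]
    refine ⟨?_, ?_, ?_⟩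
    · simp [F, CC]
    · simp [F, CC]
    · rw [tower_succ]
      simp [CC, Rho, rho]

/-- a map to the plane which sends polynomial curves to polynomial curves -/
def PolyC (H : Pt K → K × K) : Prop :=
  ∀ V : Pt K[X], ∃ u : K[X] × K[X], ∀ t, H (evP t V) = (u.1.eval t, u.2.eval t)

lemma rho_xi {a b : K} (ha : a ≠ 0) (hb : b ≠ 0) (n : ℕ) :
    rho a b (xi a) (xi b) n = (a ^ 4)⁻¹ + (b ^ 4)⁻¹ := by
  rw [rho, F_iter_xi ha, F_iter_xi hb]
  simp only [Rho, xi]
  rw [inv_pow, ← pow_mul, inv_pow, ← pow_mul]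

/-- relations between the two roots -/
lemma beta_facts [CharZero K] {a b : K} (ha : a ^ 2 - a + 2 = 0) (hab : a + b = 1) :
    b ^ 2 - b + 2 = 0 ∧ (a ^ 4)⁻¹ + (b ^ 4)⁻¹ ≠ 0 := by
  have hb : b = 1 - a := by linear_combination hab
  have hb2 : b ^ 2 - b + 2 = 0 := by rw [hb]; linear_combination ha
  obtain ⟨h0, _, _, _⟩ := ne_facts ha
  obtain ⟨h0', _, _, _⟩ := ne_facts hb2
  refine ⟨hb2, ?_⟩
  have hprod : a * b = 2 := by rw [hb]; linear_combination -ha
  have hsum : a ^ 4 + b ^ 4 = 1 := by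
    have h2 : a ^ 2 + b ^ 2 = -3 := by linear_combination (a + b + 1) * hab - 2 * hprod
    linear_combination (a ^ 2 + b ^ 2 - 3) * h2 - 2 * (a * b + 2) * hprod
  have : (a ^ 4)⁻¹ + (b ^ 4)⁻¹ = (16 : K)⁻¹ := by
    have h16 : a ^ 4 * b ^ 4 = 16 := by rw [← mul_pow, hprod]; norm_num
    field_simp
    linear_combination 16 * hsum - h16
  rw [this]
  norm_num

/-- a nonzero root of `V ρ (n + 1)` when `ρ n ≠ 0` -/
lemma exists_root_V [CharZero K] [IsAlgClosed K] (ρ : ℕ → K) (n : ℕ) (h : ρ n ≠ 0) :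
    ∃ z ≠ 0, (V ρ (n + 1)).eval z = 0 := by
  obtain ⟨s, hs⟩ := IsAlgClosed.exists_pow_nat_eq (-ρ n) (n := 2) (by norm_num)
  have hs0 : s ≠ 0 := by
    rintro rfl
    apply h; linear_combination hs
  obtain ⟨s', hs', hne⟩ : ∃ s' : K, s' ^ 2 = -ρ n ∧ (V ρ n).eval 0 ≠ s' := by
    by_cases h1 : (V ρ n).eval 0 = s
    · refine ⟨-s, by rw [neg_sq, hs], ?_⟩
      rw [h1]
      intro h2
      apply hs0
      linear_combination (1 / 2 : K) * h2
    · exact ⟨s, hs, h1⟩
  obtain ⟨z, hz⟩ := IsAlgClosed.exists_root (V ρ n - C s') (by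
    intro h0
    have := natDegree_eq_zero_iff_degree_le_zero.mpr h0.le
    rw [natDegree_sub_C, V_natDegree] at this
    have h3 : 0 < 2 ^ n := by positivity
    omega)
  have hz' : (V ρ n).eval z = s' := by simpa [sub_eq_zero] using hz
  refine ⟨z, ?_, ?_⟩
  · rintro rfl; exact hne hz'
  · change ((V ρ n) ^ 2 + C (ρ n)).eval z = 0
    rw [eval_add, eval_pow, hz', hs', eval_C]; ring

section semi

variable [CharZero K] [IsAlgClosed K] {a b e : K} {n : ℕ} {H : Pt K → K × K}

omit [CharZero K] [IsAlgClosed K] in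
lemma comm_iter (hcomm : ∀ v, H ((g a b)^[n] v) = (F e)^[n] (H v)) (l : ℕ) (v : Pt K) :
    H ((g a b)^[n * l] v) = (F e)^[n * l] (H v) := by
  induction l with
  | zero => simp
  | succ l ih =>
    rw [Nat.mul_succ, add_comm, Function.iterate_add_apply, hcomm, ih,
      ← Function.iterate_add_apply]

omit [CharZero K] [IsAlgClosed K] in
lemma exists_common_time (ha : a ≠ 0) (hb : b ≠ 0) (hn : 1 ≤ n) {x y : K × K} (hx : x ∈ BO a)
    (hy : y ∈ BO b) : ∃ l, (F a)^[n * l] x = xi a ∧ (F b)^[n * l] y = xi b := by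
  obtain ⟨i, hi⟩ := hx
  obtain ⟨j, hj⟩ := hy
  refine ⟨i + j, ?_, ?_⟩
  · obtain ⟨k, hk⟩ : ∃ k, n * (i + j) = k + i := ⟨n * (i + j) - i, by nlinarith [Nat.sub_add_cancel (show i ≤ n * (i + j) by nlinarith)]⟩
    rw [hk, Function.iterate_add_apply, hi, F_iter_xi ha]
  · obtain ⟨k, hk⟩ : ∃ k, n * (i + j) = k + j := ⟨n * (i + j) - j, by nlinarith [Nat.sub_add_cancel (show j ≤ n * (i + j) by nlinarith)]⟩
    rw [hk, Function.iterate_add_apply, hj, F_iter_xi hb]

/-- two-variable density -/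
lemma BO_dense₂ (ha : a ^ 2 - a + 2 = 0) (hb : b ^ 2 - b + 2 = 0) {φ : K × K → K × K → K}
    (h1 : ∀ y, LinePoly (fun x => φ x y)) (h2 : ∀ x, LinePoly (fun y => φ x y))
    (h : ∀ x ∈ BO a, ∀ y ∈ BO b, φ x y = 0) (x y : K × K) : φ x y = 0 := by
  have h3 : ∀ x ∈ BO a, ∀ y, φ x y = 0 := fun x hx y => BO_dense hb (h2 x) (h x hx) y
  exact BO_dense ha (h1 y) (fun x hx => h3 x hx y) x

/-- independence of the fibre coordinate -/
theorem indep_w (ha : a ^ 2 - a + 2 = 0) (hab : a + b = 1) (he : e ^ 2 - e + 2 = 0) (hn : 1 ≤ n)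
    (hH : PolyC H) (hcomm : ∀ v, H ((g a b)^[n] v) = (F e)^[n] (H v)) (x y : K × K) (w : K) :
    H (x, y, w) = H (x, y, 0) := by
  obtain ⟨hb, hne⟩ := beta_facts ha hab
  obtain ⟨ha0, _, _, _⟩ := ne_facts ha
  obtain ⟨hb0, _, _, _⟩ := ne_facts hb
  -- at the fixed vector
  obtain ⟨v, hv⟩ := hH (CC (xi a), CC (xi b), X)
  have hv' : ∀ t, H (xi a, xi b, t) = (v.1.eval t, v.2.eval t) := by
    intro t
    rw [← hv t]
    simp [evP, CC]
  obtain ⟨n', rfl⟩ : ∃ n', n = n' + 1 := ⟨n - 1, by omega⟩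
  have hxi : ∀ t, (g a b)^[n' + 1] (xi a, xi b, t) =
      (xi a, xi b, (V (rho a b (xi a) (xi b)) (n' + 1)).eval t) := by
    intro t
    have h1 := evP_g_iter a b t (n' + 1) (CC (xi a), CC (xi b), X)
    rw [g_iter_C, F_iter_xi ha0, F_iter_xi hb0] at h1
    simp only [evP, CC, eval_C, eval_X] at h1
    rw [V]
    exact h1.symm
  have hsemi : (F (C e))^[n' + 1] v = (v.1.comp (V (rho a b (xi a) (xi b)) (n' + 1)),
      v.2.comp (V (rho a b (xi a) (xi b)) (n' + 1))) := by
    have h1 : ∀ t, (F e)^[n' + 1] (v.1.eval t, v.2.eval t) =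
        (v.1.eval ((V (rho a b (xi a) (xi b)) (n' + 1)).eval t),
        v.2.eval ((V (rho a b (xi a) (xi b)) (n' + 1)).eval t)) := by
      intro t
      rw [← hv' t, ← hcomm, hxi, hv']
    have h2 : ∀ t, Prod.map (evalRingHom t) (evalRingHom t) ((F (C e))^[n' + 1] v) =
        (F e)^[n' + 1] (v.1.eval t, v.2.eval t) := by
      intro t
      rw [← F_iter_map]
      simp
      rfl
    apply Prod.ext
    · apply Polynomial.funext
      intro t
      have h3 := congrArg Prod.fst ((h2 t).trans (h1 t))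
      simp only [eval_comp]
      exact h3
    · apply Polynomial.funext
      intro t
      have h3 := congrArg Prod.snd ((h2 t).trans (h1 t))
      simp only [eval_comp]
      exact h3
  obtain ⟨v₀, hv₀⟩ := curve_const he hn (V_monic _ _) (V_natDegree _ _) (V_even _ _)
    (exists_root_V _ _ (by rw [rho_xi ha0 hb0]; exact hne)) hsemi
  have hconst : ∀ t, H (xi a, xi b, t) = v₀ := by
    intro t
    rw [hv', hv₀]; simp
  -- on the backward orbit
  have hBO : ∀ x ∈ BO a, ∀ y ∈ BO b, ∀ w, H (x, y, w) = H (x, y, 0) := by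
    intro x hx y hy w
    obtain ⟨l, hl1, hl2⟩ := exists_common_time ha0 hb0 hn hx hy
    obtain ⟨u, hu⟩ := hH (CC x, CC y, X)
    have hu' : ∀ t, H (x, y, t) = (u.1.eval t, u.2.eval t) := by
      intro t
      rw [← hu t]
      simp [evP, CC]
    have h1 : ∀ t : K, (F e)^[(n' + 1) * l] (u.1.eval t, u.2.eval t) =
        (t ^ 0) ^ (2 ^ ((n' + 1) * l)) • v₀ := by
      intro t
      rw [← hu', ← comm_iter hcomm, pow_zero, one_pow, one_smul]
      have h2 : (g a b)^[(n' + 1) * l] (x, y, t) =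
          (xi a, xi b, ((g a b)^[(n' + 1) * l] (x, y, t)).2.2) := by
        apply Prod.ext
        · rw [g_iter_fst]; exact hl1
        · apply Prod.ext
          · rw [g_iter_snd]; exact hl2
          · rfl
      rw [h2, hconst]
    obtain ⟨v₁, hv₁⟩ := curve_of_finite_image he h1
    rw [hu', hu', hv₁]
    simp
  -- density
  have hlin1 : ∀ (w : K) (y : K × K), LinePoly (fun x => (H (x, y, w)).1) ∧
      LinePoly (fun x => (H (x, y, w)).2) := by
    intro w y
    constructor <;> intro x x'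
    · obtain ⟨u, hu⟩ := hH ((C x.1 + X * C x'.1, C x.2 + X * C x'.2), CC y, C w)
      refine ⟨u.1, fun t => ?_⟩
      have := congrArg Prod.fst (hu t)
      simp only [evP, CC, eval_add, eval_mul, eval_C, eval_X] at this
      rw [← this]; rfl
    · obtain ⟨u, hu⟩ := hH ((C x.1 + X * C x'.1, C x.2 + X * C x'.2), CC y, C w)
      refine ⟨u.2, fun t => ?_⟩
      have := congrArg Prod.snd (hu t)
      simp only [evP, CC, eval_add, eval_mul, eval_C, eval_X] at this
      rw [← this]; rfl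
  have hlin2 : ∀ (w : K) (x : K × K), LinePoly (fun y => (H (x, y, w)).1) ∧
      LinePoly (fun y => (H (x, y, w)).2) := by
    intro w x
    constructor <;> intro y y'
    · obtain ⟨u, hu⟩ := hH (CC x, (C y.1 + X * C y'.1, C y.2 + X * C y'.2), C w)
      refine ⟨u.1, fun t => ?_⟩
      have := congrArg Prod.fst (hu t)
      simp only [evP, CC, eval_add, eval_mul, eval_C, eval_X] at this
      rw [← this]; rfl
    · obtain ⟨u, hu⟩ := hH (CC x, (C y.1 + X * C y'.1, C y.2 + X * C y'.2), C w)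
      refine ⟨u.2, fun t => ?_⟩
      have := congrArg Prod.snd (hu t)
      simp only [evP, CC, eval_add, eval_mul, eval_C, eval_X] at this
      rw [← this]; rfl
  have hsub : ∀ {φ ψ : K × K → K}, LinePoly φ → LinePoly ψ → LinePoly (fun x => φ x - ψ x) := by
    intro φ ψ h1 h2 x y
    obtain ⟨p, hp⟩ := h1 x y
    obtain ⟨q, hq⟩ := h2 x y
    exact ⟨p - q, fun t => by rw [eval_sub, ← hp, ← hq]⟩
  apply Prod.ext
  · have := BO_dense₂ ha hb (φ := fun x y => (H (x, y, w)).1 - (H (x, y, 0)).1)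
      (fun y => hsub (hlin1 w y).1 (hlin1 0 y).1) (fun x => hsub (hlin2 w x).1 (hlin2 0 x).1)
      (fun x hx y hy => by rw [hBO x hx y hy w]; ring) x y
    exact sub_eq_zero.mp this
  · have := BO_dense₂ ha hb (φ := fun x y => (H (x, y, w)).2 - (H (x, y, 0)).2)
      (fun y => hsub (hlin1 w y).2 (hlin1 0 y).2) (fun x => hsub (hlin2 w x).2 (hlin2 0 x).2)
      (fun x hx y hy => by rw [hBO x hx y hy w]; ring) x y
    exact sub_eq_zero.mp this

end semi

end Pool.Agent.DMM
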