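import Pool.Agent.DMM.Skew

/-!
# Homogeneity in the second base coordinate
-/

namespace Pool.Agent.DMM

open Polynomial

variable {K : Type*} [Field K]

section semi

variable [CharZero K] [IsAlgClosed K] {a b e : K} {n : ℕ} {H : Pt K → K × K}

/-- homogeneity in `y` -/
theorem homog_y (ha : a ^ 2 - a + 2 = 0) (hab : a + b = 1) (he : e ^ 2 - e + 2 = 0) (hn : 1 ≤ n)
    (hH : PolyC H) (hcomm : ∀ v, H ((g a b)^[n] v) = (F e)^[n] (H v)) :
    ∃ k : ℕ, ∀ (x y : K × K) (t : K), H (x, t • y, 0) = t ^ k • H (x, y, 0) := by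
  obtain ⟨hb, hne⟩ := beta_facts ha hab
  obtain ⟨ha0, _, _, _⟩ := ne_facts ha
  obtain ⟨hb0, _, _, _⟩ := ne_facts hb
  have hind := indep_w ha hab he hn hH hcomm
  have hbase : ∀ (l : ℕ) (x y : K × K), (F e)^[n * l] (H (x, y, 0)) =
      H ((F a)^[n * l] x, (F b)^[n * l] y, 0) := by
    intro l x y
    rw [← comm_iter hcomm]
    have h2 : (g a b)^[n * l] (x, y, 0) = ((F a)^[n * l] x, (F b)^[n * l] y,
        ((g a b)^[n * l] (x, y, 0)).2.2) := by
      apply Prod.ext
      · rw [g_iter_fst]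
      · apply Prod.ext
        · rw [g_iter_snd]
        · rfl
    rw [h2, hind]
  obtain ⟨v, hv⟩ := hH (CC (xi a), (X * C (xi b).1, X * C (xi b).2), 0)
  have hv' : ∀ t : K, H (xi a, t • xi b, 0) = (v.1.eval t, v.2.eval t) := by
    intro t
    rw [← hv t]
    simp only [evP, CC, eval_mul, eval_C, eval_X, eval_zero]
    rfl
  have hsemi : (F (C e))^[n] v = (v.1.comp (X ^ (2 ^ n)), v.2.comp (X ^ (2 ^ n))) := by
    have h1 : ∀ t : K, (F e)^[n] (v.1.eval t, v.2.eval t) =
        (v.1.eval (t ^ (2 ^ n)), v.2.eval (t ^ (2 ^ n))) := by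
      intro t
      have h3 := hbase 1 (xi a) (t • xi b)
      rw [mul_one, F_iter_smul, F_iter_xi ha0, F_iter_xi hb0, hv', hv'] at h3
      exact h3
    have h2 : ∀ t, Prod.map (evalRingHom t) (evalRingHom t) ((F (C e))^[n] v) =
        (F e)^[n] (v.1.eval t, v.2.eval t) := by
      intro t
      rw [← F_iter_map]
      simp
      rfl
    apply Prod.ext
    · apply Polynomial.funext
      intro t
      have h3 := congrArg Prod.fst ((h2 t).trans (h1 t))
      simp only [eval_comp, eval_pow, eval_X]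
      exact h3
    · apply Polynomial.funext
      intro t
      have h3 := congrArg Prod.snd ((h2 t).trans (h1 t))
      simp only [eval_comp, eval_pow, eval_X]
      exact h3
  obtain ⟨k, v₀, hv₀⟩ := curve_monomial he hn hsemi
  refine ⟨k, ?_⟩
  have hxi : ∀ t : K, H (xi a, t • xi b, 0) = t ^ k • v₀ := by
    intro t
    rw [hv', hv₀]
    simp only [eval_mul, eval_C, eval_pow, eval_X]
    apply Prod.ext
    · simp [mul_comm]
    · simp [mul_comm]
  have hBO : ∀ x ∈ BO a, ∀ y ∈ BO b, ∀ t : K, H (x, t • y, 0) = t ^ k • H (x, y, 0) := by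
    intro x hx y hy t
    obtain ⟨l, hl1, hl2⟩ := exists_common_time ha0 hb0 hn hx hy
    obtain ⟨u, hu⟩ := hH (CC x, (X * C y.1, X * C y.2), 0)
    have hu' : ∀ t : K, H (x, t • y, 0) = (u.1.eval t, u.2.eval t) := by
      intro t
      rw [← hu t]
      simp only [evP, CC, eval_mul, eval_C, eval_X, eval_zero]
      rfl
    have h1 : ∀ t : K, (F e)^[n * l] (u.1.eval t, u.2.eval t) =
        (t ^ k) ^ (2 ^ (n * l)) • v₀ := by
      intro t
      rw [← hu', hbase, F_iter_smul, hl1, hl2, hxi, ← pow_mul, ← pow_mul, mul_comm]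
    obtain ⟨v₁, hv₁⟩ := curve_of_finite_image he h1
    have h2 : ∀ t : K, H (x, t • y, 0) = t ^ k • v₁ := by
      intro t
      rw [hu', hv₁]
      simp only [eval_mul, eval_C, eval_pow, eval_X]
      apply Prod.ext
      · simp [mul_comm]
      · simp [mul_comm]
    have h3 := h2 1
    rw [one_smul, one_pow, one_smul] at h3
    rw [h2, h3]
  have hsub : ∀ {φ ψ : K × K → K}, LinePoly φ → LinePoly ψ → LinePoly (fun x => φ x - ψ x) := by
    intro φ ψ h1 h2 x y
    obtain ⟨p, hp⟩ := h1 x y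
    obtain ⟨q, hq⟩ := h2 x y
    exact ⟨p - q, fun t => by rw [eval_sub, ← hp, ← hq]⟩
  have hmul : ∀ (c : K) {φ : K × K → K}, LinePoly φ → LinePoly (fun x => c * φ x) := by
    intro c φ h1 x y
    obtain ⟨p, hp⟩ := h1 x y
    exact ⟨C c * p, fun t => by rw [eval_mul, eval_C, ← hp]⟩
  have hlin1 : ∀ (t : K) (y : K × K), LinePoly (fun x => (H (x, t • y, 0)).1) ∧
      LinePoly (fun x => (H (x, t • y, 0)).2) := by
    intro s y
    constructor <;> intro x x'
    · obtain ⟨u, hu⟩ := hH ((C x.1 + X * C x'.1, C x.2 + X * C x'.2), CC (s • y), 0)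
      refine ⟨u.1, fun t => ?_⟩
      have := congrArg Prod.fst (hu t)
      simp only [evP, CC, eval_add, eval_mul, eval_C, eval_X, eval_zero] at this
      rw [← this]; rfl
    · obtain ⟨u, hu⟩ := hH ((C x.1 + X * C x'.1, C x.2 + X * C x'.2), CC (s • y), 0)
      refine ⟨u.2, fun t => ?_⟩
      have := congrArg Prod.snd (hu t)
      simp only [evP, CC, eval_add, eval_mul, eval_C, eval_X, eval_zero] at this
      rw [← this]; rfl
  have hlin2 : ∀ (s : K) (x : K × K), LinePoly (fun y => (H (x, s • y, 0)).1) ∧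
      LinePoly (fun y => (H (x, s • y, 0)).2) := by
    intro s x
    constructor <;> intro y y'
    · obtain ⟨u, hu⟩ := hH (CC x, (C s * (C y.1 + X * C y'.1), C s * (C y.2 + X * C y'.2)), 0)
      refine ⟨u.1, fun t => ?_⟩
      have := congrArg Prod.fst (hu t)
      simp only [evP, CC, eval_add, eval_mul, eval_C, eval_X, eval_zero] at this
      rw [← this]; rfl
    · obtain ⟨u, hu⟩ := hH (CC x, (C s * (C y.1 + X * C y'.1), C s * (C y.2 + X * C y'.2)), 0)
      refine ⟨u.2, fun t => ?_⟩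
      have := congrArg Prod.snd (hu t)
      simp only [evP, CC, eval_add, eval_mul, eval_C, eval_X, eval_zero] at this
      rw [← this]; rfl
  have one_sm : ∀ (y : K × K), (1 : K) • y = y := fun y => one_smul K y
  intro x y t
  apply Prod.ext
  · have := BO_dense₂ ha hb (φ := fun x y => (H (x, t • y, 0)).1 - t ^ k * (H (x, y, 0)).1)
      (fun y => hsub (hlin1 t y).1 (hmul _ (by simpa only [one_sm] using (hlin1 1 y).1)))
      (fun x => hsub (hlin2 t x).1 (hmul _ (by simpa only [one_sm] using (hlin2 1 x).1)))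
      (fun x hx y hy => by rw [hBO x hx y hy t]; simp) x y
    exact sub_eq_zero.mp this
  · have := BO_dense₂ ha hb (φ := fun x y => (H (x, t • y, 0)).2 - t ^ k * (H (x, y, 0)).2)
      (fun y => hsub (hlin1 t y).2 (hmul _ (by simpa only [one_sm] using (hlin1 1 y).2)))
      (fun x => hsub (hlin2 t x).2 (hmul _ (by simpa only [one_sm] using (hlin2 1 x).2)))
      (fun x hx y hy => by rw [hBO x hx y hy t]; simp) x y
    exact sub_eq_zero.mp this

end semi

end Pool.Agent.DMM
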