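import Pool.Agent.DMM.Fibre

/-!
# Slopes of curve germs on a hypersurface which is invariant under scalings
-/

namespace Pool.Agent.DMM

open Polynomial

variable {K : Type*} [Field K]

/-- the germ at `0` of a polynomial curve through a nonzero multiple of `(1, 0)`,
with slope `s` -/
def Germ (u : K[X] × K[X]) (s : K) : Prop :=
  u.1.coeff 0 ≠ 0 ∧ u.2.coeff 0 = 0 ∧ u.2.coeff 1 = s * u.1.coeff 0

/-- functions which are regular at `0` -/
def Reg (φ : K → K) : Prop :=
  ∃ p d : K[X], d.eval 0 ≠ 0 ∧ ∀ t, d.eval t ≠ 0 → φ t = p.eval t / d.eval t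

lemma Reg.const (c : K) : Reg (fun _ : K => c) := ⟨C c, 1, by simp, by simp⟩

lemma Reg.add {φ ψ : K → K} (h1 : Reg φ) (h2 : Reg ψ) : Reg (fun t => φ t + ψ t) := by
  obtain ⟨p, d, hd, hp⟩ := h1
  obtain ⟨p', d', hd', hp'⟩ := h2
  refine ⟨p * d' + p' * d, d * d', by rw [eval_mul]; exact mul_ne_zero hd hd', ?_⟩
  intro t ht
  rw [eval_mul] at ht
  have ht1 := left_ne_zero_of_mul ht
  have ht2 := right_ne_zero_of_mul ht
  change φ t + ψ t = _
  rw [hp t ht1, hp' t ht2, eval_add, eval_mul, eval_mul, eval_mul]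
  field_simp

lemma Reg.mul {φ ψ : K → K} (h1 : Reg φ) (h2 : Reg ψ) : Reg (fun t => φ t * ψ t) := by
  obtain ⟨p, d, hd, hp⟩ := h1
  obtain ⟨p', d', hd', hp'⟩ := h2
  refine ⟨p * p', d * d', by rw [eval_mul]; exact mul_ne_zero hd hd', ?_⟩
  intro t ht
  rw [eval_mul] at ht
  have ht1 := left_ne_zero_of_mul ht
  have ht2 := right_ne_zero_of_mul ht
  change φ t * ψ t = _
  rw [hp t ht1, hp' t ht2, eval_mul, eval_mul]
  field_simp

lemma Reg.div (p : K[X]) {d : K[X]} (hd : d.eval 0 ≠ 0) : Reg (fun t => p.eval t / d.eval t) :=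
  ⟨p, d, hd, fun _ _ => rfl⟩

lemma Reg.poly (q : K[X]) {φ : K → K} (h : Reg φ) : Reg (fun t => q.eval (φ t)) := by
  induction q using Polynomial.induction_on' with
  | add p q hp hq => simpa only [eval_add] using hp.add hq
  | monomial n c =>
    simp only [eval_monomial]
    apply (Reg.const c).mul
    induction n with
    | zero => simpa using Reg.const (1 : K)
    | succ n ih =>
      simp only [pow_succ]
      exact ih.mul h

lemma Reg.poly₂ (q : K[X][X]) {φ ψ : K → K} (h1 : Reg φ) (h2 : Reg ψ) :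
    Reg (fun t => (q.map (evalRingHom (ψ t))).eval (φ t)) := by
  induction q using Polynomial.induction_on' with
  | add p q hp hq => simpa only [Polynomial.map_add, eval_add] using hp.add hq
  | monomial n c =>
    simp only [Polynomial.map_monomial, eval_monomial, coe_evalRingHom]
    apply (Reg.poly c h2).mul
    have := Reg.poly (X ^ n) h1
    simpa using this

lemma Reg.eq_zero [Infinite K] {φ : K → K} (h : Reg φ) {D : K[X]} (hD : D ≠ 0)
    (h0 : ∀ t, D.eval t ≠ 0 → φ t = 0) : φ 0 = 0 := by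
  obtain ⟨p, d, hd, hp⟩ := h
  have h1 : p * (D * d) = 0 := by
    apply Polynomial.funext
    intro t
    rw [eval_mul, eval_mul, eval_zero]
    by_cases hDt : D.eval t = 0
    · rw [hDt]; ring
    by_cases hdt : d.eval t = 0
    · rw [hdt]; ring
    have h2 := hp t hdt
    rw [h0 t hDt, eq_div_iff hdt, zero_mul] at h2
    rw [← h2, zero_mul]
  have hd0 : d ≠ 0 := by rintro rfl; simp at hd
  have hp0 : p = 0 := by
    rcases mul_eq_zero.mp h1 with h | h
    · exact h
    · exact absurd h (mul_ne_zero hD hd0)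
  rw [hp 0 hd, hp0, eval_zero, zero_div]

lemma hom_aeval {R : Type*} [CommRing R] [Algebra K R] (E : R →+* K)
    (hE : ∀ c, E (algebraMap K R c) = c) (x : Fin 5 → R) (P : MvPolynomial (Fin 5) K) :
    E (MvPolynomial.aeval x P) = MvPolynomial.eval (fun i => E (x i)) P := by
  induction P using MvPolynomial.induction_on with
  | C a => simp [hE]
  | add p q hp hq => simp [hp, hq]
  | mul_X p i hp => simp [hp]

/-- The ratios of slopes of germs whose scaled product lies on a hypersurface form a finite set. -/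
theorem slopes_finite [Infinite K] {P : MvPolynomial (Fin 5) K} (hP : P ≠ 0) :
    ∃ S : Set K, S.Finite ∧ ∀ (v v' : K[X] × K[X]) (s s' : K), s ≠ 0 → Germ v s → Germ v' s' →
      (∀ t t' w z : K, MvPolynomial.eval
        (coords (t • (v.1.eval z, v.2.eval z), t' • (v'.1.eval z, v'.2.eval z), w)) P = 0) →
      s' / s ∈ S := by
  classical
  -- a good point
  obtain ⟨x, hx⟩ : ∃ x : Fin 5 → K,
      MvPolynomial.eval x (P * (MvPolynomial.X 0 * MvPolynomial.X 1 * MvPolynomial.X 2)) ≠ 0 := by
    by_contra hcon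
    push Not at hcon
    have h0 : P * (MvPolynomial.X 0 * MvPolynomial.X 1 * MvPolynomial.X 2) = 0 :=
      MvPolynomial.funext fun x => by rw [hcon x]; simp
    rcases mul_eq_zero.mp h0 with h | h
    · exact hP h
    · exact absurd h (mul_ne_zero (mul_ne_zero (MvPolynomial.X_ne_zero _)
        (MvPolynomial.X_ne_zero _)) (MvPolynomial.X_ne_zero _))
  simp only [map_mul, MvPolynomial.eval_X] at hx
  have hxP : MvPolynomial.eval x P ≠ 0 := left_ne_zero_of_mul hx
  have hx0 : x 0 ≠ 0 := left_ne_zero_of_mul (left_ne_zero_of_mul (right_ne_zero_of_mul hx))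
  have hx1 : x 1 ≠ 0 := right_ne_zero_of_mul (left_ne_zero_of_mul (right_ne_zero_of_mul hx))
  have hx2 : x 2 ≠ 0 := right_ne_zero_of_mul (right_ne_zero_of_mul hx)
  set T := x 0 with hT
  set T' := x 2 with hT'
  set w := x 4 with hw
  set G : K[X][X] := MvPolynomial.aeval (coords (((C (C T), C (C T) * X),
    (C (C T'), C (C T') * (X * C X)), C (C w)) : Pt K[X][X])) P with hG
  have hGe : ∀ W Z : K, (G.map (evalRingHom Z)).eval W = MvPolynomial.eval
      (coords (((T, T * W), (T', T' * (W * Z)), w) : Pt K)) P := by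
    intro W Z
    have h1 := hom_aeval ((evalRingHom W).comp (mapRingHom (evalRingHom Z)))
      (by intro c; simp [Polynomial.algebraMap_apply]) (coords (((C (C T), C (C T) * X),
    (C (C T'), C (C T') * (X * C X)), C (C w)) : Pt K[X][X])) P
    simp only [RingHom.comp_apply, coe_mapRingHom, coe_evalRingHom] at h1
    rw [hG, h1]
    congr 1
    have : (fun i => eval W (Polynomial.map (evalRingHom Z) (coords (((C (C T), C (C T) * X),
        (C (C T'), C (C T') * (X * C X)), C (C w)) : Pt K[X][X]) i))) =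
        coords (((T, T * W), (T', T' * (W * Z)), w) : Pt K) := by
      funext i
      fin_cases i <;> simp [coords]
      left; ring
    rw [this]
  have hG0 : G ≠ 0 := by
    intro h0
    have h1 := hGe (x 1 / T) ((x 3 / T') / (x 1 / T))
    rw [h0] at h1
    simp only [Polynomial.map_zero, eval_zero] at h1
    apply hxP
    rw [h1]
    congr 1
    have : x = coords (((T, T * (x 1 / T)), (T', T' * ((x 1 / T) * ((x 3 / T') / (x 1 / T)))), w) : Pt K) := by
      funext i
      fin_cases i
      · rfl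
      · simp only [coords]; simp [mul_div_cancel₀ _ hx0]
      · rfl
      · simp only [coords]
        have h3 : x 1 / T ≠ 0 := div_ne_zero hx1 hx0
        simp
        field_simp
      · rfl
    rw [← this]
  obtain ⟨G₁, hG₁, hndvd⟩ := exists_eq_pow_rootMultiplicity_mul_and_not_dvd G hG0 0
  rw [C_0, sub_zero] at hG₁ hndvd
  set δ := rootMultiplicity 0 G with hδ
  have hr : G₁.coeff 0 ≠ 0 := fun h => hndvd (X_dvd_iff.mpr h)
  refine ⟨{z | (G₁.coeff 0).IsRoot z}, ?_, ?_⟩
  · apply Set.Finite.subset (Finset.finite_toSet (G₁.coeff 0).roots.toFinset)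
    intro z hz
    simp only [Finset.mem_coe, Multiset.mem_toFinset]
    exact (mem_roots hr).mpr hz
  intro v v' s s' hs hv hv' hvan
  obtain ⟨v10, v20, v21⟩ := hv
  obtain ⟨v10', v20', v21'⟩ := hv'
  obtain ⟨q, hq⟩ : X ∣ v.2 := X_dvd_iff.mpr v20
  obtain ⟨q', hq'⟩ : X ∣ v'.2 := X_dvd_iff.mpr v20'
  have hq0 : q.eval 0 = s * v.1.coeff 0 := by
    rw [← v21, hq, coeff_X_mul, coeff_zero_eq_eval_zero]
  have hq0' : q'.eval 0 = s' * v'.1.coeff 0 := by
    rw [← v21', hq', coeff_X_mul, coeff_zero_eq_eval_zero]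
  rw [coeff_zero_eq_eval_zero] at v10 v10' hq0 hq0'
  have hq0ne : q.eval 0 ≠ 0 := by rw [hq0]; exact mul_ne_zero hs v10
  have hreg : Reg (fun z => (G₁.map (evalRingHom ((q' * v.1).eval z / (v'.1 * q).eval z))).eval
      ((X * q).eval z / v.1.eval z)) := by
    apply Reg.poly₂
    · exact Reg.div _ v10
    · exact Reg.div _ (by rw [eval_mul]; exact mul_ne_zero v10' hq0ne)
  have hz : (fun z => (G₁.map (evalRingHom ((q' * v.1).eval z / (v'.1 * q).eval z))).eval
      ((X * q).eval z / v.1.eval z)) 0 = 0 := by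
    apply hreg.eq_zero (D := X * q * v.1 * v'.1)
    · have n1 : q ≠ 0 := by rintro rfl; simp at hq0ne
      have n2 : v.1 ≠ 0 := by intro h; rw [h] at v10; simp at v10
      have n3 : v'.1 ≠ 0 := by intro h; rw [h] at v10'; simp at v10'
      exact mul_ne_zero (mul_ne_zero (mul_ne_zero X_ne_zero n1) n2) n3
    · intro z hz
      simp only [eval_mul, eval_X] at hz
      have z1 : v'.1.eval z ≠ 0 := right_ne_zero_of_mul hz
      have z2 : v.1.eval z ≠ 0 := right_ne_zero_of_mul (left_ne_zero_of_mul hz)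
      have z3 : q.eval z ≠ 0 :=
        right_ne_zero_of_mul (left_ne_zero_of_mul (left_ne_zero_of_mul hz))
      have z4 : z ≠ 0 := left_ne_zero_of_mul (left_ne_zero_of_mul (left_ne_zero_of_mul hz))
      set W := (X * q).eval z / v.1.eval z with hW
      set Z := (q' * v.1).eval z / (v'.1 * q).eval z with hZ
      have hW0 : W ≠ 0 := by
        rw [hW, eval_mul, eval_X]
        exact div_ne_zero (mul_ne_zero z4 z3) z2
      have h1 := hvan (T / v.1.eval z) (T' / v'.1.eval z) w z
      have h2 : (coords (((T / v.1.eval z) • (v.1.eval z, v.2.eval z),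
          (T' / v'.1.eval z) • (v'.1.eval z, v'.2.eval z), w) : Pt K)) =
          coords (((T, T * W), (T', T' * (W * Z)), w) : Pt K) := by
        congr 1
        simp only [Prod.smul_mk, smul_eq_mul, Prod.mk.injEq, and_true]
        refine ⟨⟨?_, ?_⟩, ?_, ?_⟩
        · field_simp
        · rw [hW, hq]; simp only [eval_mul, eval_X]; field_simp
        · field_simp
        · rw [hW, hZ, hq']; simp only [eval_mul, eval_X]; field_simp
      rw [h2, ← hGe, hG₁, Polynomial.map_mul, Polynomial.map_pow, Polynomial.map_X, eval_mul,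
        eval_pow, eval_X] at h1
      rcases mul_eq_zero.mp h1 with h3 | h3
      · exact absurd h3 (pow_ne_zero _ hW0)
      · exact h3
  simp only [eval_mul, eval_X, zero_mul, zero_div] at hz
  rw [← coeff_zero_eq_eval_zero, coeff_map, coe_evalRingHom] at hz
  have hratio : q'.eval 0 * v.1.eval 0 / (v'.1.eval 0 * q.eval 0) = s' / s := by
    rw [hq0, hq0']
    field_simp
  rw [hratio] at hz
  exact hz

end Pool.Agent.DMM
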