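import Pool.Agent.DMM.Germs

/-!
# Structure of the commuting endomorphisms
-/

namespace Pool.Agent.DMM

open Polynomial

variable {K : Type*} [Field K]

lemma Germ.unique {u : K[X] × K[X]} {s s' : K} (h : Germ u s) (h' : Germ u s') : s = s' := by
  have := h.2.2.symm.trans h'.2.2
  exact mul_right_cancel₀ h.1 this

lemma smul_snd_zero (s : K) (x : K × K) : (s • x, (0 : K × K), (0 : K)) = s • ((x, 0, 0) : Pt K) := by
  simp

lemma smul_fst_zero (s : K) (x : K × K) : ((0 : K × K), s • x, (0 : K)) = s • ((0, x, 0) : Pt K) := by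
  simp

/-- dependence on `x` only -/
lemma dep_x {H : Pt K → K × K} {k : ℕ} (hk : k = 0)
    (hy : ∀ (x y : K × K) (t : K), H (x, t • y, 0) = t ^ k • H (x, y, 0)) (x y : K × K) :
    H (x, y, 0) = H (x, 0, 0) := by
  have := hy x y 0
  rw [hk, zero_smul, pow_zero, one_smul] at this
  exact this.symm

/-- dependence on `y` only -/
lemma dep_y [Infinite K] {H : Pt K → K × K} (hH : PolyC H) {q : ℕ}
    (hhom : ∀ (s : K) (v : Pt K), H (s • v) = s ^ q • H v)
    (hy : ∀ (x y : K × K) (t : K), H (x, t • y, 0) = t ^ q • H (x, y, 0)) (x y : K × K) :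
    H (x, y, 0) = H (0, y, 0) := by
  have h1 : ∀ s : K, s ≠ 0 → H (s • x, y, 0) = H (x, y, 0) := by
    intro s hs
    have e1 : ((s • x, y, 0) : Pt K) = s • ((x, s⁻¹ • y, 0) : Pt K) := by
      simp only [Prod.smul_mk, smul_smul, mul_inv_cancel₀ hs, one_smul, smul_zero]
    rw [e1, hhom, hy, smul_smul, ← mul_pow, mul_inv_cancel₀ hs, one_pow, one_smul]
  obtain ⟨u, hu⟩ := hH ((X * C x.1, X * C x.2), CC y, 0)
  have hu' : ∀ s : K, H (s • x, y, 0) = (u.1.eval s, u.2.eval s) := by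
    intro s
    rw [← hu s]
    simp only [evP, CC, eval_mul, eval_C, eval_X, eval_zero]
    rfl
  have hinf : ({0}ᶜ : Set K).Infinite := (Set.finite_singleton (0 : K)).infinite_compl
  have p1 : u.1 = C (H (x, y, 0)).1 := by
    apply Polynomial.eq_of_infinite_eval_eq _ _ (hinf.mono _)
    intro s hs
    have := congrArg Prod.fst ((hu' s).symm.trans (h1 s hs))
    simp only [Set.mem_ofPred_eq, eval_C]
    exact this
  have p2 : u.2 = C (H (x, y, 0)).2 := by
    apply Polynomial.eq_of_infinite_eval_eq _ _ (hinf.mono _)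
    intro s hs
    have := congrArg Prod.snd ((hu' s).symm.trans (h1 s hs))
    simp only [Set.mem_ofPred_eq, eval_C]
    exact this
  have h0 := hu' 0
  rw [zero_smul, p1, p2, eval_C, eval_C] at h0
  rw [h0]

/-- comparison of exponents -/
lemma compare_exponents [Infinite K] {k k' q : ℕ} {A B C₀ D : K}
    (h : ∀ t : K, (t ^ k * A) ^ 2 + (t ^ k' * B) ^ 2 = C₀ + t ^ (2 * q) * D) :
    (C A ^ 2 * X ^ (2 * k) + C B ^ 2 * X ^ (2 * k') : K[X]) = C C₀ + C D * X ^ (2 * q) := by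
  apply Polynomial.funext
  intro t
  simp only [eval_add, eval_mul, eval_pow, eval_C, eval_X]
  have := h t
  rw [mul_pow, mul_pow, ← pow_mul, ← pow_mul] at this
  linear_combination this

lemma exponents {k k' q : ℕ} (hq : 1 ≤ q) {A B C₀ D : K}
    (h : (C A ^ 2 * X ^ (2 * k) + C B ^ 2 * X ^ (2 * k') : K[X]) = C C₀ + C D * X ^ (2 * q))
    (hC : C₀ ≠ 0) (hD : D ≠ 0) : (k = 0 ∧ k' = q) ∨ (k = q ∧ k' = 0) := by
  have c0 := congrArg (fun p => coeff p 0) h
  have cq := congrArg (fun p => coeff p (2 * q)) h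
  simp only [← C_pow, coeff_add, coeff_C_mul, coeff_X_pow, coeff_C] at c0 cq
  have n1 : ¬ (0 = 2 * q) := by omega
  have n2 : ¬ (2 * q = 0) := by omega
  simp only [n1, n2, if_false, if_true, mul_zero, add_zero, mul_one, zero_add] at c0 cq
  have d0 : k = 0 ∨ k' = 0 := by
    by_contra hcon
    push Not at hcon
    have m1 : ¬ (0 = 2 * k) := by omega
    have m2 : ¬ (0 = 2 * k') := by omega
    simp only [m1, m2, if_false, mul_zero, add_zero] at c0
    exact hC c0.symm
  have dq : k = q ∨ k' = q := by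
    by_contra hcon
    push Not at hcon
    have m1 : ¬ (2 * q = 2 * k) := by omega
    have m2 : ¬ (2 * q = 2 * k') := by omega
    simp only [m1, m2, if_false, mul_zero, add_zero] at cq
    exact hD cq.symm
  omega

namespace Com

variable {a b : K} {n q : ℕ} {P : Fin 5 → MvPolynomial (Fin 5) K} [CharZero K] [IsAlgClosed K]
  (h : Com a b n q P)

include h

/-- surjectivity in the fibre direction -/
lemma fibre_surj (ha : a ^ 2 - a + 2 = 0) (hab : a + b = 1) (hn : 1 ≤ n) (hq : 1 ≤ q)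
    (x y : K × K) (w' : K) : ∃ w, Psi P (x, y, w) =
      ((Psi P (x, y, 0)).1, (Psi P (x, y, 0)).2.1, w') := by
  obtain ⟨c, hc, _, hP⟩ := h.lead ha hab hn hq
  obtain ⟨h1, _⟩ := h.Bb_deg hc hP x y
  obtain ⟨w, hw⟩ := IsAlgClosed.exists_root (Bb P x y - C w') (by
    intro h0
    have := natDegree_eq_zero_iff_degree_le_zero.mpr h0.le
    rw [natDegree_sub_C] at this
    omega)
  refine ⟨w, ?_⟩
  apply Prod.ext
  · exact h.ind1 ha hab hn x y w
  · apply Prod.ext
    · exact h.ind2 ha hab hn x y w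
    · simp only
      rw [← Bb_eval]
      simpa [sub_eq_zero] using hw

/-- the two-case analysis -/
lemma cases (ha : a ^ 2 - a + 2 = 0) (hab : a + b = 1) (hn : 1 ≤ n) (hq : 2 ≤ q)
    (hqn : q < n) : ∃ (m : ℕ) (c : K), 1 ≤ m ∧ q = 2 ^ m ∧ c ≠ 0 ∧
    (((∀ x y, (Psi P (x, y, 0)).1 = (Psi P (x, 0, 0)).1 ∧
        (Psi P (x, y, 0)).2.1 = (Psi P (0, y, 0)).2.1) ∧
      (∀ x, (Psi P (x, 0, 0)).1.2 ^ 2 = c ^ 2 * ((F a)^[m] x).2 ^ 2) ∧
      (∀ y, (Psi P (0, y, 0)).2.1.2 ^ 2 = c ^ 2 * ((F b)^[m] y).2 ^ 2)) ∨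
     ((∀ x y, (Psi P (x, y, 0)).1 = (Psi P (0, y, 0)).1 ∧
        (Psi P (x, y, 0)).2.1 = (Psi P (x, 0, 0)).2.1) ∧
      (∀ y, (Psi P (0, y, 0)).1.2 ^ 2 = c ^ 2 * ((F b)^[m] y).2 ^ 2))) := by
  obtain ⟨hb, _⟩ := beta_facts ha hab
  obtain ⟨ha0, _, _, _⟩ := ne_facts ha
  obtain ⟨hb0, _, _, _⟩ := ne_facts hb
  obtain ⟨c, hc, _, hP⟩ := h.lead ha hab hn (by omega)
  obtain ⟨m, hm⟩ := h.exists_two_pow ha hab hn (by omega) hqn
  have hm1 : 1 ≤ m := by
    by_contra hcon
    have : m = 0 := by omega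
    rw [this] at hm
    omega
  obtain ⟨k, hk⟩ := homog_y ha hab ha hn (polyC1 P) h.comm1
  obtain ⟨k', hk'⟩ := homog_y ha hab hb hn (polyC2 P) h.comm2
  have hrho : ∀ (x y : K × K) (t : K), (t ^ k * (Psi P (x, y, 0)).1.2) ^ 2 +
      (t ^ k' * (Psi P (x, y, 0)).2.1.2) ^ 2 =
      c ^ 2 * ((F a)^[m] x).2 ^ 2 + t ^ (2 * q) * (c ^ 2 * ((F b)^[m] y).2 ^ 2) := by
    intro x y t
    have h1 := h.Rho_eq ha hab hn hqn hc hP hm x (t • y)
    rw [hk, hk', F_iter_smul] at h1
    simp only [Rho, Prod.smul_snd, smul_eq_mul] at h1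
    rw [h1, ← hm, pow_mul, mul_pow]
    ring
  have hpoly := fun x y => compare_exponents (hrho x y)
  have hexp := exponents (q := q) (by omega) (hpoly (xi a) (xi b))
    (by
      rw [F_iter_xi ha0]
      exact mul_ne_zero (pow_ne_zero _ hc) (pow_ne_zero _ (inv_ne_zero (pow_ne_zero 2 ha0))))
    (by
      rw [F_iter_xi hb0]
      exact mul_ne_zero (pow_ne_zero _ hc) (pow_ne_zero _ (inv_ne_zero (pow_ne_zero 2 hb0))))
  have hhom1 : ∀ (s : K) (v : Pt K), (fun v => (Psi P v).1) (s • v) =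
      s ^ q • (fun v => (Psi P v).1) v := by
    intro s v
    simp only [Psi_smul h.hom]
    rfl
  have hhom2 : ∀ (s : K) (v : Pt K), (fun v => (Psi P v).2.1) (s • v) =
      s ^ q • (fun v => (Psi P v).2.1) v := by
    intro s v
    simp only [Psi_smul h.hom]
    rfl
  have n1 : ¬ (0 = 2 * q) := by omega
  have n2 : ¬ (2 * q = 0) := by omega
  refine ⟨m, c, hm1, hm, hc, ?_⟩
  rcases hexp with ⟨hk0, hkq⟩ | ⟨hkq, hk0⟩
  · left
    have d1 : ∀ x y, (Psi P (x, y, 0)).1 = (Psi P (x, 0, 0)).1 := fun x y =>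
      dep_x (H := fun v => (Psi P v).1) hk0 hk x y
    have d2 : ∀ x y, (Psi P (x, y, 0)).2.1 = (Psi P (0, y, 0)).2.1 := fun x y =>
      dep_y (H := fun v => (Psi P v).2.1) (polyC2 P) hhom2 (by rw [hkq] at hk'; exact hk') x y
    refine ⟨fun x y => ⟨d1 x y, d2 x y⟩, ?_, ?_⟩
    · intro x
      have c0 := congrArg (fun p => coeff p 0) (hpoly x 0)
      simp only [hk0, hkq, ← C_pow, coeff_add, coeff_C_mul, coeff_X_pow, coeff_C] at c0
      simpa [n1, n2] using c0
    · intro y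
      have c0 := congrArg (fun p => coeff p (2 * q)) (hpoly 0 y)
      simp only [hk0, hkq, ← C_pow, coeff_add, coeff_C_mul, coeff_X_pow, coeff_C] at c0
      simpa [n1, n2] using c0
  · right
    have d1 : ∀ x y, (Psi P (x, y, 0)).1 = (Psi P (0, y, 0)).1 := fun x y =>
      dep_y (H := fun v => (Psi P v).1) (polyC1 P) hhom1 (by rw [hkq] at hk; exact hk) x y
    have d2 : ∀ x y, (Psi P (x, y, 0)).2.1 = (Psi P (x, 0, 0)).2.1 := fun x y =>
      dep_x (H := fun v => (Psi P v).2.1) hk0 hk' x y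
    refine ⟨fun x y => ⟨d1 x y, d2 x y⟩, ?_⟩
    intro y
    have c0 := congrArg (fun p => coeff p (2 * q)) (hpoly 0 y)
    simp only [hk0, hkq, ← C_pow, coeff_add, coeff_C_mul, coeff_X_pow, coeff_C] at c0
    simpa [n1, n2] using c0

/-- the base map is split, with controlled second coordinates -/
theorem split (ha : a ^ 2 - a + 2 = 0) (hab : a + b = 1) (hn : 1 ≤ n) (hq : 2 ≤ q)
    (hqn : q < n) : ∃ (m : ℕ) (c h₀ h₀' : K) (H H' : K × K → K × K), 1 ≤ m ∧ c ≠ 0 ∧
      q = 2 ^ m ∧ Good a c h₀ m H ∧ Good b c h₀' m H' ∧ h₀ ^ (2 ^ n) = h₀ ∧ h₀' ^ (2 ^ n) = h₀' ∧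
      ∀ (x y : K × K) (w' : K), ∃ w, Psi P (x, y, w) = (H x, H' y, w') := by
  obtain ⟨hb, _⟩ := beta_facts ha hab
  obtain ⟨m, c, hm1, hm, hc, hcase⟩ := h.cases ha hab hn hq hqn
  have hz0 : Psi P 0 = 0 := h.zero (by omega)
  have hz1 : Psi P ((0 : K × K), (0 : K × K), (0 : K)) = 0 := hz0
  have hpt : ∀ w : K, (((1, 0), 0, w) : Pt K) ≠ 0 := by
    intro w h0
    have := congrArg (fun v : Pt K => v.1.1) h0
    simp at this
  have hpt' : ∀ w : K, ((0, (1, 0), w) : Pt K) ≠ 0 := by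
    intro w h0
    have := congrArg (fun v : Pt K => v.2.1.1) h0
    simp at this
  have hF0 : ∀ (e : K) (l : ℕ), (F e)^[l] ((1 : K), (0 : K)) = (1, 0) := by
    intro e l
    rw [F_iter_one_zero, one_pow]
  have hF00 : ∀ (e : K) (l : ℕ), (F e)^[l] (0 : K × K) = 0 := by
    intro e l
    induction l with
    | zero => rfl
    | succ l ih => rw [Function.iterate_succ_apply', ih, F_zero]
  rcases hcase with ⟨hdep, hsq1, hsq2⟩ | ⟨hdep, hsq⟩
  · -- split case
    refine ⟨m, c, (Psi P ((1, 0), 0, 0)).1.1, (Psi P (0, (1, 0), 0)).2.1.1,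
      fun x => (Psi P (x, 0, 0)).1, fun y => (Psi P (0, y, 0)).2.1, hm1, hc, hm, ?_, ?_, ?_, ?_, ?_⟩
    · have hone : (Psi P ((1, 0), 0, 0)).1 = ((Psi P ((1, 0), 0, 0)).1.1, 0) := by
        have h1 := hsq1 (1, 0)
        rw [hF0] at h1
        apply Prod.ext
        · rfl
        · have h2 : (Psi P ((1, 0), 0, 0)).1.2 ^ 2 = 0 := by rw [h1]; ring
          exact pow_eq_zero_iff (two_ne_zero) |>.mp h2
      refine ⟨?_, ?_, hone, ?_, hsq1⟩
      · intro u
        obtain ⟨U, hU⟩ := polyC1 P (u, 0, 0)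
        refine ⟨U, fun t => ?_⟩
        rw [← hU t]
        simp [evP]
        rfl
      · intro t x
        rw [smul_snd_zero, Psi_smul h.hom, ← hm]
        rfl
      · intro h0
        obtain ⟨w, hw⟩ := h.fibre_surj ha hab hn (by omega) (1, 0) 0 0
        apply h.nz _ (hpt w)
        rw [hw, (hdep (1, 0) 0).2, hone, h0, hz1]
        rfl
    · have hone : (Psi P (0, (1, 0), 0)).2.1 = ((Psi P (0, (1, 0), 0)).2.1.1, 0) := by
        have h1 := hsq2 (1, 0)
        rw [hF0] at h1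
        apply Prod.ext
        · rfl
        · have h2 : (Psi P (0, (1, 0), 0)).2.1.2 ^ 2 = 0 := by rw [h1]; ring
          exact pow_eq_zero_iff (two_ne_zero) |>.mp h2
      refine ⟨?_, ?_, hone, ?_, hsq2⟩
      · intro u
        obtain ⟨U, hU⟩ := polyC2 P (0, u, 0)
        refine ⟨U, fun t => ?_⟩
        rw [← hU t]
        simp [evP]
        rfl
      · intro t x
        rw [smul_fst_zero, Psi_smul h.hom, ← hm]
        rfl
      · intro h0
        obtain ⟨w, hw⟩ := h.fibre_surj ha hab hn (by omega) 0 (1, 0) 0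
        apply h.nz _ (hpt' w)
        rw [hw, (hdep 0 (1, 0)).1, hone, h0, hz1]
        rfl
    · have h1 := h.comm1 ((1, 0), 0, 0)
      have h2 : (g a b)^[n] (((1, 0), 0, 0) : Pt K) = ((1, 0), 0, ((g a b)^[n] ((1, 0), 0, 0)).2.2) := by
        apply Prod.ext
        · rw [g_iter_fst]; exact hF0 a n
        · apply Prod.ext
          · rw [g_iter_snd]; exact hF00 b n
          · rfl
      rw [h2, h.ind1 ha hab hn] at h1
      have hone : (Psi P ((1, 0), 0, 0)).1 = ((Psi P ((1, 0), 0, 0)).1.1, 0) := by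
        have h1 := hsq1 (1, 0)
        rw [hF0] at h1
        apply Prod.ext
        · rfl
        · have h2 : (Psi P ((1, 0), 0, 0)).1.2 ^ 2 = 0 := by rw [h1]; ring
          exact pow_eq_zero_iff (two_ne_zero) |>.mp h2
      rw [hone, F_iter_one_zero] at h1
      exact (congrArg Prod.fst h1).symm
    · have h1 := h.comm2 (0, (1, 0), 0)
      have h2 : (g a b)^[n] ((0, (1, 0), 0) : Pt K) = (0, (1, 0), ((g a b)^[n] (0, (1, 0), 0)).2.2) := by
        apply Prod.ext
        · rw [g_iter_fst]; exact hF00 a n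
        · apply Prod.ext
          · rw [g_iter_snd]; exact hF0 b n
          · rfl
      rw [h2, h.ind2 ha hab hn] at h1
      have hone : (Psi P (0, (1, 0), 0)).2.1 = ((Psi P (0, (1, 0), 0)).2.1.1, 0) := by
        have h1 := hsq2 (1, 0)
        rw [hF0] at h1
        apply Prod.ext
        · rfl
        · have h2 : (Psi P (0, (1, 0), 0)).2.1.2 ^ 2 = 0 := by rw [h1]; ring
          exact pow_eq_zero_iff (two_ne_zero) |>.mp h2
      rw [hone, F_iter_one_zero] at h1
      exact (congrArg Prod.fst h1).symm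
    · intro x y w'
      obtain ⟨w, hw⟩ := h.fibre_surj ha hab hn (by omega) x y w'
      refine ⟨w, ?_⟩
      rw [hw, (hdep x y).1, (hdep x y).2]
  · -- swapped case is impossible
    exfalso
    set H : K × K → K × K := fun y => (Psi P (0, y, 0)).1 with hHdef
    have hone : H (1, 0) = ((H (1, 0)).1, 0) := by
      have h1 := hsq (1, 0)
      rw [hF0] at h1
      apply Prod.ext
      · rfl
      · have h2 : (Psi P (0, (1, 0), 0)).1.2 ^ 2 = 0 := by rw [h1]; ring
        exact pow_eq_zero_iff (two_ne_zero) |>.mp h2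
    have hgood : Good b c (H (1, 0)).1 m H := by
      refine ⟨?_, ?_, hone, ?_, hsq⟩
      · intro u
        obtain ⟨U, hU⟩ := polyC1 P (0, u, 0)
        refine ⟨U, fun t => ?_⟩
        rw [← hU t]
        simp [evP, hHdef]
        rfl
      · intro t x
        simp only [hHdef]
        rw [smul_fst_zero, Psi_smul h.hom, ← hm]
        rfl
      · intro h0
        obtain ⟨w, hw⟩ := h.fibre_surj ha hab hn (by omega) 0 (1, 0) 0
        apply h.nz _ (hpt' w)
        have e1 : (Psi P (0, (1, 0), 0)).1 = 0 := by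
          change H (1, 0) = 0
          rw [hone, h0]; rfl
        rw [hw, (hdep 0 (1, 0)).2, e1, hz1]
        rfl
    have hcommH : ∀ y, H ((F b)^[n] y) = (F a)^[n] (H y) := by
      intro y
      have h1 := h.comm1 (0, y, 0)
      have h2 : (g a b)^[n] ((0, y, 0) : Pt K) = (0, (F b)^[n] y, ((g a b)^[n] (0, y, 0)).2.2) := by
        apply Prod.ext
        · rw [g_iter_fst]; exact hF00 a n
        · apply Prod.ext
          · rw [g_iter_snd]
          · rfl
      rw [h2, h.ind1 ha hab hn] at h1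
      exact h1
    have g1 : Germ ((1, X) : K[X] × K[X]) 1 := by
      refine ⟨?_, ?_, ?_⟩ <;> simp
    obtain ⟨U, hU⟩ := hgood.poly (1, X)
    obtain ⟨s₁, hs₁, hs₁'⟩ := hgood.germ hU g1
    have g2 := g1.iter_F (e := b) n
    obtain ⟨U₂, hU₂⟩ := hgood.poly ((F (C b))^[n] (1, X))
    obtain ⟨s₂, hs₂, hs₂'⟩ := hgood.germ hU₂ g2
    have g3 := hs₁.iter_F (e := a) n
    have hUU : U₂ = (F (C a))^[n] U := by
      have : ∀ t, (U₂.1.eval t, U₂.2.eval t) =
          (((F (C a))^[n] U).1.eval t, ((F (C a))^[n] U).2.eval t) := by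
        intro t
        rw [← hU₂, eval_F_iter, eval_F_iter, hcommH, hU]
      apply Prod.ext
      · exact Polynomial.funext fun t => congrArg Prod.fst (this t)
      · exact Polynomial.funext fun t => congrArg Prod.snd (this t)
    rw [hUU] at hs₂
    have hs := hs₂.unique g3
    rw [hs, mul_pow, hs₁'] at hs₂'
    have hne := hgood.ne
    have hcne : c ^ 2 * b ^ (4 * m) / (H (1, 0)).1 ^ 2 ≠ 0 := by
      obtain ⟨hb0, _, _, _⟩ := ne_facts hb
      exact div_ne_zero (mul_ne_zero (pow_ne_zero _ hc) (pow_ne_zero _ hb0)) (pow_ne_zero _ hne)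
    apply pow_ne_pow ha hab (M := 4 * n) (by omega)
    apply mul_left_cancel₀ hcne
    have e1 : a ^ (4 * n) = (a ^ (2 * n)) ^ 2 := by rw [← pow_mul]; congr 1; ring
    have e2 : b ^ (4 * n) = (b ^ (2 * n)) ^ 2 := by rw [← pow_mul]; congr 1; ring
    rw [e1, e2]
    linear_combination hs₂'

end Com

end Pool.Agent.DMM
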