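import Mathlib

/-!
# Towers of squares of univariate polynomials

Elementary decomposition lemmas for polynomials `p` such that `p (Z ^ 2 + ρ)` is an iterated
square plus constants.
-/

namespace Pool.Agent.DMM

open Polynomial

variable {K : Type*} [Field K]

/-- If the product of two coprime polynomials is a square (over an algebraically closed field),
so are the factors. -/
lemma isSquare_of_isCoprime_mul [IsAlgClosed K] {A B Y : K[X]} (h : IsCoprime A B)
    (hm : A * B = Y ^ 2) : ∃ C : K[X], A = C ^ 2 := by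
  obtain ⟨d, hd⟩ := exists_associated_pow_of_mul_eq_pow' h hm
  obtain ⟨u, hu⟩ := hd
  obtain ⟨c, hc, hcu⟩ := Polynomial.isUnit_iff.mp u.isUnit
  obtain ⟨s, hs⟩ := IsAlgClosed.exists_pow_nat_eq c (n := 2) (by norm_num)
  refine ⟨d * C s, ?_⟩
  rw [← hu, ← hcu, mul_pow, ← C_pow, hs]

/-- if the sum of squares difference is a constant then it is zero or both are constants -/
lemma sub_mul_add_const [CharZero K] {A B : K[X]} {r : K} (h : A ^ 2 - B ^ 2 = C r)
    (hA : 0 < A.natDegree) : r = 0 ∧ (A = B ∨ A = -B) := by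
  have h1 : (A - B) * (A + B) = C r := by rw [← h]; ring
  by_cases hr : r = 0
  · refine ⟨hr, ?_⟩
    rw [hr, C_0, mul_eq_zero] at h1
    rcases h1 with h1 | h1
    · left; exact sub_eq_zero.mp h1
    · right; exact eq_neg_of_add_eq_zero_left h1
  · exfalso
    have hu : IsUnit ((A - B) * (A + B)) := by
      rw [h1]; exact Polynomial.isUnit_C.mpr (isUnit_iff_ne_zero.mpr hr)
    have hu1 : IsUnit (A - B) := isUnit_of_mul_isUnit_left hu
    have hu2 : IsUnit (A + B) := isUnit_of_mul_isUnit_right hu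
    obtain ⟨c, _, hc⟩ := Polynomial.isUnit_iff.mp hu1
    obtain ⟨d, _, hd⟩ := Polynomial.isUnit_iff.mp hu2
    have : C (2 : K) * A = C (c + d) := by
      rw [C_add, hc, hd]
      have : (C (2:K) : K[X]) = 2 := map_ofNat C 2
      rw [this]; ring
    have h3 : (C (2 : K) * A).natDegree = A.natDegree :=
      natDegree_C_mul (by norm_num)
    rw [this, natDegree_C] at h3
    omega

lemma natDegree_sq_add_C {Z : K[X]} (ρ : K) (_hZ : 0 < Z.natDegree) :
    (Z ^ 2 + C ρ).natDegree = 2 * Z.natDegree := by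
  rw [natDegree_add_C, natDegree_pow]

/-- Key step: a root `r ≠ ρ` of `p` has even multiplicity. -/
lemma even_rootMultiplicity [CharZero K] [IsAlgClosed K] {p Z Y : K[X]} {ρ : K}
    (hZ : 0 < Z.natDegree) (h : p.comp (Z ^ 2 + C ρ) = Y ^ 2) (hp : p ≠ 0) {r : K} (hr : r ≠ ρ) :
    Even (p.rootMultiplicity r) := by
  obtain ⟨q, hq, hndvd⟩ := exists_eq_pow_rootMultiplicity_mul_and_not_dvd p hp r
  set k := p.rootMultiplicity r with hk
  by_contra hodd
  rw [Nat.not_even_iff_odd] at hodd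
  -- q r ≠ 0
  have hqr : q.eval r ≠ 0 := by
    intro h0; exact hndvd (dvd_iff_isRoot.mpr h0)
  obtain ⟨s, hs⟩ := IsAlgClosed.exists_pow_nat_eq (r - ρ) (n := 2) (by norm_num)
  have hs0 : s ≠ 0 := by
    intro h0; rw [h0] at hs
    apply hr; rw [← sub_eq_zero, ← hs]; norm_num
  have hfac : (X - C r : K[X]).comp (Z ^ 2 + C ρ) = (Z - C s) * (Z + C s) := by
    simp only [sub_comp, X_comp, C_comp]
    have : (C r : K[X]) = C ρ + C s ^ 2 := by
      rw [← C_pow, hs, ← C_add]; congr 1; ring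
    rw [this]; ring
  have hcomp : ((Z - C s) ^ k * (Z + C s) ^ k) * q.comp (Z ^ 2 + C ρ) = Y ^ 2 := by
    rw [← h]
    conv_rhs => rw [hq]
    rw [mul_comp, pow_comp, hfac, mul_pow]
  -- coprimality
  have hc1 : IsCoprime (Z - C s) (Z + C s) := by
    refine ⟨C (-(1 / (2 * s))), C (1 / (2 * s)), ?_⟩
    have : C (-(1 / (2 * s))) * (Z - C s) + C (1 / (2 * s)) * (Z + C s)
        = C (1 / (2 * s) * (2 * s)) := by
      simp only [C_neg, C_mul]
      have : (C (2:K) : K[X]) = 2 := map_ofNat C 2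
      rw [this]; ring
    rw [this, one_div_mul_cancel (by simpa using hs0), C_1]
  have hc2 : IsCoprime ((Z - C s) * (Z + C s)) (q.comp (Z ^ 2 + C ρ)) := by
    rw [← hfac]
    have : IsCoprime (X - C r) q := by
      rw [(Polynomial.irreducible_X_sub_C r).coprime_iff_not_dvd]
      exact hndvd
    obtain ⟨a, b, hab⟩ := this
    refine ⟨a.comp (Z ^ 2 + C ρ), b.comp (Z ^ 2 + C ρ), ?_⟩
    rw [← mul_comp, ← mul_comp, ← add_comp, hab, one_comp]
  have hca : IsCoprime ((Z - C s) ^ k) ((Z + C s) ^ k * q.comp (Z ^ 2 + C ρ)) := by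
    apply IsCoprime.pow_left
    apply IsCoprime.mul_right
    · exact hc1.pow_right
    · exact (IsCoprime.of_mul_left_left hc2)
  have hcb : IsCoprime ((Z + C s) ^ k) ((Z - C s) ^ k * q.comp (Z ^ 2 + C ρ)) := by
    apply IsCoprime.pow_left
    apply IsCoprime.mul_right
    · exact hc1.symm.pow_right
    · exact (IsCoprime.of_mul_left_right hc2)
  obtain ⟨A, hA⟩ := isSquare_of_isCoprime_mul hca (by rw [← hcomp]; ring)
  obtain ⟨B, hB⟩ := isSquare_of_isCoprime_mul hcb (by rw [← hcomp]; ring)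
  -- odd powers being squares implies squares
  obtain ⟨l, hl⟩ := hodd
  have sq_of_odd : ∀ {T A : K[X]}, T ≠ 0 → T ^ k = A ^ 2 → ∃ S : K[X], T = S ^ 2 := by
    intro T A hT hTA
    have h1 : T * (T ^ l) ^ 2 = A ^ 2 := by
      rw [← hTA, hl]; ring
    have hdvd : (T ^ l) ^ 2 ∣ A ^ 2 := ⟨T, by rw [← h1]; ring⟩
    have hdvd' : T ^ l ∣ A := (UniqueFactorizationMonoid.pow_dvd_pow_iff_dvd (by norm_num)).mp hdvd
    obtain ⟨S, hS⟩ := hdvd'
    refine ⟨S, ?_⟩
    have hne : (T ^ l) ^ 2 ≠ 0 := pow_ne_zero _ (pow_ne_zero _ hT)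
    apply mul_right_cancel₀ hne
    rw [h1, hS]; ring
  have hZs : ∀ c : K, (Z + C c) ≠ 0 := by
    intro c h0
    have : (Z + C c).natDegree = Z.natDegree := natDegree_add_C
    rw [h0, natDegree_zero] at this
    omega
  obtain ⟨S1, hS1⟩ := sq_of_odd (by have := hZs (-s); rwa [C_neg, ← sub_eq_add_neg] at this) hA
  obtain ⟨S2, hS2⟩ := sq_of_odd (hZs s) hB
  have h2 : S2 ^ 2 - S1 ^ 2 = C (2 * s) := by
    rw [← hS1, ← hS2]
    simp only [C_mul]
    have : (C (2:K) : K[X]) = 2 := map_ofNat C 2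
    rw [this]; ring
  have h3 : 0 < S2.natDegree := by
    have h4 : (Z + C s).natDegree = Z.natDegree := natDegree_add_C
    rw [hS2, natDegree_pow] at h4
    omega
  have := (sub_mul_add_const h2 h3).1
  have h5 : (2 : K) * s ≠ 0 := mul_ne_zero (by norm_num) hs0
  exact h5 this

/-- `p (Z ^ 2 + ρ) = Y ^ 2` forces `p = (X - ρ) ^ k * t ^ 2`. -/
lemma exists_pow_mul_sq [CharZero K] [IsAlgClosed K] (n : ℕ) :
    ∀ {p Z Y : K[X]} {ρ : K}, p.natDegree ≤ n → 0 < Z.natDegree →
      p.comp (Z ^ 2 + C ρ) = Y ^ 2 → p ≠ 0 → ∃ (k : ℕ) (t : K[X]), p = (X - C ρ) ^ k * t ^ 2 := by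
  induction n using Nat.strong_induction_on with
  | _ n ih =>
    intro p Z Y ρ hn hZ h hp
    by_cases hd : p.natDegree = 0
    · obtain ⟨c, hc⟩ := Polynomial.natDegree_eq_zero.mp hd
      obtain ⟨s, hs⟩ := IsAlgClosed.exists_pow_nat_eq c (n := 2) (by norm_num)
      exact ⟨0, C s, by rw [← hc, ← C_pow, hs]; simp⟩
    have hroot : ∃ r, IsRoot p r := by
      apply IsAlgClosed.exists_root
      intro h0
      exact hd (natDegree_eq_zero_iff_degree_le_zero.mpr h0.le)
    have hZ0 : Z ≠ 0 := by rintro rfl; simp at hZ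
    obtain ⟨r, hr⟩ := hroot
    by_cases hrρ : r = ρ
    · subst hrρ
      obtain ⟨p₁, hp₁⟩ := dvd_iff_isRoot.mpr hr
      have hp₁0 : p₁ ≠ 0 := by rintro rfl; exact hp (by rw [hp₁]; simp)
      have hdeg : p.natDegree = 1 + p₁.natDegree := by
        rw [hp₁, natDegree_mul (X_sub_C_ne_zero r) hp₁0, natDegree_X_sub_C]
      rw [hp₁, mul_comp] at h
      have hXc : (X - C r : K[X]).comp (Z ^ 2 + C r) = Z ^ 2 := by simp
      rw [hXc] at h
      have hdvd : Z ∣ Y := (UniqueFactorizationMonoid.pow_dvd_pow_iff_dvd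
        (n := 2) (by norm_num)).mp ⟨_, h.symm⟩
      obtain ⟨Y₁, hY₁⟩ := hdvd
      have h1 : p₁.comp (Z ^ 2 + C r) = Y₁ ^ 2 := by
        apply mul_left_cancel₀ (pow_ne_zero 2 hZ0)
        rw [h, hY₁]; ring
      obtain ⟨k, t, hkt⟩ := ih (p₁.natDegree) (by omega) le_rfl hZ h1 hp₁0
      exact ⟨k + 1, t, by rw [hp₁, hkt]; ring⟩
    · have hev := even_rootMultiplicity hZ h hp hrρ
      have hpos : 0 < p.rootMultiplicity r := (rootMultiplicity_pos hp).mpr hr
      have h2 : 2 ≤ p.rootMultiplicity r := by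
        obtain ⟨l, hl⟩ := hev
        omega
      have hdvd2 : (X - C r) ^ 2 ∣ p := (le_rootMultiplicity_iff hp).mp h2
      obtain ⟨p₁, hp₁⟩ := hdvd2
      have hp₁0 : p₁ ≠ 0 := by rintro rfl; exact hp (by rw [hp₁]; simp)
      have hdeg : p.natDegree = 2 + p₁.natDegree := by
        rw [hp₁, natDegree_mul (pow_ne_zero _ (X_sub_C_ne_zero r)) hp₁0, natDegree_pow,
          natDegree_X_sub_C]
      rw [hp₁, mul_comp, pow_comp] at h
      have hT0 : (X - C r : K[X]).comp (Z ^ 2 + C ρ) ≠ 0 := by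
        intro h0
        have h1 := congrArg natDegree h0
        rw [natDegree_comp, natDegree_X_sub_C, natDegree_sq_add_C ρ hZ] at h1
        simp at h1; omega
      have hdvd : (X - C r : K[X]).comp (Z ^ 2 + C ρ) ∣ Y :=
        (UniqueFactorizationMonoid.pow_dvd_pow_iff_dvd (n := 2) (by norm_num)).mp ⟨_, h.symm⟩
      obtain ⟨Y₁, hY₁⟩ := hdvd
      have h1 : p₁.comp (Z ^ 2 + C ρ) = Y₁ ^ 2 := by
        apply mul_left_cancel₀ (pow_ne_zero 2 hT0)
        rw [h, hY₁]; ring
      obtain ⟨k, t, hkt⟩ := ih (p₁.natDegree) (by omega) le_rfl hZ h1 hp₁0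
      exact ⟨k, (X - C r) * t, by rw [hp₁, hkt]; ring⟩

/-- `p (Z ^ 2 + ρ) = c Y ^ 2 + r`, `c ≠ 0`, forces `p = (X - ρ) ^ k * t ^ 2 + r`. -/
lemma exists_pow_mul_sq_add [CharZero K] [IsAlgClosed K] {p Z Y : K[X]} {ρ c r : K}
    (hp : 0 < p.natDegree) (hZ : 0 < Z.natDegree)
    (h : p.comp (Z ^ 2 + C ρ) = C c * Y ^ 2 + C r) :
    ∃ (k : ℕ) (t : K[X]), p = (X - C ρ) ^ k * t ^ 2 + C r := by
  obtain ⟨s, hs⟩ := IsAlgClosed.exists_pow_nat_eq c (n := 2) (by norm_num)
  have h1 : (p - C r).comp (Z ^ 2 + C ρ) = (C s * Y) ^ 2 := by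
    rw [sub_comp, C_comp, h, mul_pow, ← C_pow, hs]; ring
  have h2 : p - C r ≠ 0 := by
    intro h0
    have := congrArg natDegree h0
    rw [natDegree_sub_C, natDegree_zero] at this
    omega
  obtain ⟨k, t, hkt⟩ := exists_pow_mul_sq _ le_rfl hZ h1 h2
  exact ⟨k, t, by rw [← hkt]; ring⟩

/-- `p` has a tower of squares of height `k`. -/
inductive Tow : ℕ → K[X] → Prop
  | zero (p : K[X]) : Tow 0 p
  | succ {k : ℕ} (Y : K[X]) (c r : K) (hc : c ≠ 0) (hY : Tow k Y) : Tow (k + 1) (C c * Y ^ 2 + C r)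

lemma Tow.smul {k : ℕ} {p : K[X]} (h : Tow k p) {a : K} (ha : a ≠ 0) : Tow k (C a * p) := by
  cases h with
  | zero p => exact Tow.zero _
  | succ Y c r hc hY =>
    have : C a * (C c * Y ^ 2 + C r) = C (a * c) * Y ^ 2 + C (a * r) := by
      simp only [C_mul]; ring
    rw [this]
    exact Tow.succ Y _ _ (mul_ne_zero ha hc) hY

lemma Tow.pred {k : ℕ} : ∀ {p : K[X]}, Tow (k + 1) p → Tow k p := by
  induction k with
  | zero => intro p _; exact Tow.zero p
  | succ k ih =>
    intro p h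
    cases h with
    | succ Y c r hc hY => exact Tow.succ Y c r hc (ih hY)

lemma Tow.mono {k l : ℕ} (hkl : k ≤ l) {p : K[X]} (h : Tow l p) : Tow k p := by
  induction l with
  | zero => have : k = 0 := by omega
            subst this; exact h
  | succ l ih =>
    rcases Nat.lt_or_ge k (l + 1) with h1 | h1
    · exact ih (by omega) h.pred
    · have : k = l + 1 := by omega
      subst this; exact h

lemma peel_step [CharZero K] [IsAlgClosed K] {p Z Y : K[X]} {ρ c r : K}
    (hp : 0 < p.natDegree) (hev : Even p.natDegree) (hZ : 0 < Z.natDegree) (hc : c ≠ 0)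
    (h : p.comp (Z ^ 2 + C ρ) = C c * Y ^ 2 + C r) :
    ∃ (T : K[X]) (g : K), g ≠ 0 ∧ g ^ 2 = c ∧ p = T ^ 2 + C r ∧
      T.comp (Z ^ 2 + C ρ) = C g * Y := by
  obtain ⟨k, t, hkt⟩ := exists_pow_mul_sq_add hp hZ h
  have ht0 : t ≠ 0 := by
    rintro rfl
    have := congrArg natDegree hkt
    simp at this
    omega
  have hdeg : p.natDegree = k + 2 * t.natDegree := by
    rw [hkt, natDegree_add_C, natDegree_mul (pow_ne_zero _ (X_sub_C_ne_zero ρ))
      (pow_ne_zero _ ht0), natDegree_pow, natDegree_X_sub_C, natDegree_pow, mul_one]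
  have hk : Even k := by
    rw [hdeg, Nat.even_add] at hev
    exact hev.mpr (even_two_mul _)
  obtain ⟨l, hl⟩ := hk
  have hT : p = ((X - C ρ) ^ l * t) ^ 2 + C r := by
    conv_lhs => rw [hkt, hl]
    ring
  obtain ⟨g, hg⟩ := IsAlgClosed.exists_pow_nat_eq c (n := 2) (by norm_num)
  have hg0 : g ≠ 0 := by
    rintro rfl
    apply hc; rw [← hg]; norm_num
  have hsq : (((X - C ρ) ^ l * t).comp (Z ^ 2 + C ρ)) ^ 2 = (C g * Y) ^ 2 := by
    rw [hT, add_comp, pow_comp, C_comp] at h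
    rw [mul_pow, ← C_pow, hg]
    exact add_right_cancel h
  rcases sq_eq_sq_iff_eq_or_eq_neg.mp hsq with h1 | h1
  · exact ⟨_, g, hg0, hg, hT, h1⟩
  · refine ⟨_, -g, neg_ne_zero.mpr hg0, by rw [neg_sq, hg], hT, ?_⟩
    rw [h1, C_neg, neg_mul]

lemma odd_case [CharZero K] [IsAlgClosed K] {s : ℕ} (hs : Odd s) {p : K[X]}
    (hp : p.natDegree = s) (Z Y : Fin 3 → K[X]) (ρ c r : Fin 3 → K)
    (hρ : Function.Injective ρ) (hZ : ∀ j, 0 < (Z j).natDegree)
    (h : ∀ j, p.comp ((Z j) ^ 2 + C (ρ j)) = C (c j) * (Y j) ^ 2 + C (r j)) : s = 1 := by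
  have hs0 : 0 < s := hs.pos
  have hp0 : 0 < p.natDegree := by omega
  have hpne : p ≠ 0 := by rintro rfl; simp at hp0
  choose k t hkt using fun j => exists_pow_mul_sq_add hp0 (hZ j) (h j)
  have ht0 : ∀ j, t j ≠ 0 := by
    intro j h0
    have := congrArg natDegree (hkt j)
    rw [h0] at this
    simp at this
    omega
  have hdeg : ∀ j, s = k j + 2 * (t j).natDegree := by
    intro j
    rw [← hp, hkt j, natDegree_add_C, natDegree_mul (pow_ne_zero _ (X_sub_C_ne_zero (ρ j)))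
      (pow_ne_zero _ (ht0 j)), natDegree_pow, natDegree_X_sub_C, natDegree_pow, mul_one]
  have hkodd : ∀ j, Odd (k j) := by
    intro j
    have h1 := hs
    rw [hdeg j, Nat.odd_add] at h1
    exact h1.mpr (even_two_mul _)
  have hr : ∀ i j, i ≠ j → r i ≠ r j := by
    intro i j hij hrij
    have h1 : (X - C (ρ i)) ^ (k i) * (t i) ^ 2 = (X - C (ρ j)) ^ (k j) * (t j) ^ 2 := by
      have h2 := hkt i
      rw [hkt j, hrij] at h2
      exact (add_right_cancel h2).symm
    have h2 := congrArg (rootMultiplicity (ρ i)) h1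
    rw [rootMultiplicity_mul (mul_ne_zero (pow_ne_zero _ (X_sub_C_ne_zero _))
        (pow_ne_zero _ (ht0 i))),
      rootMultiplicity_mul (mul_ne_zero (pow_ne_zero _ (X_sub_C_ne_zero _))
        (pow_ne_zero _ (ht0 j)))] at h2
    rw [rootMultiplicity_X_sub_C_pow, sq, sq,
      rootMultiplicity_mul (mul_ne_zero (ht0 i) (ht0 i)),
      rootMultiplicity_mul (mul_ne_zero (ht0 j) (ht0 j))] at h2
    have h3 : rootMultiplicity (ρ i) ((X - C (ρ j)) ^ (k j)) = 0 := by
      apply rootMultiplicity_eq_zero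
      rw [IsRoot.def, eval_pow, eval_sub, eval_X, eval_C]
      exact pow_ne_zero _ (sub_ne_zero.mpr fun h0 => hij (hρ h0))
    rw [h3] at h2
    obtain ⟨l, hl⟩ := hkodd i
    omega
  set w : Fin 3 → K[X] := fun j => (X - C (ρ j)) ^ (k j - 1) * t j with hw
  have hk1 : ∀ j, 1 ≤ k j := fun j => (hkodd j).pos
  have hwdvd : ∀ j, w j ∣ p - C (r j) := by
    intro j
    refine ⟨(X - C (ρ j)) * t j, ?_⟩
    conv_lhs => rw [hkt j]
    have : (X - C (ρ j)) ^ (k j) = (X - C (ρ j)) ^ (k j - 1) * (X - C (ρ j)) := by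
      rw [← pow_succ, Nat.sub_add_cancel (hk1 j)]
    rw [this, hw]; ring
  have hwder : ∀ j, w j ∣ derivative p := by
    intro j
    refine ⟨C ((k j : K)) * t j + 2 * (X - C (ρ j)) * derivative (t j), ?_⟩
    conv_lhs => rw [hkt j]
    have : (X - C (ρ j)) ^ (k j) = (X - C (ρ j)) ^ (k j - 1) * (X - C (ρ j)) := by
      rw [← pow_succ, Nat.sub_add_cancel (hk1 j)]
    rw [derivative_add, derivative_C, derivative_mul, derivative_X_sub_C_pow, derivative_pow, this,
      hw]
    simp only [Nat.cast_ofNat, map_ofNat, add_zero]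
    have h2 : (2 : ℕ) - 1 = 1 := rfl
    rw [h2]
    ring
  have hcop : ∀ i j, i ≠ j → IsCoprime (w i) (w j) := by
    intro i j hij
    have h1 : IsCoprime (p - C (r i)) (p - C (r j)) := by
      have hne : r j - r i ≠ 0 := sub_ne_zero.mpr (hr j i hij.symm)
      refine ⟨C (1 / (r j - r i)), -C (1 / (r j - r i)), ?_⟩
      have : C (1 / (r j - r i)) * (p - C (r i)) + -C (1 / (r j - r i)) * (p - C (r j))
          = C (1 / (r j - r i) * (r j - r i)) := by
        simp only [C_mul, C_sub]; ring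
      rw [this, one_div_mul_cancel hne, C_1]
    exact (h1.of_isCoprime_of_dvd_left (hwdvd i)).of_isCoprime_of_dvd_right (hwdvd j)
  have hprod : (∏ j, w j) ∣ derivative p := by
    apply Finset.prod_dvd_of_coprime
    · intro i _ j _ hij
      exact hcop i j hij
    · intro j _; exact hwder j
  have hder0 : derivative p ≠ 0 := by
    intro h0
    have := derivative_eq_zero.mp h0
    omega
  have hle := natDegree_le_of_dvd hprod hder0
  have hwne : ∀ j, w j ≠ 0 := fun j => mul_ne_zero (pow_ne_zero _ (X_sub_C_ne_zero _)) (ht0 j)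
  rw [natDegree_prod _ _ (fun j _ => hwne j)] at hle
  have hwdeg : ∀ j, (w j).natDegree = (k j - 1) + (t j).natDegree := by
    intro j
    rw [hw]
    simp only
    rw [natDegree_mul (pow_ne_zero _ (X_sub_C_ne_zero (ρ j))) (ht0 j), natDegree_pow,
      natDegree_X_sub_C, mul_one]
  have hderdeg := natDegree_derivative_lt (p := p) (by omega)
  rw [Fin.sum_univ_three, hwdeg, hwdeg, hwdeg] at hle
  have e0 := hdeg 0; have e1 := hdeg 1; have e2 := hdeg 2
  have f0 := hk1 0; have f1 := hk1 1; have f2 := hk1 2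
  omega

lemma peel3 [CharZero K] [IsAlgClosed K] (m : ℕ) : ∀ {s : ℕ} (_ : Odd s) {p : K[X]}
    (_ : p.natDegree = 2 ^ m * s) (Z : Fin 3 → K[X]) (ρ : Fin 3 → K)
    (_ : Function.Injective ρ) (_ : ∀ j, 0 < (Z j).natDegree)
    (_ : ∀ j, Tow (m + 1) (p.comp ((Z j) ^ 2 + C (ρ j)))), s = 1 := by
  induction m with
  | zero =>
    intro s hs p hp Z ρ hρ hZ h
    have h' : ∀ j, ∃ (Y : K[X]) (c r : K), p.comp ((Z j) ^ 2 + C (ρ j)) = C c * Y ^ 2 + C r := by
      intro j
      have := h j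
      generalize p.comp ((Z j) ^ 2 + C (ρ j)) = P at this
      cases this with
      | succ Y c r hc hY => exact ⟨Y, c, r, rfl⟩
    choose Y c r hYcr using h'
    exact odd_case hs (by simpa using hp) Z Y ρ c r hρ hZ hYcr
  | succ m ih =>
    intro s hs p hp Z ρ hρ hZ h
    have hspos := hs.pos
    have hp0 : 0 < p.natDegree := by rw [hp]; positivity
    have hpev : Even p.natDegree := by
      rw [hp, pow_succ]; exact ⟨2 ^ m * s, by ring⟩
    have h' : ∀ j, ∃ (Y : K[X]) (c r : K), c ≠ 0 ∧ Tow (m + 1) Y ∧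
        p.comp ((Z j) ^ 2 + C (ρ j)) = C c * Y ^ 2 + C r := by
      intro j
      have := h j
      generalize p.comp ((Z j) ^ 2 + C (ρ j)) = P at this
      cases this with
      | succ Y c r hc hY => exact ⟨Y, c, r, hc, hY, rfl⟩
    choose Y c r hc hY hYcr using h'
    choose T g hg0 hg2 hpT hT using fun j => peel_step hp0 hpev (hZ j) (hc j) (hYcr j)
    have hTdeg : ∀ j, (T j).natDegree = 2 ^ m * s := by
      intro j
      have h1 := hp
      rw [hpT j, natDegree_add_C, natDegree_pow, pow_succ] at h1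
      have : 2 * (T j).natDegree = 2 * (2 ^ m * s) := by rw [h1]; ring
      omega
    apply ih hs (hTdeg 0) Z ρ hρ hZ
    intro j
    have hTow : Tow (m + 1) ((T j).comp ((Z j) ^ 2 + C (ρ j))) := by
      rw [hT j]; exact (hY j).smul (hg0 j)
    have h1 : (T 0) ^ 2 - (T j) ^ 2 = C (r j - r 0) := by
      have h2 := hpT 0
      have h3 := hpT j
      rw [C_sub]
      have h4 : (T 0) ^ 2 + C (r 0) = (T j) ^ 2 + C (r j) := by rw [← h2, ← h3]
      linear_combination h4
    have hT0pos : 0 < (T 0).natDegree := by rw [hTdeg 0]; positivity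
    rcases (sub_mul_add_const h1 hT0pos).2 with h2 | h2
    · rw [h2]; exact hTow
    · rw [h2, neg_comp]
      have := hTow.smul (a := (-1 : K)) (by norm_num)
      simpa using this

end Pool.Agent.DMM
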